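import Pool.Agent.H487R3.BRA.Stmts2

set_option autoImplicit false

open MeasureTheory Set Filter Topology
open scoped FourierTransform Convolution SchwartzMap ContDiff ENNReal

namespace Pool.Agent.H487R3.BRA.BandP

open Pool.Agent.H487R3.BRA

lemma fh_eq {n : ℕ} (f : E n → ℂ) (ξ : E n) : fh f ξ = 𝓕 f ξ := by
  rw [Real.fourier_eq]
  unfold fh e
  refine integral_congr_ae (Eventually.of_forall fun y => ?_)
  simp only [Circle.smul_def, Real.fourierChar_apply, smul_eq_mul]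
  try push_cast
  try ring_nf

lemma finv_eq {n : ℕ} (H : E n → ℂ) (x : E n) :
    𝓕⁻ H x = ∫ ξ : E n, H ξ * e (inner ℝ x ξ) := by
  rw [Real.fourierInv_eq]
  unfold e
  refine integral_congr_ae (Eventually.of_forall fun y => ?_)
  simp only [Circle.smul_def, Real.fourierChar_apply, smul_eq_mul]
  rw [real_inner_comm, mul_comm]

lemma e_norm (t : ℝ) : ‖e t‖ = 1 := by
  unfold e
  rw [Complex.norm_exp_ofReal_mul_I]

/-- L1 norm of a convolution -/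
lemma conv_l1 {n : ℕ} (f g : 𝓢(E n, ℂ)) :
    ∫⁻ x, ‖((f : E n → ℂ) ⋆[ContinuousLinearMap.mul ℂ ℂ] g) x‖ₑ ≤
      (∫⁻ x, ‖f x‖ₑ) * ∫⁻ x, ‖g x‖ₑ := by
  have h1 : ∀ x, ‖((f : E n → ℂ) ⋆[ContinuousLinearMap.mul ℂ ℂ] g) x‖ₑ ≤
      ∫⁻ y, ‖f y‖ₑ * ‖g (x - y)‖ₑ := by
    intro x
    rw [convolution_def]
    refine (enorm_integral_le_lintegral_enorm _).trans ?_
    refine lintegral_mono fun y => ?_
    simp [enorm_mul]
  refine (lintegral_mono h1).trans ?_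
  rw [lintegral_lintegral_swap]
  · have h2 : ∀ y : E n, ∫⁻ x, ‖f y‖ₑ * ‖g (x - y)‖ₑ = ‖f y‖ₑ * ∫⁻ x, ‖g x‖ₑ := by
      intro y
      rw [lintegral_const_mul' _ _ enorm_ne_top]
      congr 1
      exact lintegral_sub_right_eq_self (fun x => ‖g x‖ₑ) y
    simp_rw [h2]
    rw [lintegral_mul_const'' _ (f.continuous.enorm.measurable.aemeasurable)]
  · have m1 : Measurable (fun z : E n × E n => ‖f z.2‖ₑ) :=
      (f.continuous.enorm.measurable).comp measurable_snd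
    have m2 : Measurable (fun z : E n × E n => ‖g (z.1 - z.2)‖ₑ) :=
      (g.continuous.enorm.measurable).comp (measurable_fst.sub measurable_snd)
    exact (m1.mul m2).aemeasurable

/-- cutoffs -/
lemma exists_cut (n : ℕ) : ∃ χ : E n → ℝ, ContDiff ℝ ∞ χ ∧ HasCompactSupport χ ∧
    (∀ x, ‖x‖ ≤ 1 → χ x = 1) ∧ (∀ x, 2 < ‖x‖ → χ x = 0) ∧ ∀ x, |χ x| ≤ 1 := by
  let b : ContDiffBump (0 : E n) := ⟨1, 2, by norm_num, by norm_num⟩
  refine ⟨b, b.contDiff, b.hasCompactSupport, ?_, ?_, ?_⟩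
  · intro x hx
    exact b.one_of_mem_closedBall (by simpa using hx)
  · intro x hx
    exact b.zero_of_le_dist (by simpa using hx.le)
  · intro x
    rw [abs_le]
    exact ⟨by linarith [b.nonneg (x := x)], b.le_one⟩

lemma pow_bound {n : ℕ} {p : ℝ} (hp : 1 < p) (h : E n → ℂ) (S : ℝ≥0∞) (hS : ∀ x, ‖h x‖ₑ ≤ S)
    (hm : Measurable h) :
    ∫⁻ x, ‖h x‖ₑ ^ p ≤ S ^ (p - 1) * ∫⁻ x, ‖h x‖ₑ := by
  rw [← lintegral_const_mul _ hm.enorm]
  refine lintegral_mono fun x => ?_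
  have h1 : ‖h x‖ₑ ^ p = ‖h x‖ₑ ^ (p - 1) * ‖h x‖ₑ := by
    conv_lhs => rw [show p = (p - 1) + 1 by ring]
    rw [ENNReal.rpow_add_of_nonneg (p - 1) 1 (by linarith) (by norm_num), ENNReal.rpow_one]
  rw [h1]
  exact mul_le_mul' (ENNReal.rpow_le_rpow (hS x) (by linarith)) le_rfl

/-- kernel of the scaled cutoff -/
lemma ker_scale {n : ℕ} (χ : E n → ℂ) (N : ℝ) (hN : 0 < N) :
    ∫⁻ x, ‖𝓕⁻ (fun ξ => χ (N⁻¹ • ξ)) x‖ₑ = ∫⁻ x, ‖𝓕⁻ χ x‖ₑ := by
  have hRn : (0 : ℝ) < N ^ n := pow_pos hN n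
  have hfin : Module.finrank ℝ (E n) = n := by simp
  have key : ∀ x : E n, 𝓕⁻ (fun ξ => χ (N⁻¹ • ξ)) x = ((N ^ n : ℝ) : ℂ) * 𝓕⁻ χ (N • x) := by
    intro x
    rw [finv_eq, finv_eq]
    have h := Measure.integral_comp_smul (volume : Measure (E n))
      (fun ξ : E n => χ (N⁻¹ • ξ) * e (inner ℝ x ξ)) N
    rw [hfin, abs_of_pos (inv_pos.2 hRn)] at h
    have h2 : (fun η : E n => χ (N⁻¹ • (N • η)) * e (inner ℝ x (N • η))) =
        fun η : E n => χ η * e (inner ℝ (N • x) η) := by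
      funext η
      rw [smul_smul, inv_mul_cancel₀ hN.ne', one_smul, real_inner_smul_right, real_inner_smul_left]
    rw [h2] at h
    rw [h, Complex.real_smul, ← mul_assoc, ← Complex.ofReal_mul, mul_inv_cancel₀ hRn.ne']
    simp
  have h1 : ∀ x : E n, ‖𝓕⁻ (fun ξ => χ (N⁻¹ • ξ)) x‖ₑ =
      ENNReal.ofReal (N ^ n) * ‖𝓕⁻ χ (N • x)‖ₑ := by
    intro x
    rw [key x, enorm_mul]
    congr 1
    rw [← ofReal_norm_eq_enorm, Complex.norm_real, Real.norm_eq_abs, abs_of_pos hRn]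
  simp_rw [h1]
  rw [lintegral_const_mul' _ _ ENNReal.ofReal_ne_top]
  have hme : MeasurableEmbedding (fun x : E n => N • x) :=
    (Homeomorph.smulOfNeZero N hN.ne').measurableEmbedding
  have h2 : ∫⁻ x : E n, ‖𝓕⁻ χ (N • x)‖ₑ =
      ∫⁻ y : E n, ‖𝓕⁻ χ y‖ₑ ∂(Measure.map (fun x : E n => N • x) volume) :=
    (hme.lintegral_map (fun y : E n => ‖𝓕⁻ χ y‖ₑ)).symm
  rw [h2, Measure.map_addHaar_smul volume hN.ne', lintegral_smul_measure, hfin,
    abs_of_pos (inv_pos.2 hRn), smul_eq_mul, ← mul_assoc, ← ENNReal.ofReal_mul hRn.le,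
    mul_inv_cancel₀ hRn.ne', ENNReal.ofReal_one, one_mul]

/-- the band limited approximations of a Schwartz function -/
lemma approx {n : ℕ} {p : ℝ} (hp : 1 < p) (u : 𝓢(E n, ℂ)) (δ : ℝ≥0∞) (hδ : 0 < δ) :
    ∃ g : 𝓢(E n, ℂ), (∃ B0 : ℝ, ∀ ξ : E n, B0 < ‖ξ‖ → 𝓕 g ξ = 0) ∧
      ∫⁻ x, ‖u x - g x‖ₑ ^ p ≤ δ := by
  obtain ⟨χ, hχ1, hχ2, hχ3, hχ4, hχ5⟩ := exists_cut n
  have hsm : ∀ N : ℕ, ContDiff ℝ ∞ (fun ξ : E n => ((χ (((N : ℝ) + 1)⁻¹ • ξ) : ℝ) : ℂ)) := by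
    intro N
    exact Complex.ofRealCLM.contDiff.comp (hχ1.comp (contDiff_const_smul _))
  have hcs : ∀ N : ℕ, HasCompactSupport (fun ξ : E n => ((χ (((N : ℝ) + 1)⁻¹ • ξ) : ℝ) : ℂ)) := by
    intro N
    have h0 : (((N : ℝ) + 1)⁻¹) ≠ 0 := by positivity
    have := hχ2.comp_homeomorph (Homeomorph.smulOfNeZero (((N : ℝ) + 1)⁻¹) h0)
    exact this.comp_left (g := fun r : ℝ => (r : ℂ)) (by simp)
  set X : ℕ → 𝓢(E n, ℂ) := fun N => (hcs N).toSchwartzMap (hsm N) with hX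
  have hXa : ∀ N ξ, X N ξ = ((χ (((N : ℝ) + 1)⁻¹ • ξ) : ℝ) : ℂ) := fun N ξ => rfl
  set G : ℕ → 𝓢(E n, ℂ) := fun N =>
    SchwartzMap.convolution (ContinuousLinearMap.mul ℂ ℂ) u (𝓕⁻ (X N)) with hG
  have hFG : ∀ N ξ, 𝓕 (G N) ξ = 𝓕 u ξ * X N ξ := by
    intro N ξ
    rw [hG]
    simp only
    rw [SchwartzMap.fourier_convolution, FourierTransform.fourier_fourierInv_eq]
    rfl
  have hinv : ∀ (v : 𝓢(E n, ℂ)) (x : E n), v x = ∫ ξ : E n, 𝓕 v ξ * e (inner ℝ x ξ) := by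
    intro v x
    have h1 : 𝓕⁻ (𝓕 v) = v := FourierTransform.fourierInv_fourier_eq v
    conv_lhs => rw [← h1]
    rw [SchwartzMap.fourierInv_coe, finv_eq]
  set S : ℕ → ℝ≥0∞ := fun N => ∫⁻ ξ, ‖(1 - X N ξ) * 𝓕 u ξ‖ₑ with hS
  have hsup : ∀ N x, ‖u x - G N x‖ₑ ≤ S N := by
    intro N x
    have he : Continuous (fun ξ : E n => e (inner ℝ x ξ)) := by
      unfold e
      fun_prop
    have hi : ∀ v : 𝓢(E n, ℂ), Integrable (fun ξ => 𝓕 v ξ * e (inner ℝ x ξ)) := by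
      intro v
      refine (SchwartzMap.integrable (𝓕 v)).mul_bdd (c := 1) he.aestronglyMeasurable ?_
      exact Eventually.of_forall fun ξ => (e_norm _).le
    rw [hinv u x, hinv (G N) x, ← integral_sub (hi u) (hi (G N))]
    refine (enorm_integral_le_lintegral_enorm _).trans ?_
    refine lintegral_mono fun ξ => ?_
    rw [hFG N ξ]
    have : 𝓕 u ξ * e (inner ℝ x ξ) - 𝓕 u ξ * X N ξ * e (inner ℝ x ξ) =
        ((1 - X N ξ) * 𝓕 u ξ) * e (inner ℝ x ξ) := by ring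
    rw [this, enorm_mul ((1 - X N ξ) * 𝓕 u ξ), ← ofReal_norm_eq_enorm (e _), e_norm]
    simp
  have hS0 : Tendsto S atTop (𝓝 0) := by
    have hd := tendsto_lintegral_of_dominated_convergence (μ := (volume : Measure (E n)))
      (F := fun N ξ => ‖(1 - X N ξ) * 𝓕 u ξ‖ₑ) (f := fun _ => 0)
      (fun ξ => 2 * ‖𝓕 u ξ‖ₑ) ?_ ?_ ?_ ?_
    · rw [lintegral_zero] at hd
      exact hd
    · intro N
      exact ((continuous_const.sub (X N).continuous).mul (𝓕 u).continuous).enorm.measurable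
    · intro N
      refine Eventually.of_forall fun ξ => ?_
      beta_reduce
      rw [enorm_mul]
      refine mul_le_mul' ?_ le_rfl
      rw [← ofReal_norm_eq_enorm]
      have h7 : ‖1 - X N ξ‖ ≤ 2 := by
        refine (norm_sub_le _ _).trans ?_
        rw [hXa, Complex.norm_real, Real.norm_eq_abs, norm_one]
        linarith [hχ5 (((N : ℝ) + 1)⁻¹ • ξ)]
      exact (ENNReal.ofReal_le_ofReal h7).trans (by simp)
    · rw [lintegral_const_mul' _ _ (by simp)]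
      exact ENNReal.mul_ne_top (by simp) (SchwartzMap.integrable (𝓕 u)).2.ne
    · refine Eventually.of_forall fun ξ => ?_
      apply tendsto_const_nhds.congr'
      filter_upwards [eventually_ge_atTop (⌈‖ξ‖⌉₊)] with N hN
      have h1 : ‖ξ‖ ≤ (N : ℝ) + 1 := by
        have := Nat.le_of_ceil_le hN
        linarith
      have h2 : χ (((N : ℝ) + 1)⁻¹ • ξ) = 1 := by
        apply hχ3
        rw [norm_smul, norm_inv, Real.norm_eq_abs, abs_of_pos (by positivity : (0 : ℝ) < (N : ℝ) + 1)]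
        rw [inv_mul_le_iff₀ (by positivity)]
        linarith
      rw [hXa, h2]
      simp
  set M : ℝ≥0∞ := (∫⁻ x, ‖u x‖ₑ) + (∫⁻ x, ‖u x‖ₑ) * ∫⁻ x, ‖𝓕⁻ (fun ξ => ((χ ξ : ℝ) : ℂ)) x‖ₑ with hM
  have hMt : M ≠ ⊤ := by
    have hcs0 : HasCompactSupport (fun ξ : E n => ((χ ξ : ℝ) : ℂ)) :=
      hχ2.comp_left (g := fun r : ℝ => (r : ℂ)) (by simp)
    have hsm0 : ContDiff ℝ ∞ (fun ξ : E n => ((χ ξ : ℝ) : ℂ)) :=
      Complex.ofRealCLM.contDiff.comp hχ1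
    have h3 : ∫⁻ x, ‖𝓕⁻ (fun ξ => ((χ ξ : ℝ) : ℂ)) x‖ₑ ≠ ⊤ := by
      have := (SchwartzMap.integrable (𝓕⁻ (hcs0.toSchwartzMap hsm0)) (μ := volume)).2.ne
      rwa [SchwartzMap.fourierInv_coe] at this
    exact ENNReal.add_ne_top.2 ⟨(u.integrable (μ := volume)).2.ne,
      ENNReal.mul_ne_top (u.integrable (μ := volume)).2.ne h3⟩
  have hL1 : ∀ N, ∫⁻ x, ‖u x - G N x‖ₑ ≤ M := by
    intro N
    have h1 : ∫⁻ x, ‖G N x‖ₑ ≤
        (∫⁻ x, ‖u x‖ₑ) * ∫⁻ x, ‖𝓕⁻ (fun ξ => ((χ ξ : ℝ) : ℂ)) x‖ₑ := by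
      have h2 := conv_l1 u (𝓕⁻ (X N))
      have h3 : ∀ x, G N x = ((u : E n → ℂ) ⋆[ContinuousLinearMap.mul ℂ ℂ]
          ((𝓕⁻ (X N) : 𝓢(E n, ℂ)) : E n → ℂ)) x :=
        fun x => SchwartzMap.convolution_apply _ _ _ x
      simp_rw [← h3] at h2
      refine h2.trans ?_
      have h4 := ker_scale (fun ξ : E n => ((χ ξ : ℝ) : ℂ)) ((N : ℝ) + 1) (by positivity)
      rw [← h4, SchwartzMap.fourierInv_coe]
      rfl
    calc ∫⁻ x, ‖u x - G N x‖ₑ ≤ ∫⁻ x, (‖u x‖ₑ + ‖G N x‖ₑ) := lintegral_mono fun x => enorm_sub_le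
      _ = (∫⁻ x, ‖u x‖ₑ) + ∫⁻ x, ‖G N x‖ₑ := lintegral_add_left u.continuous.enorm.measurable _
      _ ≤ M := by
        rw [hM]
        gcongr
  have hlim : Tendsto (fun N => (S N) ^ (p - 1) * M) atTop (𝓝 0) := by
    have h1 : Tendsto (fun N => (S N) ^ (p - 1)) atTop (𝓝 0) := by
      have := (ENNReal.continuous_rpow_const (y := p - 1)).tendsto 0 |>.comp hS0
      rw [ENNReal.zero_rpow_of_pos (by linarith)] at this
      exact this
    have := ENNReal.Tendsto.mul_const h1 (Or.inr hMt)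
    rwa [zero_mul] at this
  obtain ⟨N, hN⟩ := (hlim.eventually (ge_mem_nhds hδ)).exists
  refine ⟨G N, ⟨2 * ((N : ℝ) + 1), fun ξ hξ => ?_⟩, ?_⟩
  · rw [hFG, hXa, hχ4, Complex.ofReal_zero, mul_zero]
    rw [norm_smul, norm_inv, Real.norm_eq_abs, abs_of_pos (by positivity : (0 : ℝ) < (N : ℝ) + 1)]
    rw [lt_inv_mul_iff₀ (by positivity)]
    linarith
  · refine (pow_bound hp (fun x => u x - G N x) (S N) (hsup N)
      (u.continuous.sub (G N).continuous).measurable).trans ?_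
    refine le_trans ?_ hN
    gcongr
    exact hL1 N

theorem result : TaskBand := by
  intro n p hp f hf ε hε
  obtain ⟨hm, hi, B, hB⟩ := hf
  have hp0 : 0 < p := by linarith
  have hq0 : ENNReal.ofReal p ≠ 0 := by simpa using hp0
  have hqt : ENNReal.ofReal p ≠ ⊤ := ENNReal.ofReal_ne_top
  have hq1 : 1 ≤ ENNReal.ofReal p := by
    rw [← ENNReal.ofReal_one]
    exact ENNReal.ofReal_le_ofReal hp.le
  have hqr : (ENNReal.ofReal p).toReal = p := ENNReal.toReal_ofReal hp0.le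
  have hmem : MemLp f (ENNReal.ofReal p) volume := by
    refine ⟨hm.aestronglyMeasurable, ?_⟩
    rw [eLpNorm_lt_top_iff_lintegral_rpow_enorm_lt_top hq0 hqt, hqr]
    refine lt_of_le_of_lt (pow_bound hp f (ENNReal.ofReal B) ?_ hm) ?_
    · intro x
      rw [← ofReal_norm_eq_enorm]
      exact ENNReal.ofReal_le_ofReal (hB x)
    · exact ENNReal.mul_lt_top (ENNReal.rpow_lt_top_of_nonneg (by linarith) ENNReal.ofReal_ne_top)
        hi.2
  set δ : ℝ := ε ^ (1 / p) with hδ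
  have hδ0 : 0 < δ := Real.rpow_pos_of_pos hε _
  obtain ⟨u, hu1, hu2, hu3⟩ := hmem.exist_eLpNorm_sub_le hqt hq1 (half_pos hδ0)
  set us : 𝓢(E n, ℂ) := hu1.toSchwartzMap hu2 with hus
  obtain ⟨g, ⟨B0, hg1⟩, hg2⟩ := approx hp us (ENNReal.ofReal ((δ / 2) ^ p))
    (ENNReal.ofReal_pos.2 (by positivity))
  have h5 : eLpNorm (us - g : E n → ℂ) (ENNReal.ofReal p) volume ≤ ENNReal.ofReal (δ / 2) := by
    rw [eLpNorm_eq_lintegral_rpow_enorm_toReal hq0 hqt, hqr]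
    have h6 : ENNReal.ofReal (δ / 2) = (ENNReal.ofReal ((δ / 2) ^ p)) ^ (1 / p) := by
      rw [ENNReal.ofReal_rpow_of_nonneg (by positivity) (by positivity), ← Real.rpow_mul
        (by positivity), mul_one_div_cancel hp0.ne', Real.rpow_one]
    rw [h6]
    exact ENNReal.rpow_le_rpow hg2 (by positivity)
  have h7 : eLpNorm (f - (g : E n → ℂ)) (ENNReal.ofReal p) volume ≤ ENNReal.ofReal δ := by
    have h8 : f - (g : E n → ℂ) = (f - u) + ((us : E n → ℂ) - g) := by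
      ext x
      simp [hus]
    rw [h8]
    refine (eLpNorm_add_le ?_ ?_ hq1).trans ?_
    · exact hm.aestronglyMeasurable.sub hu2.continuous.aestronglyMeasurable
    · exact us.continuous.aestronglyMeasurable.sub g.continuous.aestronglyMeasurable
    · refine (add_le_add hu3 h5).trans ?_
      rw [← ENNReal.ofReal_add (by positivity) (by positivity), add_halves]
  refine ⟨g, ⟨g.continuous.measurable, g.integrable, SchwartzMap.seminorm ℝ 0 0 g,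
    fun x => SchwartzMap.norm_le_seminorm ℝ g x⟩, ⟨B0, fun ξ hξ => ?_⟩, fun x => ?_, ?_⟩
  · rw [fh_eq, ← SchwartzMap.fourier_coe]
    exact hg1 ξ hξ
  · have h1 : 𝓕⁻ (𝓕 g) = g := FourierTransform.fourierInv_fourier_eq g
    conv_lhs => rw [← h1]
    rw [SchwartzMap.fourierInv_coe, finv_eq]
    simp_rw [fh_eq, ← SchwartzMap.fourier_coe]
  · have h9 : ∫⁻ x, ‖f x - g x‖ₑ ^ p = (eLpNorm (f - (g : E n → ℂ)) (ENNReal.ofReal p) volume) ^ p := by
      rw [eLpNorm_eq_lintegral_rpow_enorm_toReal hq0 hqt, hqr, ← ENNReal.rpow_mul,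
        one_div_mul_cancel hp0.ne', ENNReal.rpow_one]
      rfl
    rw [h9]
    refine (ENNReal.rpow_le_rpow h7 hp0.le).trans ?_
    rw [ENNReal.ofReal_rpow_of_nonneg hδ0.le hp0.le, hδ, ← Real.rpow_mul hε.le,
      one_div_mul_cancel hp0.ne', Real.rpow_one]

end Pool.Agent.H487R3.BRA.BandP
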