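import Pool.Agent.H487R3.BRA.Final
import Pool.Agent.H487R3.BRA.BandP

set_option autoImplicit false

/-!
Spherical means of order 0: convergence in the mean for almost all radii.
-/

open MeasureTheory Set Filter Topology

namespace Pool.Agent.H487R3.BRA

theorem fh_sub {n : ℕ} (f g : E n → ℂ) (hf : Integrable f) (hg : Integrable g) (ξ : E n) :
    fh (fun y => f y - g y) ξ = fh f ξ - fh g ξ := by
  have hi : ∀ u : E n → ℂ, Integrable u → Integrable fun y : E n => e (-(inner ℝ y ξ)) * u y := by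
    intro u hu
    refine hu.bdd_mul (c := 1) ?_ ?_
    · exact (e_cont.comp (by fun_prop)).aestronglyMeasurable
    · exact Filter.Eventually.of_forall fun y => (norm_e _).le
  unfold fh
  rw [← integral_sub (hi f hf) (hi g hg)]
  congr 1
  funext y
  ring

theorem brm_zero {u : ℝ} : brm 0 u = if u < 1 then 1 else 0 := by
  unfold brm
  simp

theorem SRm_zero_int {n : ℕ} (R : ℝ) (hR : 0 < R) (f : E n → ℂ) (hf : Integrable f) (x : E n) :
    Integrable fun ξ : E n => ((brm 0 (‖ξ‖ ^ 2 / R ^ 2) : ℝ) : ℂ) * fh f ξ * e (inner ℝ x ξ) := by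
  have hm : Measurable fun ξ : E n => ((brm 0 (‖ξ‖ ^ 2 / R ^ 2) : ℝ) : ℂ) := by
    have h1 : Measurable fun ξ : E n => ‖ξ‖ ^ 2 / R ^ 2 := by fun_prop
    simp only [brm_zero]
    exact Complex.measurable_ofReal.comp
      (Measurable.ite (measurableSet_lt h1 measurable_const) measurable_const measurable_const)
  refine Integrable.mono' (g := (Metric.closedBall (0 : E n) R).indicator
      (fun _ => ∫ y, ‖f y‖)) ?_ ?_ (Filter.Eventually.of_forall fun ξ => ?_)
  · rw [integrable_indicator_iff Metric.isClosed_closedBall.measurableSet]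
    exact integrableOn_const (measure_closedBall_lt_top.ne)
  · exact ((hm.aestronglyMeasurable).mul (fh_cont f hf).aestronglyMeasurable).mul
      (e_cont.comp (by fun_prop)).aestronglyMeasurable
  · by_cases hξ : ξ ∈ Metric.closedBall (0 : E n) R
    · rw [indicator_of_mem hξ, norm_mul, norm_mul, norm_e, mul_one, brm_zero]
      have h3 := fh_bdd f ξ
      have h4 : 0 ≤ ‖fh f ξ‖ := norm_nonneg _
      split_ifs
      · simpa using h3
      · simp only [Complex.ofReal_zero, norm_zero, zero_mul]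
        exact h4.trans h3
    · rw [indicator_of_notMem hξ]
      rw [mem_closedBall_zero_iff, not_le] at hξ
      have h5 : ¬ (‖ξ‖ ^ 2 / R ^ 2 < 1) := by
        rw [not_lt, one_le_div (by positivity)]
        exact pow_le_pow_left₀ hR.le hξ.le 2
      rw [brm_zero, if_neg h5]
      simp

theorem SRm_zero_sub {n : ℕ} (R : ℝ) (hR : 0 < R) (f g : E n → ℂ) (hf : Integrable f)
    (hg : Integrable g) (x : E n) :
    SRm n 0 R (fun y => f y - g y) x = SRm n 0 R f x - SRm n 0 R g x := by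
  unfold SRm
  rw [← integral_sub (SRm_zero_int R hR f hf x) (SRm_zero_int R hR g hg x)]
  congr 1
  funext ξ
  rw [fh_sub f g hf hg]
  ring

theorem SRm_band {n : ℕ} (R B0 : ℝ) (hR : 0 < R) (hB : B0 < R) (g : E n → ℂ)
    (h1 : ∀ ξ : E n, B0 < ‖ξ‖ → fh g ξ = 0)
    (h2 : ∀ x, g x = ∫ ξ : E n, fh g ξ * e (inner ℝ x ξ)) (x : E n) :
    SRm n 0 R g x = g x := by
  rw [h2 x]
  unfold SRm
  congr 1
  funext ξ
  by_cases hξ : B0 < ‖ξ‖
  · rw [h1 ξ hξ]; simp
  · push Not at hξ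
    have h5 : ‖ξ‖ ^ 2 / R ^ 2 < 1 := by
      rw [div_lt_one (by positivity)]
      exact pow_lt_pow_left₀ (hξ.trans_lt hB) (norm_nonneg _) (by norm_num)
    rw [brm_zero, if_pos h5]
    simp

/-- convergence in the mean over radii of the spherical means of order zero -/
theorem thmC (hBand : TaskBand) (n : ℕ) (p : ℝ) (hn : 1 ≤ n) (hp : 1 < p)
    (hδ : (n : ℝ) * |1 / 2 - 1 / p| < 1 / 2) (f : E n → ℂ) (hf : Nice f) :
    Tendsto (fun ρ : ℝ => (ENNReal.ofReal ρ)⁻¹ *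
      ∫⁻ R in Icc ρ (2 * ρ), (∫⁻ x : E n, ‖SRm n 0 R f x - f x‖ₑ ^ p)) atTop (𝓝 0) := by
  obtain ⟨C, hC, hB⟩ := thmB n p 0 hn hp (by linarith)
  have hp0 : 0 < p := by linarith
  rw [ENNReal.tendsto_nhds_zero]
  intro η hη
  -- choice of ε
  obtain ⟨ε, hε, hεη⟩ : ∃ ε : ℝ, 0 < ε ∧
      (2 : ENNReal) ^ (p - 1) * (ENNReal.ofReal (C + 1) * ENNReal.ofReal ε) ≤ η := by
    by_cases htop : η = ⊤
    · exact ⟨1, one_pos, by rw [htop]; exact le_top⟩
    · have hη0 : 0 < η.toReal := ENNReal.toReal_pos hη.ne' htop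
      have h2p : (0 : ℝ) < 2 ^ (p - 1) := Real.rpow_pos_of_pos (by norm_num) _
      refine ⟨η.toReal / (2 ^ (p - 1) * (C + 1)), by positivity, ?_⟩
      rw [← ENNReal.ofReal_mul (by linarith)]
      have e1 : (2 : ENNReal) ^ (p - 1) = ENNReal.ofReal (2 ^ (p - 1)) := by
        rw [← ENNReal.ofReal_rpow_of_pos (by norm_num)]
        norm_num
      rw [e1, ← ENNReal.ofReal_mul h2p.le]
      have e2 : (2 : ℝ) ^ (p - 1) * ((C + 1) * (η.toReal / (2 ^ (p - 1) * (C + 1)))) = η.toReal := by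
        field_simp
      rw [e2, ENNReal.ofReal_toReal htop]
  obtain ⟨g, hg, ⟨B0, hB0⟩, hinv, hfg⟩ := hBand n p hp f hf ε hε
  have hd : Nice fun x => f x - g x := by
    obtain ⟨a1, a2, A, hA⟩ := hf
    obtain ⟨b1, b2, B, hB'⟩ := hg
    exact ⟨a1.sub b1, a2.sub b2, A + B, fun x =>
      (norm_sub_le _ _).trans (add_le_add (hA x) (hB' x))⟩
  filter_upwards [eventually_gt_atTop (max B0 0)] with ρ hρ
  have hρ0 : 0 < ρ := (le_max_right _ _).trans_lt hρ
  have hρB : B0 < ρ := (le_max_left _ _).trans_lt hρ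
  have hmeas : Measurable fun x : E n => ‖f x - g x‖ₑ ^ p := (hd.1.enorm).pow_const p
  have hpt : ∀ R ∈ Icc ρ (2 * ρ), ∫⁻ x : E n, ‖SRm n 0 R f x - f x‖ₑ ^ p ≤
      (2 : ENNReal) ^ (p - 1) * ((∫⁻ x : E n, ‖SRm n 0 R (fun y => f y - g y) x‖ₑ ^ p) +
        ENNReal.ofReal ε) := by
    intro R hR
    have hR0 : 0 < R := hρ0.trans_le hR.1
    have hRB : B0 < R := hρB.trans_le hR.1
    calc ∫⁻ x : E n, ‖SRm n 0 R f x - f x‖ₑ ^ p
        ≤ ∫⁻ x : E n, (2 : ENNReal) ^ (p - 1) *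
            (‖SRm n 0 R (fun y => f y - g y) x‖ₑ ^ p + ‖f x - g x‖ₑ ^ p) := by
          refine lintegral_mono fun x => ?_
          have e1 : SRm n 0 R f x - f x = SRm n 0 R (fun y => f y - g y) x - (f x - g x) := by
            rw [SRm_zero_sub R hR0 f g hf.2.1 hg.2.1, SRm_band R B0 hR0 hRB g hB0 hinv x]
            ring
          rw [e1]
          calc ‖SRm n 0 R (fun y => f y - g y) x - (f x - g x)‖ₑ ^ p
              ≤ (‖SRm n 0 R (fun y => f y - g y) x‖ₑ + ‖f x - g x‖ₑ) ^ p :=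
                ENNReal.rpow_le_rpow (enorm_sub_le) hp0.le
            _ ≤ _ := ENNReal.rpow_add_le_mul_rpow_add_rpow _ _ hp.le
      _ = (2 : ENNReal) ^ (p - 1) * ((∫⁻ x : E n, ‖SRm n 0 R (fun y => f y - g y) x‖ₑ ^ p) +
            ∫⁻ x : E n, ‖f x - g x‖ₑ ^ p) := by
          rw [lintegral_const_mul' _ _ (ENNReal.rpow_ne_top_of_nonneg (by linarith) (by norm_num)),
            lintegral_add_right _ hmeas]
      _ ≤ _ := by gcongr
  calc (ENNReal.ofReal ρ)⁻¹ * ∫⁻ R in Icc ρ (2 * ρ), (∫⁻ x : E n, ‖SRm n 0 R f x - f x‖ₑ ^ p)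
      ≤ (ENNReal.ofReal ρ)⁻¹ * ∫⁻ R in Icc ρ (2 * ρ), (2 : ENNReal) ^ (p - 1) *
          ((∫⁻ x : E n, ‖SRm n 0 R (fun y => f y - g y) x‖ₑ ^ p) + ENNReal.ofReal ε) := by
        exact mul_le_mul' le_rfl (setLIntegral_mono' measurableSet_Icc hpt)
    _ = (ENNReal.ofReal ρ)⁻¹ * ((2 : ENNReal) ^ (p - 1) *
          ((∫⁻ R in Icc ρ (2 * ρ), (∫⁻ x : E n, ‖SRm n 0 R (fun y => f y - g y) x‖ₑ ^ p)) +
            ENNReal.ofReal ε * ENNReal.ofReal ρ)) := by
        rw [lintegral_const_mul' _ _ (ENNReal.rpow_ne_top_of_nonneg (by linarith) (by norm_num)),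
          lintegral_add_right _ measurable_const, lintegral_const, Measure.restrict_apply MeasurableSet.univ,
          univ_inter, Real.volume_Icc]
        congr 5
        ring
    _ ≤ (ENNReal.ofReal ρ)⁻¹ * ((2 : ENNReal) ^ (p - 1) *
          (ENNReal.ofReal (C * ρ) * ENNReal.ofReal ε + ENNReal.ofReal ε * ENNReal.ofReal ρ)) := by
        gcongr
        refine (hB ρ hρ0 _ hd).trans ?_
        gcongr
    _ = ((ENNReal.ofReal ρ)⁻¹ * ENNReal.ofReal ρ) *
          ((2 : ENNReal) ^ (p - 1) * (ENNReal.ofReal (C + 1) * ENNReal.ofReal ε)) := by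
        rw [ENNReal.ofReal_mul hC.le, ENNReal.ofReal_add hC.le zero_le_one, ENNReal.ofReal_one]
        ring
    _ ≤ η := by
        rw [ENNReal.inv_mul_cancel (by simpa using hρ0) ENNReal.ofReal_ne_top, one_mul]
        exact hεη

end Pool.Agent.H487R3.BRA
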