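import Pool.Agent.H487R3.BRA.Stmts

/-!
# Task Big: the pieces for `p > 2`
-/

set_option autoImplicit false

open MeasureTheory Set

namespace Pool.Agent.H487R3.BRA.TBig

open Pool.Agent.H487R3.BRA

theorem e_norm (x : ℝ) : ‖e x‖ = 1 := by
  unfold e
  exact Complex.norm_exp_ofReal_mul_I _

theorem e_cont : Continuous e := by
  unfold e
  fun_prop

theorem fh_cont {n : ℕ} {g : E n → ℂ} (hg : Integrable g) : Continuous (fh g) := by
  unfold fh
  refine continuous_of_dominated (bound := fun y => ‖g y‖) ?_ ?_ hg.norm ?_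
  · intro ξ
    refine AEStronglyMeasurable.mul ?_ hg.1
    exact (e_cont.comp (by fun_prop : Continuous fun y : E n => -(inner ℝ y ξ))).aestronglyMeasurable
  · intro ξ
    refine Filter.Eventually.of_forall fun y => ?_
    rw [norm_mul, e_norm, one_mul]
  · refine Filter.Eventually.of_forall fun y => ?_
    exact (e_cont.comp (by fun_prop : Continuous fun ξ : E n => -(inner ℝ y ξ))).mul
      continuous_const

theorem fh_add {n : ℕ} {g h : E n → ℂ} (hg : Integrable g) (hh : Integrable h) (ξ : E n) :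
    fh (fun x => g x + h x) ξ = fh g ξ + fh h ξ := by
  unfold fh
  have key : ∀ k : E n → ℂ, Integrable k → Integrable fun y : E n => e (-(inner ℝ y ξ)) * k y := by
    intro k hk
    refine hk.norm.mono' ?_ ?_
    · refine AEStronglyMeasurable.mul ?_ hk.1
      exact (e_cont.comp (by fun_prop : Continuous fun y : E n => -(inner ℝ y ξ))).aestronglyMeasurable
    · refine Filter.Eventually.of_forall fun y => ?_
      rw [norm_mul, e_norm, one_mul]
  rw [← integral_add (key g hg) (key h hh)]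
  refine integral_congr_ae (Filter.Eventually.of_forall fun y => ?_)
  change e (-(inner ℝ y ξ)) * (g y + h y) = e (-(inner ℝ y ξ)) * g y + e (-(inner ℝ y ξ)) * h y
  ring

theorem int_piece {n : ℕ} {ψ : ℝ → ℝ} (hψ : Bump ψ) {Λ R : ℝ} (hΛ : 1 ≤ Λ) (hR : 0 < R)
    {g : E n → ℂ} (hg : Integrable g) (x : E n) :
    Integrable fun ξ : E n => ((pc ψ Λ R (‖ξ‖ ^ 2) : ℝ) : ℂ) * fh g ξ * e (inner ℝ x ξ) := by
  have hc0 : Continuous fun ξ : E n => ((pc ψ Λ R (‖ξ‖ ^ 2) : ℝ) : ℂ) := by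
    unfold pc
    have := hψ.1.continuous
    fun_prop
  have hcs : HasCompactSupport fun ξ : E n => ((pc ψ Λ R (‖ξ‖ ^ 2) : ℝ) : ℂ) := by
    refine HasCompactSupport.intro (isCompact_closedBall (0 : E n) R) fun ξ hξ => ?_
    rw [mem_closedBall_zero_iff, not_le] at hξ
    have h1 : pc ψ Λ R (‖ξ‖ ^ 2) = 0 := by
      by_contra hcon
      have h2 := (hψ.2 _ hcon).1
      have h3 : 1 < ‖ξ‖ ^ 2 / R ^ 2 := by
        rw [one_lt_div (by positivity)]
        exact pow_lt_pow_left₀ hξ hR.le two_ne_zero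
      have h4 : Λ * (1 - ‖ξ‖ ^ 2 / R ^ 2) < 0 := mul_neg_of_pos_of_neg (by linarith) (by linarith)
      linarith
    rw [h1]
    simp
  apply Continuous.integrable_of_hasCompactSupport
  · exact (hc0.mul (fh_cont hg)).mul
      (e_cont.comp (by fun_prop : Continuous fun ξ : E n => inner ℝ x ξ))
  · exact (hcs.mul_right).mul_right

theorem TR_add {n : ℕ} {ψ : ℝ → ℝ} (hψ : Bump ψ) {Λ R : ℝ} (hΛ : 1 ≤ Λ) (hR : 0 < R)
    {f g h : E n → ℂ} (hg : Integrable g) (hh : Integrable h) (hf : f = fun x => g x + h x)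
    (x : E n) :
    TR n (pc ψ Λ R) f x = TR n (pc ψ Λ R) g x + TR n (pc ψ Λ R) h x := by
  subst hf
  unfold TR
  rw [← integral_add (int_piece hψ hΛ hR hg x) (int_piece hψ hΛ hR hh x)]
  refine integral_congr_ae (Filter.Eventually.of_forall fun ξ => ?_)
  change ((pc ψ Λ R (‖ξ‖ ^ 2) : ℝ) : ℂ) * fh (fun x => g x + h x) ξ * e (inner ℝ x ξ) =
    ((pc ψ Λ R (‖ξ‖ ^ 2) : ℝ) : ℂ) * fh g ξ * e (inner ℝ x ξ) +
      ((pc ψ Λ R (‖ξ‖ ^ 2) : ℝ) : ℂ) * fh h ξ * e (inner ℝ x ξ)
  rw [fh_add hg hh]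
  ring

theorem nice_ind {n : ℕ} {f : E n → ℂ} (hf : Nice f) {s : Set (E n)} (hs : MeasurableSet s) :
    Nice (s.indicator f) := by
  obtain ⟨h1, h2, B, h3⟩ := hf
  refine ⟨h1.indicator hs, h2.indicator hs, B, fun x => ?_⟩
  exact (norm_indicator_le_norm_self f x).trans (h3 x)

theorem rad_finite {r0 r1 M0 a : ℝ} (h01 : r0 < r1) {ν : Measure ℝ} (hν : Rad r0 r1 M0 a ν) :
    IsFiniteMeasure ν := by
  refine ⟨?_⟩
  have h1 := hν.2 r0 (r1 - r0) (by linarith)
  have h2 : r0 + (r1 - r0) = r1 := by ring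
  rw [h2] at h1
  calc ν univ ≤ ν (Icc r0 r1) + ν (Icc r0 r1)ᶜ := measure_univ_le_add_compl _
    _ ≤ ENNReal.ofReal (M0 * (r1 - r0) ^ a) + 0 := add_le_add h1 hν.1.le
    _ < ⊤ := by simp

theorem result : TaskL2 → TaskEnds → TaskMeas → MarcInf → TaskBig := by
  intro hL2 hEnds hMeas hMarc n ψ r0 r1 M0 a p hn hψ hr0 hr01 hM0 ha ha1 hp
  obtain ⟨C2, hC2, H2⟩ := hL2 n ψ r0 r1 M0 a hn hψ hr0 hr01 hM0 ha ha1
  obtain ⟨C1, hC1, H1⟩ := hEnds n ψ hn hψ
  obtain ⟨C3, hC3, H3⟩ := hMarc 2 p (by norm_num) hp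
  refine ⟨C3 * C2 * C1 ^ (p - 2), by positivity, ?_⟩
  intro ν hν Λ hΛ f hf
  have hΛ0 : 0 < Λ := by linarith
  have := rad_finite hr01 hν
  have hRae : ∀ᵐ R ∂ν, 0 < R := by
    have h1 : ∀ᵐ R ∂ν, R ∈ Icc r0 r1 := by
      rw [ae_iff]
      exact hν.1
    filter_upwards [h1] with R hR
    exact lt_of_lt_of_le hr0 hR.1
  have hRae' : ∀ᵐ y : ℝ × E n ∂(ν.prod volume), 0 < y.1 :=
    Measure.quasiMeasurePreserving_fst.ae hRae
  have hmF := hMeas n ψ Λ f hψ hf
  have h := H3 (volume : Measure (E n)) (ν.prod (volume : Measure (E n)))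
    (fun y => ‖TR n (pc ψ Λ y.1) f y.2‖) (fun x => ‖f x‖) hmF.norm hf.1.norm
    (fun y => norm_nonneg _) (fun x => norm_nonneg _) (C2 * Λ ^ (-a))
    (C1 * Λ ^ (((n : ℝ) - 1) / 2)) (by positivity) (by positivity) (by
      intro t ht
      have hs : MeasurableSet {x : E n | t < ‖f x‖} := measurableSet_lt measurable_const hf.1.norm
      set g : E n → ℂ := {x : E n | t < ‖f x‖}.indicator f with hg
      set k : E n → ℂ := ({x : E n | t < ‖f x‖}ᶜ).indicator f with hk
      have gN : Nice g := nice_ind hf hs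
      have kN : Nice k := nice_ind hf hs.compl
      have hfgk : f = fun x => g x + k x := by
        funext x
        exact (indicator_self_add_compl_apply _ f x).symm
      refine ⟨fun y => ‖TR n (pc ψ Λ y.1) g y.2‖ₑ, fun y => ‖TR n (pc ψ Λ y.1) k y.2‖ₑ,
        (hMeas n ψ Λ g hψ gN).enorm, (hMeas n ψ Λ k hψ kN).enorm, ?_, ?_, ?_⟩
      · filter_upwards [hRae'] with y hy
        rw [TR_add hψ hΛ hy gN.2.1 kN.2.1 hfgk, ofReal_norm]
        exact enorm_add_le _ _
      · rw [lintegral_prod _ ((hMeas n ψ Λ g hψ gN).enorm.pow_const _).aemeasurable]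
        refine (H2 ν hν Λ hΛ g gN).trans (le_of_eq ?_)
        congr 1
        rw [← lintegral_indicator hs]
        refine lintegral_congr fun x => ?_
        by_cases hx : x ∈ {x : E n | t < ‖f x‖}
        · rw [indicator_of_mem hx, hg, indicator_of_mem hx, ofReal_norm]
        · rw [indicator_of_notMem hx, hg, indicator_of_notMem hx]
          simp
      · filter_upwards [hRae'] with y hy
        have h1 := (H1 Λ y.1 hΛ hy k kN.2.1).1 t ht.le (by
          intro x
          by_cases hx : x ∈ {x : E n | t < ‖f x‖}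
          · rw [hk, indicator_of_notMem (by simpa using hx)]
            simpa using ht.le
          · rw [hk, indicator_of_mem (by simpa using hx)]
            simpa using hx) y.2
        rw [← ofReal_norm]
        exact ENNReal.ofReal_le_ofReal h1)
  have e1 : ∫⁻ y, ENNReal.ofReal ‖TR n (pc ψ Λ y.1) f y.2‖ ^ p ∂(ν.prod (volume : Measure (E n))) =
      ∫⁻ R, (∫⁻ x : E n, ‖TR n (pc ψ Λ R) f x‖ₑ ^ p) ∂ν := by
    simp_rw [ofReal_norm]
    rw [lintegral_prod _ (hmF.enorm.pow_const _).aemeasurable]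
  have e2 : ∫⁻ x : E n, ENNReal.ofReal ‖f x‖ ^ p = ∫⁻ x : E n, ‖f x‖ₑ ^ p := by
    simp_rw [ofReal_norm]
  rw [e1, e2] at h
  refine h.trans (le_of_eq ?_)
  congr 2
  have e3 : p * sx n a p = -a + (((n : ℝ) - 1) / 2) * (p - 2) := by
    unfold sx
    have h1 : (0 : ℝ) ≤ 1 / 2 - 1 / p := by
      have : 1 / p ≤ 1 / 2 := one_div_le_one_div_of_le (by norm_num) hp.le
      linarith
    rw [abs_of_nonneg h1]
    have hp0 : p ≠ 0 := by linarith
    field_simp
    ring
  rw [e3, Real.rpow_add hΛ0, Real.mul_rpow hC1.le (by positivity), ← Real.rpow_mul hΛ0.le]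
  ring

end Pool.Agent.H487R3.BRA.TBig
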