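import Pool.Agent.H487R3.BRA.Stmts

set_option autoImplicit false

/-! Task Conv: multiplier operators are convolutions (Fubini). -/

open MeasureTheory Set

namespace Pool.Agent.H487R3.BRA.TConv

lemma e_norm (x : ℝ) : ‖e x‖ = 1 := by
  unfold e
  exact Complex.norm_exp_ofReal_mul_I _

lemma e_add (x y : ℝ) : e (x + y) = e x * e y := by
  unfold e
  rw [← Complex.exp_add]
  congr 1
  push_cast
  ring

lemma e_cont : Continuous e := by
  unfold e
  fun_prop

theorem result : TaskConv := by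
  intro n M B f x hM hB hf
  have hgc : Continuous fun ξ : E n => ((M (‖ξ‖ ^ 2) : ℝ) : ℂ) := by fun_prop
  have hgs : HasCompactSupport fun ξ : E n => ((M (‖ξ‖ ^ 2) : ℝ) : ℂ) := by
    refine HasCompactSupport.intro (isCompact_closedBall (0 : E n) (Real.sqrt (max B 0))) ?_
    intro ξ hξ
    rw [Metric.mem_closedBall, dist_zero_right, not_le] at hξ
    have h1 : B < ‖ξ‖ ^ 2 := by
      have h2 : Real.sqrt (max B 0) ^ 2 < ‖ξ‖ ^ 2 :=
        pow_lt_pow_left₀ hξ (Real.sqrt_nonneg _) (by norm_num)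
      rw [Real.sq_sqrt (le_max_right _ _)] at h2
      exact lt_of_le_of_lt (le_max_left _ _) h2
    rw [hB _ h1]
    simp
  have hg : Integrable fun ξ : E n => ((M (‖ξ‖ ^ 2) : ℝ) : ℂ) :=
    hgc.integrable_of_hasCompactSupport hgs
  -- joint integrability
  have hI : Integrable (Function.uncurry fun (ξ y : E n) =>
      ((M (‖ξ‖ ^ 2) : ℝ) : ℂ) * f y * e (inner ℝ (x - y) ξ)) (volume.prod volume) := by
    have h1 : Integrable (fun z : E n × E n => ((M (‖z.1‖ ^ 2) : ℝ) : ℂ) * f z.2)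
        (volume.prod volume) := hg.mul_prod hf
    have hc : Continuous fun z : E n × E n => e (inner ℝ (x - z.2) z.1) := by
      refine e_cont.comp ?_
      exact (continuous_const.sub continuous_snd).inner continuous_fst
    refine h1.mono (h1.aestronglyMeasurable.mul hc.aestronglyMeasurable) ?_
    refine Filter.Eventually.of_forall (fun z => ?_)
    show ‖((M (‖z.1‖ ^ 2) : ℝ) : ℂ) * f z.2 * e (inner ℝ (x - z.2) z.1)‖ ≤ _
    rw [norm_mul, e_norm, mul_one]
  unfold TR ker fh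
  have hL : ∀ ξ : E n, ((M (‖ξ‖ ^ 2) : ℝ) : ℂ) * (∫ y : E n, e (-(inner ℝ y ξ)) * f y)
      * e (inner ℝ x ξ)
      = ∫ y : E n, ((M (‖ξ‖ ^ 2) : ℝ) : ℂ) * f y * e (inner ℝ (x - y) ξ) := by
    intro ξ
    rw [← integral_const_mul, ← integral_mul_const]
    congr 1
    funext y
    have h2 : (inner ℝ (x - y) ξ : ℝ) = -(inner ℝ y ξ) + inner ℝ x ξ := by
      rw [inner_sub_left]
      ring
    rw [h2, e_add]
    ring
  have hR : ∀ y : E n, (∫ ξ : E n, ((M (‖ξ‖ ^ 2) : ℝ) : ℂ) * e (inner ℝ (x - y) ξ)) * f y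
      = ∫ ξ : E n, ((M (‖ξ‖ ^ 2) : ℝ) : ℂ) * f y * e (inner ℝ (x - y) ξ) := by
    intro y
    rw [← integral_mul_const]
    congr 1
    funext ξ
    ring
  simp_rw [hL, hR]
  exact integral_integral_swap hI

end Pool.Agent.H487R3.BRA.TConv
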