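import Mathlib

set_option autoImplicit false

/-!
Bochner-Riesz means of almost every radius: definitions and task statements.
-/

open MeasureTheory Set

namespace Pool.Agent.H487R3.BRA

/-- euclidean space -/
abbrev E (n : ℕ) := EuclideanSpace ℝ (Fin n)

/-- the character -/
noncomputable def e (x : ℝ) : ℂ := Complex.exp (((2 * Real.pi * x : ℝ) : ℂ) * Complex.I)

/-- Fourier transform -/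
noncomputable def fh {n : ℕ} (f : E n → ℂ) (ξ : E n) : ℂ := ∫ y : E n, e (-(inner ℝ y ξ)) * f y

/-- radial multiplier operator with multiplier `M (|ξ|^2)` -/
noncomputable def TR (n : ℕ) (M : ℝ → ℝ) (f : E n → ℂ) (x : E n) : ℂ :=
  ∫ ξ : E n, ((M (‖ξ‖ ^ 2) : ℝ) : ℂ) * fh f ξ * e (inner ℝ x ξ)

/-- its kernel -/
noncomputable def ker (n : ℕ) (M : ℝ → ℝ) (x : E n) : ℂ :=
  ∫ ξ : E n, ((M (‖ξ‖ ^ 2) : ℝ) : ℂ) * e (inner ℝ x ξ)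

/-- smooth bumps supported in `[1/2, 2]` -/
def Bump (ψ : ℝ → ℝ) : Prop := ContDiff ℝ (⊤ : ℕ∞) ψ ∧ ∀ v, ψ v ≠ 0 → 1 / 2 ≤ v ∧ v ≤ 2

/-- the piece of the multiplier of radius `R` at distance `1/Λ` of the sphere -/
noncomputable def pc (ψ : ℝ → ℝ) (Λ R : ℝ) : ℝ → ℝ := fun u => ψ (Λ * (1 - u / R ^ 2))

/-- test functions: measurable, integrable and bounded -/
def Nice {n : ℕ} (f : E n → ℂ) : Prop := Measurable f ∧ Integrable f ∧ ∃ B : ℝ, ∀ x, ‖f x‖ ≤ B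

/-- measures of dimension `a` on the radii in `[r0, r1]` -/
def Rad (r0 r1 M0 a : ℝ) (ν : Measure ℝ) : Prop :=
  ν (Icc r0 r1)ᶜ = 0 ∧ ∀ s h : ℝ, 0 < h → ν (Icc s (s + h)) ≤ ENNReal.ofReal (M0 * h ^ a)

/-- the exponent of the pieces -/
noncomputable def sx (n : ℕ) (a p : ℝ) : ℝ := ((n : ℝ) - 1 + a) * |1 / 2 - 1 / p| - a / 2

/-- volume of thin shells (volumes of balls: `EuclideanSpace.volume_closedBall` or `addHaar_closedBall`) -/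
def TaskShell : Prop := ∀ n : ℕ, 1 ≤ n → ∃ C : ℝ, 0 < C ∧ ∀ Λ : ℝ, 1 ≤ Λ →
  volume {ξ : E n | 1 - 2 / Λ ≤ ‖ξ‖ ^ 2 ∧ ‖ξ‖ ^ 2 ≤ 1} ≤ ENNReal.ofReal (C / Λ)

/-- Plancherel for continuous compactly supported functions (inverse transform) -/
def TaskPlanch : Prop := ∀ (n : ℕ) (H : E n → ℂ), Continuous H → HasCompactSupport H →
  ∫⁻ x : E n, ‖∫ ξ : E n, H ξ * e (inner ℝ x ξ)‖ₑ ^ (2 : ℝ) = ∫⁻ ξ : E n, ‖H ξ‖ₑ ^ (2 : ℝ)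

/-- Plancherel for integrable bounded functions -/
def TaskPlanchF : Prop := ∀ (n : ℕ) (f : E n → ℂ), Nice f →
  ∫⁻ ξ : E n, ‖fh f ξ‖ₑ ^ (2 : ℝ) ≤ ∫⁻ x : E n, ‖f x‖ₑ ^ (2 : ℝ)

/-- integration by parts in the `i`-th variable: with
`G ξ = (∏_{j ∈ S} ξ_j) φ (Λ (1 - |ξ|^2))`, `∂_i G = -2 Λ ξ_i (∏_{j ∈ S} ξ_j) φ' (Λ (1 - |ξ|^2))`. -/
def TaskIBP : Prop := ∀ (n : ℕ) (Λ : ℝ) (φ : ℝ → ℝ) (S : Finset (Fin n)) (i : Fin n) (x : E n),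
  1 ≤ Λ → Bump φ → i ∉ S →
  ((x i : ℝ) : ℂ) * ∫ ξ : E n, (((∏ j ∈ S, ξ j) * φ (Λ * (1 - ‖ξ‖ ^ 2)) : ℝ) : ℂ) * e (inner ℝ x ξ) =
    ((Λ : ℂ) / (Real.pi * Complex.I)) *
      ∫ ξ : E n, (((∏ j ∈ insert i S, ξ j) * deriv φ (Λ * (1 - ‖ξ‖ ^ 2)) : ℝ) : ℂ) * e (inner ℝ x ξ)

/-- weighted `L²` bounds of the kernel, MAY ASSUME TaskShell, TaskPlanch, TaskIBP (iterate TaskIBP over the
elements of `S`, `φ = ψ^(k)`; then Plancherel, `|ξ_j| ≤ 1` on the support, and the volume of the shell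
`1 - 2/Λ ≤ |ξ|^2 ≤ 1 - 1/(2Λ)`) -/
def TaskKer2 : Prop := ∀ (n : ℕ) (ψ : ℝ → ℝ), 1 ≤ n → Bump ψ → ∃ C : ℝ, 0 < C ∧ ∀ Λ : ℝ, 1 ≤ Λ →
  ∀ S : Finset (Fin n),
    ∫⁻ x : E n, ENNReal.ofReal (∏ i ∈ S, (x i / Λ) ^ 2) * ‖ker n (pc ψ Λ 1) x‖ₑ ^ (2 : ℝ) ≤
      ENNReal.ofReal (C / Λ)

/-- `L¹` norm of the kernel, MAY ASSUME TaskKer2: Cauchy-Schwarz with the weight
`∏_i (1 + (x_i/Λ)^2) = ∑_S ∏_{i∈S} (x_i/Λ)^2` (`Finset.prod_one_add`), whose reciprocal has integral `(π Λ)^n`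
(product measure, `integral_univ_inv_one_add_sq`) -/
def TaskKer1 : Prop := ∀ (n : ℕ) (ψ : ℝ → ℝ), 1 ≤ n → Bump ψ → ∃ C : ℝ, 0 < C ∧ ∀ Λ : ℝ, 1 ≤ Λ →
  ∫⁻ x : E n, ‖ker n (pc ψ Λ 1) x‖ₑ ≤ ENNReal.ofReal (C * Λ ^ (((n : ℝ) - 1) / 2))

/-- the integral of the weight, for TaskKer1 -/
def TaskWeight : Prop := ∀ (n : ℕ) (Λ : ℝ), 0 < Λ →
  ∫⁻ x : E n, ENNReal.ofReal (∏ i, (1 + (x i / Λ) ^ 2)⁻¹) ≤ ENNReal.ofReal ((Real.pi * Λ) ^ n)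

/-- multiplier operators are convolutions (Fubini) -/
def TaskConv : Prop := ∀ (n : ℕ) (M : ℝ → ℝ) (B : ℝ) (f : E n → ℂ) (x : E n), Continuous M →
  (∀ u, B < u → M u = 0) → Integrable f →
  TR n M f x = ∫ y : E n, ker n M (x - y) * f y

/-- scaling of the kernel -/
def TaskScale : Prop := ∀ (n : ℕ) (ψ : ℝ → ℝ) (Λ R : ℝ), 0 < R →
  ∫⁻ x : E n, ‖ker n (pc ψ Λ R) x‖ₑ = ∫⁻ x : E n, ‖ker n (pc ψ Λ 1) x‖ₑ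

/-- the trivial endpoint bounds, MAY ASSUME TaskKer1, TaskConv, TaskScale -/
def TaskEnds : Prop := ∀ (n : ℕ) (ψ : ℝ → ℝ), 1 ≤ n → Bump ψ → ∃ C : ℝ, 0 < C ∧ ∀ Λ R : ℝ, 1 ≤ Λ → 0 < R →
  ∀ f : E n → ℂ, Integrable f →
    (∀ B : ℝ, 0 ≤ B → (∀ x, ‖f x‖ ≤ B) → ∀ x, ‖TR n (pc ψ Λ R) f x‖ ≤ C * Λ ^ (((n : ℝ) - 1) / 2) * B) ∧
    ∫⁻ x : E n, ‖TR n (pc ψ Λ R) f x‖ₑ ≤
      ENNReal.ofReal (C * Λ ^ (((n : ℝ) - 1) / 2)) * ∫⁻ x : E n, ‖f x‖ₑ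

/-- few radii are critical for a given frequency: `ψ (Λ (1 - u / R^2)) ≠ 0` implies
`1/(2Λ) ≤ 1 - u/R^2 ≤ 2/Λ`; if `Λ ≥ 4` this confines `R ∈ [r0, r1]` to an interval of length `≤ C/Λ` -/
def TaskRad : Prop := ∀ (ψ : ℝ → ℝ) (r0 r1 M0 a : ℝ), Bump ψ → 0 < r0 → r0 < r1 → 0 < M0 → 0 < a → a ≤ 1 →
  ∃ C : ℝ, 0 < C ∧ ∀ ν : Measure ℝ, Rad r0 r1 M0 a ν → ∀ Λ u : ℝ, 1 ≤ Λ → 0 ≤ u →
    ∫⁻ R, ‖pc ψ Λ R u‖ₑ ^ (2 : ℝ) ∂ν ≤ ENNReal.ofReal (C * Λ ^ (-a))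

/-- joint measurability -/
def TaskMeas : Prop := ∀ (n : ℕ) (ψ : ℝ → ℝ) (Λ : ℝ) (f : E n → ℂ), Bump ψ → Nice f →
  Measurable fun z : ℝ × E n => TR n (pc ψ Λ z.1) f z.2

/-- averaged `L²` bound, MAY ASSUME TaskPlanch, TaskPlanchF, TaskRad, TaskMeas -/
def TaskL2 : Prop := ∀ (n : ℕ) (ψ : ℝ → ℝ) (r0 r1 M0 a : ℝ), 1 ≤ n → Bump ψ → 0 < r0 → r0 < r1 → 0 < M0 →
  0 < a → a ≤ 1 → ∃ C : ℝ, 0 < C ∧ ∀ ν : Measure ℝ, Rad r0 r1 M0 a ν → ∀ Λ : ℝ, 1 ≤ Λ →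
    ∀ f : E n → ℂ, Nice f →
      ∫⁻ R, (∫⁻ x : E n, ‖TR n (pc ψ Λ R) f x‖ₑ ^ (2 : ℝ)) ∂ν ≤
        ENNReal.ofReal (C * Λ ^ (-a)) * ∫⁻ x : E n, ‖f x‖ₑ ^ (2 : ℝ)

/-- Marcinkiewicz interpolation between `L^{p0}` and `L^∞` (IN THE LIBRARY: `H438R2.RZ.M2.marcInf`) -/
def MarcInf : Prop := ∀ p0 p : ℝ, 1 ≤ p0 → p0 < p → ∃ C : ℝ, 0 < C ∧
    ∀ {X Y : Type} [MeasurableSpace X] [MeasurableSpace Y] (μ : Measure X) (ν : Measure Y)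
      [SFinite μ] (F : Y → ℝ) (f : X → ℝ), Measurable F → Measurable f → (∀ y, 0 ≤ F y) →
      (∀ x, 0 ≤ f x) → ∀ M0 M1 : ℝ, 0 < M0 → 0 < M1 →
      (∀ t : ℝ, 0 < t → ∃ u v : Y → ENNReal, Measurable u ∧ Measurable v ∧
        (∀ᵐ y ∂ν, ENNReal.ofReal (F y) ≤ u y + v y) ∧
        ∫⁻ y, u y ^ p0 ∂ν ≤ ENNReal.ofReal M0 *
          ∫⁻ x in {x | t < f x}, ENNReal.ofReal (f x) ^ p0 ∂μ ∧
        ∀ᵐ y ∂ν, v y ≤ ENNReal.ofReal (M1 * t)) →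
      ∫⁻ y, ENNReal.ofReal (F y) ^ p ∂ν ≤
        ENNReal.ofReal (C * M0 * M1 ^ (p - p0)) * ∫⁻ x, ENNReal.ofReal (f x) ^ p ∂μ

/-- Marcinkiewicz interpolation between `L¹` and `L²` (write `∫ F^p = p ∫ s^{p-1} ν{F > s} ds`, use the
hypothesis at `t = c s`, Chebyshev for `u` and `v`, Tonelli, `c = M1 / M2`; the proof of `marc24` in
`Pool/Agent/H438R2/RZ/M1.lean` of the live repository is the same between `L²` and `L⁴`) -/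
def TaskMarc12 : Prop := ∀ p : ℝ, 1 < p → p < 2 → ∃ C : ℝ, 0 < C ∧
    ∀ {X Y : Type} [MeasurableSpace X] [MeasurableSpace Y] (μ : Measure X) (ν : Measure Y)
      [SFinite μ] (F : Y → ℝ) (f : X → ℝ), Measurable F → Measurable f → (∀ y, 0 ≤ F y) →
      (∀ x, 0 ≤ f x) → ∀ M1 M2 : ℝ, 0 < M1 → 0 < M2 →
      (∀ t : ℝ, 0 < t → ∃ u v : Y → ENNReal, Measurable u ∧ Measurable v ∧
        (∀ᵐ y ∂ν, ENNReal.ofReal (F y) ≤ u y + v y) ∧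
        ∫⁻ y, u y ∂ν ≤ ENNReal.ofReal M1 * ∫⁻ x in {x | t < f x}, ENNReal.ofReal (f x) ∂μ ∧
        ∫⁻ y, v y ^ (2 : ℝ) ∂ν ≤ ENNReal.ofReal M2 *
          ∫⁻ x in {x | f x ≤ t}, ENNReal.ofReal (f x) ^ (2 : ℝ) ∂μ) →
      ∫⁻ y, ENNReal.ofReal (F y) ^ p ∂ν ≤
        ENNReal.ofReal (C * M1 ^ (2 - p) * M2 ^ (p - 1)) * ∫⁻ x, ENNReal.ofReal (f x) ^ p ∂μ

/-- the pieces for `p > 2`, MAY ASSUME TaskL2, TaskEnds, TaskMeas, MarcInf (`p0 = 2`, `Y = ℝ × E n`,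
`ν.prod volume`, `u`, `v` from `f 1_{|f| > t}`, `f 1_{|f| ≤ t}`) -/
def TaskBig : Prop := ∀ (n : ℕ) (ψ : ℝ → ℝ) (r0 r1 M0 a p : ℝ), 1 ≤ n → Bump ψ → 0 < r0 → r0 < r1 → 0 < M0 →
  0 < a → a ≤ 1 → 2 < p → ∃ C : ℝ, 0 < C ∧ ∀ ν : Measure ℝ, Rad r0 r1 M0 a ν → ∀ Λ : ℝ, 1 ≤ Λ →
    ∀ f : E n → ℂ, Nice f →
      ∫⁻ R, (∫⁻ x : E n, ‖TR n (pc ψ Λ R) f x‖ₑ ^ p) ∂ν ≤
        ENNReal.ofReal (C * Λ ^ (p * sx n a p)) * ∫⁻ x : E n, ‖f x‖ₑ ^ p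

/-- the pieces for `p < 2`, MAY ASSUME TaskL2, TaskEnds, TaskMeas, TaskMarc12 -/
def TaskSmall : Prop := ∀ (n : ℕ) (ψ : ℝ → ℝ) (r0 r1 M0 a p : ℝ), 1 ≤ n → Bump ψ → 0 < r0 → r0 < r1 →
  0 < M0 → 0 < a → a ≤ 1 → 1 < p → p < 2 → ∃ C : ℝ, 0 < C ∧ ∀ ν : Measure ℝ, Rad r0 r1 M0 a ν →
    ∀ Λ : ℝ, 1 ≤ Λ → ∀ f : E n → ℂ, Nice f →
      ∫⁻ R, (∫⁻ x : E n, ‖TR n (pc ψ Λ R) f x‖ₑ ^ p) ∂ν ≤
        ENNReal.ofReal (C * Λ ^ (p * sx n a p)) * ∫⁻ x : E n, ‖f x‖ₑ ^ p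

/-- the sum of the pieces: if `|S| ≤ ∑ 2^{-δ j} T_j` and `∫ T_j^p ≤ C 2^{j p s} A` with `s < δ` then
`∫ S^p ≤ C' A` (Minkowski, or Hölder with weights `2^{-ε j}`) -/
def TaskSum : Prop := ∀ (p δ s C : ℝ), 1 < p → s < δ → 0 < C → ∃ C' : ℝ, 0 < C' ∧
  ∀ {Y : Type} [MeasurableSpace Y] (ν : Measure Y) (F : Y → ENNReal) (T : ℕ → Y → ENNReal) (A : ENNReal),
    (∀ j, Measurable (T j)) →
    (∀ᵐ y ∂ν, F y ≤ ∑' j : ℕ, ENNReal.ofReal ((2 : ℝ) ^ (-(δ * j))) * T j y) →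
    (∀ j : ℕ, ∫⁻ y, T j y ^ p ∂ν ≤ ENNReal.ofReal (C * ((2 : ℝ) ^ j) ^ (p * s)) * A) →
    ∫⁻ y, F y ^ p ∂ν ≤ ENNReal.ofReal C' * A

end Pool.Agent.H487R3.BRA
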