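import Mathlib
import Pool.Agent.H487R3.BRA.Stmts

/-! helper116: the endpoint bounds (Young). -/

set_option autoImplicit false

open MeasureTheory Set

namespace Pool.Agent.H487R3.BRA.TEnds

open Pool.Agent.H487R3.BRA

theorem e_cont : Continuous e := by
  unfold e
  fun_prop

theorem pc_cont {ψ : ℝ → ℝ} (hψ : Bump ψ) (Λ R : ℝ) : Continuous (pc ψ Λ R) := by
  have h : Continuous ψ := hψ.1.continuous
  have h2 : Continuous fun u : ℝ => Λ * (1 - u / R ^ 2) :=
    continuous_const.mul (continuous_const.sub (continuous_id.div_const _))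
  exact h.comp h2

theorem pc_supp {ψ : ℝ → ℝ} (hψ : Bump ψ) {Λ R : ℝ} (hΛ : 1 ≤ Λ) (hR : 0 < R) (u : ℝ)
    (hu : R ^ 2 < u) : pc ψ Λ R u = 0 := by
  by_contra h
  have h1 := (hψ.2 _ h).1
  have h2 : 1 < u / R ^ 2 := by
    rw [lt_div_iff₀ (by positivity), one_mul]
    exact hu
  nlinarith

theorem ker_meas {n : ℕ} {M : ℝ → ℝ} (hM : Continuous M) : Measurable (ker n M) := by
  have h : Continuous (Function.uncurry fun (x ξ : E n) =>
      ((M (‖ξ‖ ^ 2) : ℝ) : ℂ) * e (inner ℝ x ξ)) := by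
    unfold Function.uncurry
    refine Continuous.mul ?_ ?_
    · exact Complex.continuous_ofReal.comp (hM.comp ((continuous_snd.norm).pow 2))
    · exact e_cont.comp (continuous_fst.inner continuous_snd)
  have h2 := (h.stronglyMeasurable).integral_prod_right (ν := (volume : Measure (E n)))
  exact h2.measurable

theorem result : TaskKer1 → TaskConv → TaskScale → TaskEnds := by
  intro hK hConv hSc n ψ hn hψ
  obtain ⟨C, hC, hCK⟩ := hK n ψ hn hψ
  refine ⟨C, hC, ?_⟩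
  intro Λ R hΛ hR f hf
  have hM := pc_cont hψ Λ R
  have hTR : ∀ x, TR n (pc ψ Λ R) f x = ∫ y : E n, ker n (pc ψ Λ R) (x - y) * f y :=
    fun x => hConv n (pc ψ Λ R) (R ^ 2) f x hM (fun u hu => pc_supp hψ hΛ hR u hu) hf
  have hL1 : ∫⁻ x : E n, ‖ker n (pc ψ Λ R) x‖ₑ ≤ ENNReal.ofReal (C * Λ ^ (((n : ℝ) - 1) / 2)) := by
    rw [hSc n ψ Λ R hR]
    exact hCK Λ hΛ
  have hpos : 0 ≤ C * Λ ^ (((n : ℝ) - 1) / 2) := by positivity
  have hker := ker_meas (n := n) hM
  constructor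
  · intro B hB hfB x
    have h1 : ‖TR n (pc ψ Λ R) f x‖ₑ ≤ ENNReal.ofReal (C * Λ ^ (((n : ℝ) - 1) / 2) * B) := by
      rw [hTR]
      refine (enorm_integral_le_lintegral_enorm _).trans ?_
      calc ∫⁻ y : E n, ‖ker n (pc ψ Λ R) (x - y) * f y‖ₑ
          ≤ ∫⁻ y : E n, ‖ker n (pc ψ Λ R) (x - y)‖ₑ * ENNReal.ofReal B := by
            refine lintegral_mono fun y => ?_
            rw [enorm_mul]
            gcongr
            rw [← ofReal_norm]
            exact ENNReal.ofReal_le_ofReal (hfB y)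
        _ = (∫⁻ y : E n, ‖ker n (pc ψ Λ R) (x - y)‖ₑ) * ENNReal.ofReal B :=
            lintegral_mul_const' _ _ ENNReal.ofReal_ne_top
        _ = (∫⁻ y : E n, ‖ker n (pc ψ Λ R) y‖ₑ) * ENNReal.ofReal B := by
            rw [lintegral_sub_left_eq_self (fun y => ‖ker n (pc ψ Λ R) y‖ₑ) x]
        _ ≤ ENNReal.ofReal (C * Λ ^ (((n : ℝ) - 1) / 2)) * ENNReal.ofReal B := by
            gcongr
        _ = ENNReal.ofReal (C * Λ ^ (((n : ℝ) - 1) / 2) * B) := (ENNReal.ofReal_mul hpos).symm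
    rw [← ofReal_norm] at h1
    exact (ENNReal.ofReal_le_ofReal_iff (mul_nonneg hpos hB)).1 h1
  · have hae : AEMeasurable (Function.uncurry fun x y : E n =>
        ‖ker n (pc ψ Λ R) (x - y)‖ₑ * ‖f y‖ₑ) ((volume : Measure (E n)).prod volume) := by
      have a1 : AEMeasurable (fun p : E n × E n => ‖ker n (pc ψ Λ R) (p.1 - p.2)‖ₑ)
          ((volume : Measure (E n)).prod volume) :=
        ((hker.comp (measurable_fst.sub measurable_snd)).enorm).aemeasurable
      have a2 : AEMeasurable (fun p : E n × E n => ‖f p.2‖ₑ)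
          ((volume : Measure (E n)).prod volume) := (hf.1.comp_snd).enorm
      exact a1.mul a2
    calc ∫⁻ x : E n, ‖TR n (pc ψ Λ R) f x‖ₑ
        ≤ ∫⁻ x : E n, ∫⁻ y : E n, ‖ker n (pc ψ Λ R) (x - y)‖ₑ * ‖f y‖ₑ := by
          refine lintegral_mono fun x => ?_
          show ‖TR n (pc ψ Λ R) f x‖ₑ ≤ _
          rw [hTR]
          refine (enorm_integral_le_lintegral_enorm _).trans (le_of_eq ?_)
          refine lintegral_congr fun y => ?_
          rw [enorm_mul]
      _ = ∫⁻ y : E n, ∫⁻ x : E n, ‖ker n (pc ψ Λ R) (x - y)‖ₑ * ‖f y‖ₑ :=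
          lintegral_lintegral_swap hae
      _ = ∫⁻ y : E n, (∫⁻ x : E n, ‖ker n (pc ψ Λ R) x‖ₑ) * ‖f y‖ₑ := by
          refine lintegral_congr fun y => ?_
          rw [lintegral_mul_const' _ _ enorm_ne_top,
            lintegral_sub_right_eq_self (fun x => ‖ker n (pc ψ Λ R) x‖ₑ) y]
      _ ≤ ∫⁻ y : E n, ENNReal.ofReal (C * Λ ^ (((n : ℝ) - 1) / 2)) * ‖f y‖ₑ := by
          refine lintegral_mono fun y => ?_
          gcongr
      _ = ENNReal.ofReal (C * Λ ^ (((n : ℝ) - 1) / 2)) * ∫⁻ y : E n, ‖f y‖ₑ :=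
          lintegral_const_mul' _ _ ENNReal.ofReal_ne_top

end Pool.Agent.H487R3.BRA.TEnds
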