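import Mathlib
import Pool.Agent.H487R3.BRA.Stmts

set_option autoImplicit false

open MeasureTheory Set

namespace Pool.Agent.H487R3.BRA.TIBP

open Pool.Agent.H487R3.BRA

theorem cont_e : Continuous e := by
  unfold e
  fun_prop

/-- integrability of the products -/
theorem integ {n : ℕ} (Λ : ℝ) (hΛ : 1 ≤ Λ) (χ : ℝ → ℝ) (hc : Continuous χ)
    (hs : ∀ v, χ v ≠ 0 → 1 / 2 ≤ v ∧ v ≤ 2) (h : E n → ℂ) (hh : Continuous h) :
    Integrable (fun ξ : E n => ((χ (Λ * (1 - ‖ξ‖ ^ 2)) : ℝ) : ℂ) * h ξ) := by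
  apply Continuous.integrable_of_hasCompactSupport
  · fun_prop
  · refine HasCompactSupport.of_support_subset_isCompact (isCompact_closedBall (0 : E n) 1) ?_
    intro ξ hξ
    rw [Function.mem_support] at hξ
    have h1 : χ (Λ * (1 - ‖ξ‖ ^ 2)) ≠ 0 := by
      intro h0
      apply hξ
      rw [h0]
      simp
    have h2 := (hs _ h1).1
    rw [mem_closedBall_zero_iff]
    have h3 : 0 < 1 - ‖ξ‖ ^ 2 := by
      by_contra hcon
      push Not at hcon
      nlinarith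
    have h4 : 0 ≤ ‖ξ‖ := norm_nonneg ξ
    nlinarith

theorem result : TaskIBP := by
  intro n Λ φ S i x hΛ hφ hi
  obtain ⟨hsm, hsup⟩ := hφ
  have hφc : Continuous φ := hsm.continuous
  have hφd : Continuous (deriv φ) := hsm.continuous_deriv (by simp)
  have hφdiff : Differentiable ℝ φ := hsm.differentiable (by simp)
  have hsup' : ∀ v, deriv φ v ≠ 0 → 1 / 2 ≤ v ∧ v ≤ 2 := by
    intro v hv
    have h1 : v ∈ tsupport φ := by
      have := support_deriv_subset (f := φ)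
      exact this hv
    have h2 : tsupport φ ⊆ Icc (1 / 2 : ℝ) 2 := by
      refine closure_minimal ?_ isClosed_Icc
      intro w hw
      exact hsup w hw
    exact h2 h1
  set v : E n := EuclideanSpace.single i (1 : ℝ) with hv
  set P : E n → ℝ := fun ξ => ∏ j ∈ S, ξ j with hP
  have hPc : Continuous P := by
    simp only [hP]
    fun_prop
  have hPv : ∀ (ξ : E n) (t : ℝ), P (ξ + t • v) = P ξ := by
    intro ξ t
    simp only [hP]
    refine Finset.prod_congr rfl fun j hj => ?_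
    have hji : j ≠ i := fun h => hi (h ▸ hj)
    simp [hv, hji]
  have hinner : ∀ (ξ : E n) (t : ℝ), inner ℝ x (ξ + t • v) = inner ℝ x ξ + t * x i := by
    intro ξ t
    rw [inner_add_right, inner_smul_right, hv, EuclideanSpace.inner_single_right]
    simp
  have hnorm : ∀ (ξ : E n) (t : ℝ), ‖ξ + t • v‖ ^ 2 = ‖ξ‖ ^ 2 + 2 * t * ξ i + t ^ 2 := by
    intro ξ t
    rw [norm_add_sq_real, inner_smul_right, hv, EuclideanSpace.inner_single_right, norm_smul]
    simp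
    ring
  -- derivative of the character
  have hg : ∀ ξ : E n, HasLineDerivAt ℝ (fun ξ : E n => e (inner ℝ x ξ))
      ((2 * Real.pi * Complex.I * (x i : ℂ)) * e (inner ℝ x ξ)) ξ v := by
    intro ξ
    unfold HasLineDerivAt
    have h1 : (fun t : ℝ => e (inner ℝ x (ξ + t • v))) =
        fun t : ℝ => e (inner ℝ x ξ + t * x i) := by
      funext t; rw [hinner]
    rw [h1]
    have h2 : HasDerivAt (fun t : ℝ => (((2 * Real.pi * (inner ℝ x ξ + t * x i) : ℝ) : ℂ) * Complex.I))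
        (((2 * Real.pi * x i : ℝ) : ℂ) * Complex.I) 0 := by
      have h3 : HasDerivAt (fun t : ℝ => (2 * Real.pi * (inner ℝ x ξ + t * x i) : ℝ))
          (2 * Real.pi * x i) 0 := by
        have h4 : HasDerivAt (fun t : ℝ => inner ℝ x ξ + t * x i) (x i) 0 := by
          simpa using ((hasDerivAt_id (0 : ℝ)).mul_const (x i)).const_add (inner ℝ x ξ)
        exact h4.const_mul _
      exact (h3.ofReal_comp).mul_const _
    have h5 := h2.cexp
    unfold e
    have h6 : Complex.exp (((2 * Real.pi * (inner ℝ x ξ + 0 * x i) : ℝ) : ℂ) * Complex.I) *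
        (((2 * Real.pi * x i : ℝ) : ℂ) * Complex.I) =
        2 * Real.pi * Complex.I * (x i : ℂ) *
          Complex.exp (((2 * Real.pi * inner ℝ x ξ : ℝ) : ℂ) * Complex.I) := by
      rw [zero_mul, add_zero]
      push_cast
      ring
    rw [h6] at h5
    exact h5
  -- derivative of the amplitude
  have hf : ∀ ξ : E n, HasLineDerivAt ℝ
      (fun ξ : E n => (((P ξ) * φ (Λ * (1 - ‖ξ‖ ^ 2)) : ℝ) : ℂ))
      ((-(2 * Λ) * ((ξ i * P ξ) * deriv φ (Λ * (1 - ‖ξ‖ ^ 2))) : ℝ) : ℂ) ξ v := by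
    intro ξ
    unfold HasLineDerivAt
    have h1 : (fun t : ℝ => (((P (ξ + t • v)) * φ (Λ * (1 - ‖ξ + t • v‖ ^ 2)) : ℝ) : ℂ)) =
        fun t : ℝ => ((P ξ * φ (Λ * (1 - (‖ξ‖ ^ 2 + 2 * t * ξ i + t ^ 2))) : ℝ) : ℂ) := by
      funext t; rw [hPv, hnorm]
    rw [h1]
    have h2 : HasDerivAt (fun t : ℝ => Λ * (1 - (‖ξ‖ ^ 2 + 2 * t * ξ i + t ^ 2)))
        (-(2 * Λ) * ξ i) 0 := by
      have h3 : HasDerivAt (fun t : ℝ => ‖ξ‖ ^ 2 + 2 * t * ξ i + t ^ 2) (2 * ξ i) 0 := by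
        have ha : HasDerivAt (fun t : ℝ => 2 * t * ξ i) (2 * ξ i) 0 := by
          simpa using ((hasDerivAt_id (0 : ℝ)).const_mul 2).mul_const (ξ i)
        have hb : HasDerivAt (fun t : ℝ => t ^ 2) 0 0 := by
          simpa using (hasDerivAt_pow 2 (0 : ℝ))
        have hc := (ha.const_add (‖ξ‖ ^ 2)).add hb
        rw [add_zero] at hc
        exact hc
      have h4 := (h3.const_sub 1).const_mul Λ
      have h4' : Λ * -(2 * ξ i) = -(2 * Λ) * ξ i := by ring
      rw [← h4']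
      exact h4
    have h5 : HasDerivAt φ (deriv φ (Λ * (1 - ‖ξ‖ ^ 2)))
        (Λ * (1 - (‖ξ‖ ^ 2 + 2 * (0 : ℝ) * ξ i + (0 : ℝ) ^ 2))) := by
      have h6 : Λ * (1 - (‖ξ‖ ^ 2 + 2 * (0 : ℝ) * ξ i + (0 : ℝ) ^ 2)) = Λ * (1 - ‖ξ‖ ^ 2) := by ring
      rw [h6]
      exact (hφdiff _).hasDerivAt
    have h7 := (h5.comp (0 : ℝ) h2).const_mul (P ξ)
    have h8 := h7.ofReal_comp
    have h9 : P ξ * (deriv φ (Λ * (1 - ‖ξ‖ ^ 2)) * (-(2 * Λ) * ξ i)) =
      -(2 * Λ) * ((ξ i * P ξ) * deriv φ (Λ * (1 - ‖ξ‖ ^ 2))) := by ring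
    rw [h9] at h8
    exact h8
  have hprod : ∀ ξ : E n, (∏ j ∈ insert i S, ξ j) = ξ i * P ξ := by
    intro ξ
    rw [Finset.prod_insert hi]
  have hec : Continuous fun ξ : E n => e (inner ℝ x ξ) := by
    apply cont_e.comp
    fun_prop
  have key := integral_bilinear_hasLineDerivAt_right_eq_neg_left_of_integrable
    (μ := (volume : Measure (E n)))
    (f := fun ξ : E n => (((P ξ) * φ (Λ * (1 - ‖ξ‖ ^ 2)) : ℝ) : ℂ))
    (f' := fun ξ : E n => ((-(2 * Λ) * ((ξ i * P ξ) * deriv φ (Λ * (1 - ‖ξ‖ ^ 2))) : ℝ) : ℂ))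
    (g := fun ξ : E n => e (inner ℝ x ξ))
    (g' := fun ξ : E n => (2 * Real.pi * Complex.I * (x i : ℂ)) * e (inner ℝ x ξ))
    (v := v) (B := ContinuousLinearMap.mul ℝ ℂ) ?_ ?_ ?_ (fun ξ _ => hf ξ) (fun ξ _ => hg ξ)
  · simp only [ContinuousLinearMap.mul_apply'] at key
    have e1 : ∫ ξ : E n, (((P ξ) * φ (Λ * (1 - ‖ξ‖ ^ 2)) : ℝ) : ℂ) *
        ((2 * Real.pi * Complex.I * (x i : ℂ)) * e (inner ℝ x ξ)) =
        (2 * Real.pi * Complex.I * (x i : ℂ)) *
          ∫ ξ : E n, (((P ξ) * φ (Λ * (1 - ‖ξ‖ ^ 2)) : ℝ) : ℂ) * e (inner ℝ x ξ) := by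
      rw [← integral_const_mul]
      refine integral_congr_ae (Filter.Eventually.of_forall fun ξ => ?_)
      simp only
      ring
    have e2 : ∫ ξ : E n, ((-(2 * Λ) * ((ξ i * P ξ) * deriv φ (Λ * (1 - ‖ξ‖ ^ 2))) : ℝ) : ℂ) *
        e (inner ℝ x ξ) = (-(2 * (Λ : ℂ))) *
          ∫ ξ : E n, (((∏ j ∈ insert i S, ξ j) * deriv φ (Λ * (1 - ‖ξ‖ ^ 2)) : ℝ) : ℂ) *
            e (inner ℝ x ξ) := by
      rw [← integral_const_mul]
      refine integral_congr_ae (Filter.Eventually.of_forall fun ξ => ?_)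
      simp only [hprod]
      push_cast
      ring
    rw [e1, e2] at key
    show ((x i : ℝ) : ℂ) * ∫ ξ : E n, (((P ξ) * φ (Λ * (1 - ‖ξ‖ ^ 2)) : ℝ) : ℂ) *
      e (inner ℝ x ξ) = _
    have hpi : (Real.pi : ℂ) * Complex.I ≠ 0 :=
      mul_ne_zero (by exact_mod_cast Real.pi_ne_zero) Complex.I_ne_zero
    rw [div_mul_eq_mul_div, eq_div_iff hpi]
    linear_combination (1 / 2 : ℂ) * key
  · simp only [ContinuousLinearMap.mul_apply']
    have := integ Λ hΛ (deriv φ) hφd hsup'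
      (fun ξ : E n => ((-(2 * Λ) * (ξ i * P ξ) : ℝ) : ℂ) * e (inner ℝ x ξ)) (by fun_prop)
    refine this.congr (Filter.Eventually.of_forall fun ξ => ?_)
    simp only
    push_cast
    ring
  · simp only [ContinuousLinearMap.mul_apply']
    have := integ Λ hΛ φ hφc hsup
      (fun ξ : E n => ((P ξ : ℝ) : ℂ) * ((2 * Real.pi * Complex.I * (x i : ℂ)) * e (inner ℝ x ξ)))
      (by fun_prop)
    refine this.congr (Filter.Eventually.of_forall fun ξ => ?_)
    simp only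
    push_cast
    ring
  · simp only [ContinuousLinearMap.mul_apply']
    have := integ Λ hΛ φ hφc hsup
      (fun ξ : E n => ((P ξ : ℝ) : ℂ) * e (inner ℝ x ξ)) (by fun_prop)
    refine this.congr (Filter.Eventually.of_forall fun ξ => ?_)
    simp only
    push_cast
    ring

end Pool.Agent.H487R3.BRA.TIBP
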