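import Pool.Agent.H487R3.BRA.Stmts

set_option autoImplicit false

open MeasureTheory Set

namespace Pool.Agent.H487R3.BRA.TKer1

open Pool.Agent.H487R3.BRA

lemma ker_measurable (n : ℕ) (M : ℝ → ℝ) (hM : Continuous M) :
    Measurable fun x : E n => ker n M x := by
  have h : StronglyMeasurable (Function.uncurry fun (x : E n) (ξ : E n) =>
      ((M (‖ξ‖ ^ 2) : ℝ) : ℂ) * e (inner ℝ x ξ)) := by
    apply Continuous.stronglyMeasurable
    unfold e Function.uncurry
    fun_prop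
  exact (StronglyMeasurable.integral_prod_right h).measurable

lemma pc_continuous (ψ : ℝ → ℝ) (hψ : Bump ψ) (Λ R : ℝ) : Continuous (pc ψ Λ R) := by
  unfold pc
  exact hψ.1.continuous.comp (by fun_prop)

/-- the weight -/
noncomputable def w {n : ℕ} (Λ : ℝ) (x : E n) : ℝ := ∏ i, (1 + (x i / Λ) ^ 2)

lemma w_pos {n : ℕ} (Λ : ℝ) (x : E n) : 0 < w Λ x :=
  Finset.prod_pos fun i _ => by positivity

lemma w_cont {n : ℕ} (Λ : ℝ) : Continuous (w (n := n) Λ) := by
  unfold w
  fun_prop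

lemma w_sum {n : ℕ} (Λ : ℝ) (x : E n) :
    ENNReal.ofReal (w Λ x) = ∑ S : Finset (Fin n), ENNReal.ofReal (∏ i ∈ S, (x i / Λ) ^ 2) := by
  unfold w
  rw [Finset.prod_one_add, ENNReal.ofReal_sum_of_nonneg]
  · rw [Finset.powerset_univ]
  · intro S _
    exact Finset.prod_nonneg fun i _ => sq_nonneg _

theorem result : TaskWeight → TaskKer2 → TaskKer1 := by
  intro hW hK n ψ hn hψ
  obtain ⟨C0, hC0, hK0⟩ := hK n ψ hn hψ
  refine ⟨((2 * Real.pi) ^ n * C0) ^ ((1 : ℝ) / 2), by positivity, ?_⟩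
  intro Λ hΛ
  have hΛ0 : 0 < Λ := by linarith
  set k : E n → ENNReal := fun x => ‖ker n (pc ψ Λ 1) x‖ₑ with hk
  have hkm : Measurable k := (ker_measurable n _ (pc_continuous ψ hψ Λ 1)).enorm
  set f : E n → ENNReal := fun x => ENNReal.ofReal ((w Λ x)⁻¹) ^ ((1 : ℝ) / 2) with hf
  set g : E n → ENNReal := fun x => ENNReal.ofReal (w Λ x) ^ ((1 : ℝ) / 2) * k x with hg
  have hwm : Measurable (w (n := n) Λ) := (w_cont Λ).measurable
  have hfm : Measurable f := (hwm.inv.ennreal_ofReal).pow_const _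
  have hgm : Measurable g := ((hwm.ennreal_ofReal).pow_const _).mul hkm
  have hfg : ∀ x, (f * g) x = k x := by
    intro x
    simp only [Pi.mul_apply, hf, hg]
    rw [← mul_assoc, ← ENNReal.mul_rpow_of_nonneg _ _ (by norm_num),
      ← ENNReal.ofReal_mul (inv_nonneg.mpr (w_pos Λ x).le), inv_mul_cancel₀ (w_pos Λ x).ne',
      ENNReal.ofReal_one, ENNReal.one_rpow, one_mul]
  have hf2 : ∀ x, f x ^ (2 : ℝ) = ENNReal.ofReal ((w Λ x)⁻¹) := by
    intro x
    simp only [hf]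
    rw [← ENNReal.rpow_mul]
    norm_num
  have hg2 : ∀ x, g x ^ (2 : ℝ) = ENNReal.ofReal (w Λ x) * k x ^ (2 : ℝ) := by
    intro x
    simp only [hg]
    rw [ENNReal.mul_rpow_of_nonneg _ _ (by norm_num), ← ENNReal.rpow_mul]
    norm_num
  have hH := ENNReal.lintegral_mul_le_Lp_mul_Lq (volume : Measure (E n))
    (p := 2) (q := 2) Real.HolderConjugate.two_two hfm.aemeasurable hgm.aemeasurable
  simp only [hfg, hf2, hg2] at hH
  have h1 : ∫⁻ x : E n, ENNReal.ofReal ((w Λ x)⁻¹) ≤ ENNReal.ofReal ((Real.pi * Λ) ^ n) := by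
    have := hW n Λ hΛ0
    simpa only [w, Finset.prod_inv_distrib] using this
  have h2 : ∫⁻ x : E n, ENNReal.ofReal (w Λ x) * k x ^ (2 : ℝ) ≤
      ENNReal.ofReal (2 ^ n * (C0 / Λ)) := by
    simp only [w_sum, Finset.sum_mul]
    rw [lintegral_finset_sum]
    · calc ∑ S : Finset (Fin n), ∫⁻ x : E n,
            ENNReal.ofReal (∏ i ∈ S, (x i / Λ) ^ 2) * k x ^ (2 : ℝ)
          ≤ ∑ _S : Finset (Fin n), ENNReal.ofReal (C0 / Λ) :=
            Finset.sum_le_sum fun S _ => hK0 Λ hΛ S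
        _ = ENNReal.ofReal (2 ^ n * (C0 / Λ)) := by
            rw [Finset.sum_const, Finset.card_univ, Fintype.card_finset, Fintype.card_fin,
              nsmul_eq_mul, ENNReal.ofReal_mul (by positivity)]
            congr 1
            rw [ENNReal.ofReal_pow (by norm_num)]
            push_cast
            congr 1
            norm_num
    · intro S _
      refine Measurable.mul ?_ (hkm.pow_const _)
      refine Measurable.ennreal_ofReal ?_
      have : Continuous fun x : E n => ∏ i ∈ S, (x i / Λ) ^ 2 := by fun_prop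
      exact this.measurable
  calc ∫⁻ x : E n, k x
      ≤ (∫⁻ x : E n, ENNReal.ofReal ((w Λ x)⁻¹)) ^ ((1 : ℝ) / 2) *
        (∫⁻ x : E n, ENNReal.ofReal (w Λ x) * k x ^ (2 : ℝ)) ^ ((1 : ℝ) / 2) := hH
    _ ≤ ENNReal.ofReal ((Real.pi * Λ) ^ n) ^ ((1 : ℝ) / 2) *
        ENNReal.ofReal (2 ^ n * (C0 / Λ)) ^ ((1 : ℝ) / 2) :=
        mul_le_mul' (ENNReal.rpow_le_rpow h1 (by norm_num))
          (ENNReal.rpow_le_rpow h2 (by norm_num))
    _ = ENNReal.ofReal (((2 * Real.pi) ^ n * C0) ^ ((1 : ℝ) / 2) * Λ ^ (((n : ℝ) - 1) / 2)) := by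
        rw [← ENNReal.mul_rpow_of_nonneg _ _ (by norm_num), ← ENNReal.ofReal_mul (by positivity),
          ENNReal.ofReal_rpow_of_nonneg (by positivity) (by norm_num)]
        congr 1
        have hL : Λ ^ (((n : ℝ) - 1) / 2) = (Λ ^ n / Λ) ^ ((1 : ℝ) / 2) := by
          rw [← Real.rpow_natCast Λ n, ← Real.rpow_sub_one hΛ0.ne', ← Real.rpow_mul hΛ0.le]
          congr 1
          ring
        rw [hL, ← Real.mul_rpow (by positivity) (by positivity)]
        congr 1
        rw [mul_pow, mul_pow]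
        field_simp

end Pool.Agent.H487R3.BRA.TKer1
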