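import Pool.Agent.H487R3.BRA.Stmts

/-! Project H487-BR, task Ker2 (helper41): weighted `L²` bounds of the kernel. -/

set_option autoImplicit false

open MeasureTheory Set

namespace Pool.Agent.H487R3.BRA.TKer2

open Pool.Agent.H487R3.BRA

lemma bump_deriv {φ : ℝ → ℝ} (h : Bump φ) : Bump (deriv φ) := by
  refine ⟨(contDiff_infty_iff_deriv.mp h.1).2, fun v hv => ?_⟩
  have h1 : v ∈ tsupport φ := support_deriv_subset hv
  have h2 : tsupport φ ⊆ Icc (1 / 2) 2 := closure_minimal (fun v hv => h.2 v hv) isClosed_Icc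
  exact h2 h1

lemma bump_iter {φ : ℝ → ℝ} (h : Bump φ) (k : ℕ) : Bump (deriv^[k] φ) := by
  induction k with
  | zero => exact h
  | succ k ih =>
    rw [Function.iterate_succ_apply']
    exact bump_deriv ih

lemma bump_bdd {φ : ℝ → ℝ} (h : Bump φ) : ∃ B : ℝ, 0 ≤ B ∧ ∀ v, |φ v| ≤ B := by
  have hc : HasCompactSupport φ :=
    HasCompactSupport.of_support_subset_isCompact isCompact_Icc (fun v hv => h.2 v hv)
  obtain ⟨B, hB⟩ := h.1.continuous.bounded_above_of_compact_support hc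
  exact ⟨B, (norm_nonneg _).trans (hB 0), hB⟩

/-- the functions obtained by integration by parts -/
noncomputable def HH {n : ℕ} (φ : ℝ → ℝ) (Λ : ℝ) (S : Finset (Fin n)) (ξ : E n) : ℂ :=
  (((∏ j ∈ S, ξ j) * φ (Λ * (1 - ‖ξ‖ ^ 2)) : ℝ) : ℂ)

lemma HH_ne {n : ℕ} {φ : ℝ → ℝ} (h : Bump φ) {Λ : ℝ} (hΛ : 1 ≤ Λ) {S : Finset (Fin n)} {ξ : E n}
    (hne : HH φ Λ S ξ ≠ 0) : 1 - 2 / Λ ≤ ‖ξ‖ ^ 2 ∧ ‖ξ‖ ^ 2 ≤ 1 := by
  have h1 : φ (Λ * (1 - ‖ξ‖ ^ 2)) ≠ 0 := by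
    intro h0
    apply hne
    simp [HH, h0]
  obtain ⟨h2, h3⟩ := h.2 _ h1
  have hΛ0 : 0 < Λ := by linarith
  constructor
  · have h4 : 1 - ‖ξ‖ ^ 2 ≤ 2 / Λ := by
      rw [le_div_iff₀ hΛ0]
      linarith
    linarith
  · by_contra h5
    push Not at h5
    nlinarith

lemma HH_cont {n : ℕ} {φ : ℝ → ℝ} (h : Bump φ) (Λ : ℝ) (S : Finset (Fin n)) :
    Continuous (HH φ Λ S : E n → ℂ) := by
  unfold HH
  refine Complex.continuous_ofReal.comp (Continuous.mul ?_ ?_)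
  · exact continuous_finset_prod _ fun j _ => by fun_prop
  · exact h.1.continuous.comp (by fun_prop)

lemma HH_supp {n : ℕ} {φ : ℝ → ℝ} (h : Bump φ) {Λ : ℝ} (hΛ : 1 ≤ Λ) (S : Finset (Fin n)) :
    HasCompactSupport (HH φ Λ S : E n → ℂ) := by
  refine HasCompactSupport.of_support_subset_isCompact (isCompact_closedBall (0 : E n) 1) ?_
  intro ξ hξ
  have h1 := (HH_ne h hΛ hξ).2
  rw [mem_closedBall_zero_iff]
  nlinarith [norm_nonneg ξ]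

lemma HH_le {n : ℕ} {φ : ℝ → ℝ} {B : ℝ} (hB : ∀ v, |φ v| ≤ B) {Λ : ℝ}
    (S : Finset (Fin n)) {ξ : E n} (h1 : ‖ξ‖ ^ 2 ≤ 1) : ‖HH φ Λ S ξ‖ ≤ B := by
  have hn : ‖ξ‖ ≤ 1 := by nlinarith [norm_nonneg ξ]
  unfold HH
  rw [Complex.norm_real, Real.norm_eq_abs, abs_mul, Finset.abs_prod]
  have h2 : ∏ j ∈ S, |ξ j| ≤ 1 := by
    refine Finset.prod_le_one (fun j _ => abs_nonneg _) fun j _ => ?_
    exact (PiLp.norm_apply_le ξ j).trans hn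
  have h3 : 0 ≤ ∏ j ∈ S, |ξ j| := Finset.prod_nonneg fun j _ => abs_nonneg _
  have h4 := hB (Λ * (1 - ‖ξ‖ ^ 2))
  calc (∏ j ∈ S, |ξ j|) * |φ (Λ * (1 - ‖ξ‖ ^ 2))| ≤ 1 * B :=
        mul_le_mul h2 h4 (abs_nonneg _) zero_le_one
    _ = B := one_mul B

lemma enorm_sq (z : ℂ) : ‖z‖ₑ ^ (2 : ℝ) = ENNReal.ofReal (‖z‖ ^ 2) := by
  rw [← ofReal_norm_eq_enorm, ENNReal.ofReal_rpow_of_nonneg (norm_nonneg _) (by norm_num)]
  norm_num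

lemma iter (hI : TaskIBP) {n : ℕ} {ψ : ℝ → ℝ} (hψ : Bump ψ) {Λ : ℝ} (hΛ : 1 ≤ Λ) (x : E n)
    (S : Finset (Fin n)) :
    ((∏ i ∈ S, x i : ℝ) : ℂ) * ker n (pc ψ Λ 1) x =
      ((Λ : ℂ) / (Real.pi * Complex.I)) ^ S.card *
        ∫ ξ : E n, HH (deriv^[S.card] ψ) Λ S ξ * e (inner ℝ x ξ) := by
  induction S using Finset.induction_on with
  | empty => simp [ker, pc, HH]
  | insert i S hi ih =>
    rw [Finset.prod_insert hi, Finset.card_insert_of_notMem hi, Complex.ofReal_mul, mul_assoc, ih]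
    have h := hI n Λ (deriv^[S.card] ψ) S i x hΛ (bump_iter hψ _) hi
    have h1 : ∫ ξ : E n, HH (deriv^[S.card] ψ) Λ S ξ * e (inner ℝ x ξ) =
        ∫ ξ : E n, (((∏ j ∈ S, ξ j) * (deriv^[S.card] ψ) (Λ * (1 - ‖ξ‖ ^ 2)) : ℝ) : ℂ) *
          e (inner ℝ x ξ) := rfl
    have h2 : ∫ ξ : E n, HH (deriv^[S.card + 1] ψ) Λ (insert i S) ξ * e (inner ℝ x ξ) =
        ∫ ξ : E n, (((∏ j ∈ insert i S, ξ j) * deriv (deriv^[S.card] ψ) (Λ * (1 - ‖ξ‖ ^ 2)) : ℝ) : ℂ) *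
          e (inner ℝ x ξ) := by
      rw [Function.iterate_succ_apply']
      rfl
    rw [h1, h2, pow_succ, mul_assoc, ← h]
    ring

theorem result : TaskShell → TaskPlanch → TaskIBP → TaskKer2 := by
  intro hSh hPl hI n ψ hn hψ
  obtain ⟨C0, hC0, hshell⟩ := hSh n hn
  have hex : ∀ k : ℕ, ∃ B : ℝ, 0 ≤ B ∧ ∀ v, |(deriv^[k] ψ) v| ≤ B := fun k => bump_bdd (bump_iter hψ k)
  choose Bk hBk0 hBk using hex
  set B : ℝ := ∑ k ∈ Finset.range (n + 1), Bk k with hB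
  have hBnn : 0 ≤ B := Finset.sum_nonneg fun k _ => hBk0 k
  refine ⟨B ^ 2 * C0 + 1, by positivity, fun Λ hΛ S => ?_⟩
  have hΛ0 : 0 < Λ := by linarith
  set k := S.card with hk
  have hkn : k ≤ n := by
    have := Finset.card_le_univ S
    rwa [Fintype.card_fin] at this
  have hBb : ∀ v, |(deriv^[k] ψ) v| ≤ B := fun v => (hBk k v).trans
    (Finset.single_le_sum (f := Bk) (fun j _ => hBk0 j) (Finset.mem_range.mpr (by omega)))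
  have hbk := bump_iter hψ k
  set J : E n → ℂ := fun x => ∫ ξ : E n, HH (deriv^[k] ψ) Λ S ξ * e (inner ℝ x ξ) with hJ
  have hpt : ∀ x : E n, ENNReal.ofReal (∏ i ∈ S, (x i / Λ) ^ 2) * ‖ker n (pc ψ Λ 1) x‖ₑ ^ (2 : ℝ) ≤
      ‖J x‖ₑ ^ (2 : ℝ) := by
    intro x
    rw [enorm_sq, enorm_sq, ← ENNReal.ofReal_mul (Finset.prod_nonneg fun i _ => sq_nonneg _)]
    apply ENNReal.ofReal_le_ofReal
    have hid := congrArg norm (iter hI hψ hΛ x S)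
    rw [norm_mul, norm_mul, norm_pow, norm_div, norm_mul, Complex.norm_I, mul_one,
      Complex.norm_real, Complex.norm_real, Complex.norm_real, Real.norm_of_nonneg hΛ0.le,
      Real.norm_of_nonneg Real.pi_pos.le] at hid
    have hprod : ∏ i ∈ S, (x i / Λ) ^ 2 = (∏ i ∈ S, x i) ^ 2 / (Λ ^ k) ^ 2 := by
      rw [Finset.prod_pow, Finset.prod_div_distrib, Finset.prod_const, div_pow]
    have hsq : (∏ i ∈ S, x i) ^ 2 * ‖ker n (pc ψ Λ 1) x‖ ^ 2 = ((Λ / Real.pi) ^ k) ^ 2 * ‖J x‖ ^ 2 := by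
      have h1 := congrArg (fun t => t ^ 2) hid
      simp only [mul_pow, Real.norm_eq_abs, sq_abs] at h1
      exact h1
    rw [hprod, div_mul_eq_mul_div, hsq, div_le_iff₀ (by positivity), div_pow]
    have hpi : 1 ≤ (Real.pi ^ k) ^ 2 := by
      have h3 : (1 : ℝ) ≤ Real.pi := by linarith [Real.pi_gt_three]
      exact one_le_pow₀ (one_le_pow₀ h3)
    have hpp : (0 : ℝ) < (Real.pi ^ k) ^ 2 := by positivity
    rw [div_pow, div_mul_eq_mul_div, div_le_iff₀ hpp]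
    have h4 : 0 ≤ ‖J x‖ ^ 2 * (Λ ^ k) ^ 2 := by positivity
    nlinarith
  have hplan := hPl n (HH (deriv^[k] ψ) Λ S) (HH_cont hbk Λ S) (HH_supp hbk hΛ S)
  have hHle : ∀ ξ : E n, ‖HH (deriv^[k] ψ) Λ S ξ‖ₑ ^ (2 : ℝ) ≤
      {ξ : E n | 1 - 2 / Λ ≤ ‖ξ‖ ^ 2 ∧ ‖ξ‖ ^ 2 ≤ 1}.indicator (fun _ => ENNReal.ofReal (B ^ 2)) ξ := by
    intro ξ
    by_cases h0 : HH (deriv^[k] ψ) Λ S ξ = 0
    · rw [h0]
      simp
    · have h1 := HH_ne hbk hΛ h0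
      rw [Set.indicator_of_mem (show ξ ∈ {ξ : E n | 1 - 2 / Λ ≤ ‖ξ‖ ^ 2 ∧ ‖ξ‖ ^ 2 ≤ 1} from h1),
        enorm_sq]
      apply ENNReal.ofReal_le_ofReal
      exact pow_le_pow_left₀ (norm_nonneg _) (HH_le hBb S h1.2) 2
  calc ∫⁻ x : E n, ENNReal.ofReal (∏ i ∈ S, (x i / Λ) ^ 2) * ‖ker n (pc ψ Λ 1) x‖ₑ ^ (2 : ℝ)
      ≤ ∫⁻ x : E n, ‖J x‖ₑ ^ (2 : ℝ) := lintegral_mono hpt
    _ = ∫⁻ ξ : E n, ‖HH (deriv^[k] ψ) Λ S ξ‖ₑ ^ (2 : ℝ) := hplan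
    _ ≤ ∫⁻ ξ : E n, {ξ : E n | 1 - 2 / Λ ≤ ‖ξ‖ ^ 2 ∧ ‖ξ‖ ^ 2 ≤ 1}.indicator
          (fun _ => ENNReal.ofReal (B ^ 2)) ξ := lintegral_mono hHle
    _ ≤ ENNReal.ofReal (B ^ 2) * volume {ξ : E n | 1 - 2 / Λ ≤ ‖ξ‖ ^ 2 ∧ ‖ξ‖ ^ 2 ≤ 1} :=
        lintegral_indicator_const_le _ _
    _ ≤ ENNReal.ofReal (B ^ 2) * ENNReal.ofReal (C0 / Λ) := by
        gcongr
        exact hshell Λ hΛ
    _ = ENNReal.ofReal (B ^ 2 * (C0 / Λ)) := (ENNReal.ofReal_mul (by positivity)).symm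
    _ ≤ ENNReal.ofReal ((B ^ 2 * C0 + 1) / Λ) := by
        apply ENNReal.ofReal_le_ofReal
        rw [← mul_div_assoc]
        gcongr
        linarith

end Pool.Agent.H487R3.BRA.TKer2
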