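import Pool.Agent.H487R3.BRA.Stmts

set_option autoImplicit false

/-!
# Task L2 (helper715): the averaged `L²` bound
-/

open MeasureTheory Set

namespace Pool.Agent.H487R3.BRA.TL2

open Pool.Agent.H487R3.BRA

lemma norm_e (x : ℝ) : ‖e x‖ = 1 := by
  unfold e
  exact Complex.norm_exp_ofReal_mul_I _

lemma continuous_e : Continuous e := by
  unfold e
  fun_prop

lemma continuous_fh {n : ℕ} {f : E n → ℂ} (hf : Integrable f) : Continuous (fh f) := by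
  unfold fh
  refine continuous_of_dominated (bound := fun y => ‖f y‖) ?_ ?_ hf.norm ?_
  · intro ξ
    exact ((continuous_e.comp (by fun_prop)).aestronglyMeasurable).mul hf.aestronglyMeasurable
  · intro ξ
    refine Filter.Eventually.of_forall fun y => ?_
    rw [norm_mul, norm_e, one_mul]
  · refine Filter.Eventually.of_forall fun y => ?_
    exact (continuous_e.comp (by fun_prop)).mul continuous_const

lemma planch_one (h1 : TaskPlanch) {n : ℕ} {ψ : ℝ → ℝ} (hψ : Bump ψ) {Λ R : ℝ} (hΛ : 1 ≤ Λ)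
    (hR0 : 0 < R) {f : E n → ℂ} (hfc : Continuous (fh f)) :
    ∫⁻ x : E n, ‖TR n (pc ψ Λ R) f x‖ₑ ^ (2 : ℝ) =
      ∫⁻ ξ : E n, ‖pc ψ Λ R (‖ξ‖ ^ 2)‖ₑ ^ (2 : ℝ) * ‖fh f ξ‖ₑ ^ (2 : ℝ) := by
  have hψc : Continuous ψ := hψ.1.continuous
  have hcont : Continuous fun ξ : E n => ((pc ψ Λ R (‖ξ‖ ^ 2) : ℝ) : ℂ) * fh f ξ := by
    unfold pc
    exact (Complex.continuous_ofReal.comp (hψc.comp (by fun_prop))).mul hfc
  have hsupp : HasCompactSupport fun ξ : E n => ((pc ψ Λ R (‖ξ‖ ^ 2) : ℝ) : ℂ) * fh f ξ := by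
    refine HasCompactSupport.of_support_subset_isCompact (isCompact_closedBall (0 : E n) R) ?_
    intro ξ hξ
    rw [Function.mem_support] at hξ
    have h6 : pc ψ Λ R (‖ξ‖ ^ 2) ≠ 0 := by
      intro h; apply hξ; rw [h]; simp
    have h7 := (hψ.2 _ h6).1
    rw [mem_closedBall_zero_iff]
    by_contra hcon
    push Not at hcon
    have h8 : 1 ≤ ‖ξ‖ ^ 2 / R ^ 2 := by
      rw [one_le_div (by positivity)]; nlinarith
    nlinarith
  have h9 := h1 n _ hcont hsupp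
  unfold TR
  rw [h9]
  refine lintegral_congr fun ξ => ?_
  rw [enorm_mul, ENNReal.mul_rpow_of_nonneg _ _ (by norm_num)]
  congr 2
  rw [← ofReal_norm, ← ofReal_norm, Complex.norm_real]

lemma swap_bound {n : ℕ} (ν : Measure ℝ) [IsFiniteMeasure ν] (m : ℝ → E n → ENNReal)
    (g : E n → ENNReal) (K : ENNReal) (hm1 : Measurable fun z : ℝ × E n => m z.1 z.2)
    (hm2 : Measurable g) (hK : ∀ ξ, ∫⁻ R, m R ξ ∂ν ≤ K) :
    ∫⁻ R, (∫⁻ ξ : E n, m R ξ * g ξ) ∂ν ≤ K * ∫⁻ ξ : E n, g ξ := by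
  rw [lintegral_lintegral_swap (hm1.mul (hm2.comp measurable_snd)).aemeasurable]
  calc ∫⁻ ξ : E n, ∫⁻ R, m R ξ * g ξ ∂ν
      = ∫⁻ ξ : E n, (∫⁻ R, m R ξ ∂ν) * g ξ := by
        refine lintegral_congr fun ξ => ?_
        have hm3 : Measurable fun R : ℝ => m R ξ :=
          hm1.comp (measurable_id.prodMk measurable_const)
        exact lintegral_mul_const _ hm3
    _ ≤ ∫⁻ ξ : E n, K * g ξ := lintegral_mono fun ξ => mul_le_mul' (hK ξ) le_rfl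
    _ = K * ∫⁻ ξ : E n, g ξ := lintegral_const_mul _ hm2

lemma meas_pc {n : ℕ} {ψ : ℝ → ℝ} (hψc : Continuous ψ) (Λ : ℝ) :
    Measurable fun z : ℝ × E n => ‖pc ψ Λ z.1 (‖z.2‖ ^ 2)‖ₑ ^ (2 : ℝ) := by
  unfold pc
  exact ((hψc.measurable.comp (by fun_prop)).enorm).pow_const _

theorem result (h1 : TaskPlanch) (h2 : TaskPlanchF) (h3 : TaskRad) (_h4 : TaskMeas) :
    TaskL2 := by
  intro n ψ r0 r1 M0 a _ hψ hr0 hr01 hM0 ha ha1
  obtain ⟨C, hC, hrad⟩ := h3 ψ r0 r1 M0 a hψ hr0 hr01 hM0 ha ha1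
  refine ⟨C, hC, fun ν hν Λ hΛ f hf => ?_⟩
  have hfin : IsFiniteMeasure ν := by
    refine ⟨?_⟩
    have h5 := hν.2 r0 (r1 - r0) (by linarith)
    rw [add_sub_cancel] at h5
    calc ν univ ≤ ν (Icc r0 r1) + ν (Icc r0 r1)ᶜ := by
          rw [← Set.union_compl_self (Icc r0 r1)]; exact measure_union_le _ _
      _ < ⊤ := by rw [hν.1, add_zero]; exact h5.trans_lt ENNReal.ofReal_lt_top
  have hae : ∀ᵐ R ∂ν, R ∈ Icc r0 r1 := by
    rw [ae_iff]; exact hν.1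
  have hfc := continuous_fh hf.2.1
  have key : ∀ᵐ R ∂ν, ∫⁻ x : E n, ‖TR n (pc ψ Λ R) f x‖ₑ ^ (2 : ℝ) =
      ∫⁻ ξ : E n, ‖pc ψ Λ R (‖ξ‖ ^ 2)‖ₑ ^ (2 : ℝ) * ‖fh f ξ‖ₑ ^ (2 : ℝ) := by
    filter_upwards [hae] with R hR
    exact planch_one h1 hψ hΛ (hr0.trans_le hR.1) hfc
  rw [lintegral_congr_ae key]
  have h6 := swap_bound ν (fun R (ξ : E n) => ‖pc ψ Λ R (‖ξ‖ ^ 2)‖ₑ ^ (2 : ℝ))
    (fun ξ => ‖fh f ξ‖ₑ ^ (2 : ℝ)) (ENNReal.ofReal (C * Λ ^ (-a)))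
    (meas_pc hψ.1.continuous Λ) ((hfc.measurable.enorm).pow_const _)
    (fun ξ => hrad ν hν Λ (‖ξ‖ ^ 2) hΛ (sq_nonneg _))
  exact h6.trans (mul_le_mul' le_rfl (h2 n f hf))

end Pool.Agent.H487R3.BRA.TL2
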