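import Mathlib
import Pool.Agent.Helper390.CovarioA
import Pool.Agent.H487R3.BRA.Stmts

set_option autoImplicit false

open MeasureTheory Set FourierTransform

namespace Pool.Agent.H487R3.BRA.TPlanch

open Pool.Agent.H487R3.BRA

theorem enorm_sq_eq (z : ℂ) : ‖z‖ₑ ^ (2 : ℝ) = ENNReal.ofReal (‖z‖ ^ 2) := by
  rw [← ofReal_norm, ENNReal.ofReal_rpow_of_nonneg (norm_nonneg _) (by norm_num)]
  congr 1
  norm_cast

/-- Plancherel as an equality of lower integrals -/
theorem planch_lint {n : ℕ} {f : E n → ℂ} (h1 : Integrable f) (h2 : MemLp f 2) :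
    ∫⁻ ξ : E n, ‖𝓕 f ξ‖ₑ ^ (2 : ℝ) = ∫⁻ x : E n, ‖f x‖ₑ ^ (2 : ℝ) := by
  obtain ⟨hF, hpl⟩ := Pool.Agent.Helper390.Covario.plancherel h1 h2
  simp only [enorm_sq_eq]
  rw [← ofReal_integral_eq_lintegral_ofReal, ← ofReal_integral_eq_lintegral_ofReal, hpl]
  · exact h2.integrable_norm_pow (by norm_num)
  · exact Filter.Eventually.of_forall fun x => by positivity
  · exact hF.integrable_norm_pow (by norm_num)
  · exact Filter.Eventually.of_forall fun x => by positivity

theorem inv_eq {n : ℕ} (H : E n → ℂ) (x : E n) :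
    ∫ ξ : E n, H ξ * e (inner ℝ x ξ) = 𝓕 H (-x) := by
  rw [← Real.fourierInv_eq_fourier_neg, Real.fourierInv_eq']
  refine integral_congr_ae (Filter.Eventually.of_forall fun ξ => ?_)
  simp only [e, smul_eq_mul]
  rw [mul_comm, real_inner_comm]

theorem result : TaskPlanch := by
  intro n H hH hc
  have h1 : Integrable H := hH.integrable_of_hasCompactSupport hc
  have h2 : MemLp H 2 := hH.memLp_of_hasCompactSupport hc
  simp only [inv_eq]
  rw [← planch_lint h1 h2]
  exact lintegral_neg_eq_self (μ := (volume : Measure (E n))) (fun y : E n => ‖𝓕 H y‖ₑ ^ (2 : ℝ))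

end Pool.Agent.H487R3.BRA.TPlanch
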