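import Pool.Agent.H487R3.BRA.Stmts
import Pool.Agent.H153R4.Pl

/-!
Plancherel for integrable bounded functions (task PlanchF of H487-BR).
-/

set_option autoImplicit false

namespace Pool.Agent.H487R3.BRA.TPlanchF

open MeasureTheory Set Pool.Agent.H487R3.BRA
open scoped FourierTransform ENNReal

theorem fh_eq {n : ℕ} (f : E n → ℂ) : fh f = 𝓕 f := by
  funext ξ
  rw [Real.fourier_eq']
  unfold fh e
  apply integral_congr_ae
  filter_upwards with v
  rw [smul_eq_mul]
  congr 2
  push_cast
  ring

theorem nice_memLp {n : ℕ} {f : E n → ℂ} (hf : Nice f) : MemLp f 2 := by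
  obtain ⟨h1, h2, B, hB⟩ := hf
  rw [memLp_two_iff_integrable_sq_norm h1.aestronglyMeasurable]
  refine Integrable.mono' (g := fun x => B * ‖f x‖) (h2.norm.const_mul B)
    (h1.norm.pow_const 2).aestronglyMeasurable ?_
  filter_upwards with x
  rw [Real.norm_of_nonneg (by positivity), pow_two]
  exact mul_le_mul_of_nonneg_right (hB x) (norm_nonneg _)

theorem result : TaskPlanchF := by
  intro n f hf
  have h := Pool.Agent.H153R4.plancherel f hf.2.1 (nice_memLp hf)
  rw [fh_eq]
  simp only [ENNReal.rpow_ofNat]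
  exact h.le

end Pool.Agent.H487R3.BRA.TPlanchF
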