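import Mathlib
import Pool.Agent.H487R3.BRA.Stmts

set_option autoImplicit false

/-!
Bochner-Riesz means of almost every radius: few radii are critical for a given frequency.
-/

open MeasureTheory Set

namespace Pool.Agent.H487R3.BRA.TRad

open Pool.Agent.H487R3.BRA

theorem bump_bdd {ψ : ℝ → ℝ} (h : Bump ψ) : ∃ B : ℝ, 0 < B ∧ ∀ v, |ψ v| ≤ B := by
  have hc : Continuous ψ := h.1.continuous
  obtain ⟨B, hB⟩ := (isCompact_Icc (a := (1 / 2 : ℝ)) (b := 2)).exists_bound_of_continuousOn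
    hc.continuousOn
  refine ⟨|B| + 1, by positivity, fun v => ?_⟩
  by_cases hv : ψ v = 0
  · rw [hv, abs_zero]
    positivity
  · have := hB v (h.2 v hv)
    rw [Real.norm_eq_abs] at this
    linarith [le_abs_self B]

/-- two critical radii are close -/
theorem close (r0 r1 : ℝ) (h0 : 0 < r0) (Λ u R S : ℝ) (h4 : 4 ≤ Λ)
    (hR : R ∈ Icc r0 r1) (hS : S ∈ Icc r0 r1)
    (a2 : 1 / 2 ≤ Λ * (1 - u / R ^ 2) ∧ Λ * (1 - u / R ^ 2) ≤ 2)
    (a1 : 1 / 2 ≤ Λ * (1 - u / S ^ 2) ∧ Λ * (1 - u / S ^ 2) ≤ 2) :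
    |R - S| ≤ (3 * r1 ^ 2 / (2 * r0)) / Λ := by
  have hΛ : 0 < Λ := by linarith
  have hR0 : 0 < R := h0.trans_le hR.1
  have hS0 : 0 < S := h0.trans_le hS.1
  set x := u / R ^ 2 with hx
  set y := u / S ^ 2 with hy
  have ex : x * R ^ 2 = u := by rw [hx]; field_simp
  have ey : y * S ^ 2 = u := by rw [hy]; field_simp
  have hx2 : 1 / 2 ≤ x := by nlinarith [a2.2]
  have hd : Λ * |y - x| ≤ 3 / 2 := by
    have : Λ * |y - x| = |Λ * (1 - x) - Λ * (1 - y)| := by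
      rw [show Λ * (1 - x) - Λ * (1 - y) = Λ * (y - x) by ring, abs_mul, abs_of_pos hΛ]
    rw [this, abs_le]
    constructor <;> linarith [a1.1, a1.2, a2.1, a2.2]
  have e1 : x * |R ^ 2 - S ^ 2| = |y - x| * S ^ 2 := by
    have : x * (R ^ 2 - S ^ 2) = (y - x) * S ^ 2 := by linarith
    have h2 := congrArg abs this
    rw [abs_mul, abs_mul, abs_of_pos (by linarith : 0 < x), abs_of_pos (by positivity : 0 < S ^ 2)]
      at h2
    exact h2
  have e2 : |R - S| * (R + S) = |R ^ 2 - S ^ 2| := by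
    rw [show R ^ 2 - S ^ 2 = (R - S) * (R + S) by ring, abs_mul, abs_of_pos (by linarith : 0 < R + S)]
  have e3 : |R - S| * (2 * r0) ≤ |R ^ 2 - S ^ 2| := by
    rw [← e2]
    exact mul_le_mul_of_nonneg_left (by linarith [hR.1, hS.1]) (abs_nonneg _)
  have e4 : (1 / 2) * |R ^ 2 - S ^ 2| ≤ |y - x| * S ^ 2 := by
    rw [← e1]
    exact mul_le_mul_of_nonneg_right hx2 (abs_nonneg _)
  have e5 : Λ * |y - x| * S ^ 2 ≤ 3 / 2 * S ^ 2 :=
    mul_le_mul_of_nonneg_right hd (by positivity)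
  have e6 : S ^ 2 ≤ r1 ^ 2 := by
    have := hS.2
    gcongr
  have e7 : Λ * |R ^ 2 - S ^ 2| ≤ 3 * r1 ^ 2 := by
    have := mul_le_mul_of_nonneg_left e4 hΛ.le
    nlinarith
  rw [le_div_iff₀ hΛ, le_div_iff₀ (by positivity)]
  have := mul_le_mul_of_nonneg_left e3 hΛ.le
  nlinarith

/-- the critical radii are confined to a short interval -/
theorem confine (r0 r1 : ℝ) (h0 : 0 < r0) (h1 : r0 < r1) (ψ : ℝ → ℝ) (hψ : Bump ψ) (Λ u : ℝ)
    (hΛ : 1 ≤ Λ) :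
    ∃ s : ℝ, ∀ R ∈ Icc r0 r1, pc ψ Λ R u ≠ 0 →
      R ∈ Icc s (s + (4 * (r1 - r0) + 3 * r1 ^ 2 / r0) / Λ) := by
  have hΛ0 : 0 < Λ := by linarith
  have hpos : 0 ≤ 3 * r1 ^ 2 / r0 := by positivity
  rcases lt_or_ge Λ 4 with h4 | h4
  · refine ⟨r0, fun R hR _ => ⟨hR.1, hR.2.trans ?_⟩⟩
    have : r1 - r0 ≤ (4 * (r1 - r0) + 3 * r1 ^ 2 / r0) / Λ := by
      rw [le_div_iff₀ hΛ0]
      nlinarith
    linarith
  · by_cases hK : ∃ R ∈ Icc r0 r1, pc ψ Λ R u ≠ 0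
    · obtain ⟨S, hS, hS2⟩ := hK
      refine ⟨S - (3 * r1 ^ 2 / (2 * r0)) / Λ, fun R hR hR2 => ?_⟩
      have h := close r0 r1 h0 Λ u R S h4 hR hS (hψ.2 _ hR2) (hψ.2 _ hS2)
      rw [abs_le] at h
      have e : (4 * (r1 - r0) + 3 * r1 ^ 2 / r0) / Λ =
          4 * (r1 - r0) / Λ + 2 * ((3 * r1 ^ 2 / (2 * r0)) / Λ) := by
        field_simp
      have e2 : 0 ≤ 4 * (r1 - r0) / Λ := by
        have : 0 ≤ r1 - r0 := by linarith
        positivity
      rw [e]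
      constructor <;> linarith [h.1, h.2]
    · push Not at hK
      exact ⟨0, fun R hR hR2 => absurd (hK R hR) hR2⟩

theorem result : TaskRad := by
  intro ψ r0 r1 M0 a hψ h0 h1 hM ha ha1
  obtain ⟨B, hB0, hB⟩ := bump_bdd hψ
  set H : ℝ := 4 * (r1 - r0) + 3 * r1 ^ 2 / r0 with hH
  have hr1 : 0 < r1 := h0.trans h1
  have hHpos : 0 < H := by
    have : 0 < r1 - r0 := by linarith
    positivity
  refine ⟨B ^ 2 * (M0 * H ^ a), by positivity, ?_⟩
  intro ν hν Λ u hΛ hu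
  have hΛ0 : 0 < Λ := by linarith
  obtain ⟨s, hs⟩ := confine r0 r1 h0 h1 ψ hψ Λ u hΛ
  have hae : ∀ᵐ R ∂ν, R ∈ Icc r0 r1 := by
    rw [ae_iff]
    exact hν.1
  calc ∫⁻ R, ‖pc ψ Λ R u‖ₑ ^ (2 : ℝ) ∂ν
      ≤ ∫⁻ R, (Icc s (s + H / Λ)).indicator (fun _ => ENNReal.ofReal (B ^ 2)) R ∂ν := by
        refine lintegral_mono_ae ?_
        filter_upwards [hae] with R hR
        by_cases hz : pc ψ Λ R u = 0
        · rw [hz]
          simp
        · rw [indicator_of_mem (hs R hR hz)]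
          have e1 : ‖pc ψ Λ R u‖ₑ ≤ ENNReal.ofReal B := by
            rw [← ofReal_norm]
            exact ENNReal.ofReal_le_ofReal (hB _)
          calc ‖pc ψ Λ R u‖ₑ ^ (2 : ℝ) ≤ (ENNReal.ofReal B) ^ (2 : ℝ) :=
                ENNReal.rpow_le_rpow e1 (by norm_num)
            _ = ENNReal.ofReal (B ^ 2) := by
                rw [ENNReal.ofReal_rpow_of_pos hB0]
                norm_num
    _ = ENNReal.ofReal (B ^ 2) * ν (Icc s (s + H / Λ)) := by
        rw [lintegral_indicator measurableSet_Icc, setLIntegral_const]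
    _ ≤ ENNReal.ofReal (B ^ 2) * ENNReal.ofReal (M0 * (H / Λ) ^ a) := by
        gcongr
        exact hν.2 s (H / Λ) (by positivity)
    _ = ENNReal.ofReal (B ^ 2 * (M0 * H ^ a) * Λ ^ (-a)) := by
        rw [← ENNReal.ofReal_mul (by positivity)]
        congr 1
        rw [Real.div_rpow hHpos.le hΛ0.le, Real.rpow_neg hΛ0.le]
        ring

end Pool.Agent.H487R3.BRA.TRad
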