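import Pool.Agent.H487R3.BRA.Stmts

set_option autoImplicit false

/-!
Bochner-Riesz means of almost every radius: second round of task statements.
-/

open MeasureTheory Set Filter Topology

namespace Pool.Agent.H487R3.BRA

/-- the Bochner-Riesz multiplier of order `δ` as a function of `u = |ξ|^2 / R^2` (for `δ = 0` the
indicator function of the ball, for `δ > 0` it is `(1 - u)_+^δ`) -/
noncomputable def brm (δ u : ℝ) : ℝ := if u < 1 then (1 - u) ^ δ else 0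

/-- Bochner-Riesz mean of order `δ` and radius `R` -/
noncomputable def SRm (n : ℕ) (δ R : ℝ) (f : E n → ℂ) (x : E n) : ℂ :=
  ∫ ξ : E n, ((brm δ (‖ξ‖ ^ 2 / R ^ 2) : ℝ) : ℂ) * fh f ξ * e (inner ℝ x ξ)

/-- scaling of the means (substitutions `y = ρ z` in `fh` and `η = ρ ξ`) -/
def TaskSRscale : Prop := ∀ (n : ℕ) (δ ρ R : ℝ) (f : E n → ℂ) (x : E n), 0 < ρ → 0 < R →
  SRm n δ (ρ * R) f x = SRm n δ R (fun y => f (ρ⁻¹ • y)) (ρ • x)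

/-- band limited functions are dense (first a Schwartz function `u` near `f` in `L^p`, then
`g = 𝓕⁻¹ (χ(·/N) 𝓕 u)` with a smooth cutoff `χ`, `χ = 1` near `0`: this is `u * K_N`,
`K_N = N^n K(N·)`, `K` Schwartz of integral 1, an approximate identity) -/
def TaskBand : Prop := ∀ (n : ℕ) (p : ℝ), 1 < p → ∀ f : E n → ℂ, Nice f → ∀ ε : ℝ, 0 < ε →
  ∃ g : E n → ℂ, Nice g ∧ (∃ B0 : ℝ, ∀ ξ : E n, B0 < ‖ξ‖ → fh g ξ = 0) ∧
    (∀ x, g x = ∫ ξ : E n, fh g ξ * e (inner ℝ x ξ)) ∧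
    ∫⁻ x : E n, ‖f x - g x‖ₑ ^ p ≤ ENNReal.ofReal ε

/-- the critical sphere `|ξ| = R` and its shells, for all radii, MAY ASSUME TaskShell -/
def TaskShellR : Prop := ∀ n : ℕ, 1 ≤ n → ∀ R : ℝ, 0 < R → ∃ C : ℝ, 0 < C ∧ ∀ Λ : ℝ, 1 ≤ Λ →
  volume {ξ : E n | 1 - 2 / Λ ≤ ‖ξ‖ ^ 2 / R ^ 2 ∧ ‖ξ‖ ^ 2 / R ^ 2 ≤ 1} ≤ ENNReal.ofReal (C / Λ)

end Pool.Agent.H487R3.BRA
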