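import Mathlib
import Pool.Agent.H487R3.BRA.Stmts2

set_option autoImplicit false

/-! Scaling of the Bochner-Riesz means. -/

open MeasureTheory Set Filter Topology

namespace Pool.Agent.H487R3.BRA.TSRscale

open Pool.Agent.H487R3.BRA

theorem fh_scale {n : ℕ} (f : E n → ℂ) {ρ : ℝ} (hρ : 0 < ρ) (η : E n) :
    fh (fun y => f (ρ⁻¹ • y)) η = (ρ ^ Module.finrank ℝ (E n)) • fh f (ρ • η) := by
  have h1 : (fun y : E n => e (-(inner ℝ y η)) * f (ρ⁻¹ • y)) =
      fun y : E n => (fun z : E n => e (-(inner ℝ z (ρ • η))) * f z) (ρ⁻¹ • y) := by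
    funext y
    have h2 : inner ℝ (ρ⁻¹ • y) (ρ • η) = inner ℝ y η := by
      rw [real_inner_smul_left, real_inner_smul_right, ← mul_assoc, inv_mul_cancel₀ hρ.ne',
        one_mul]
    simp only [h2]
  unfold fh
  rw [h1]
  exact Measure.integral_comp_inv_smul_of_nonneg volume
    (fun z : E n => e (-(inner ℝ z (ρ • η))) * f z) hρ.le

theorem result : TaskSRscale := by
  intro n δ ρ R f x hρ hR
  have h1 : (fun η : E n => ((brm δ (‖η‖ ^ 2 / R ^ 2) : ℝ) : ℂ) * fh (fun y => f (ρ⁻¹ • y)) η *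
      e (inner ℝ (ρ • x) η)) = fun η : E n => (ρ ^ Module.finrank ℝ (E n)) •
      (fun ξ : E n => ((brm δ (‖ξ‖ ^ 2 / (ρ * R) ^ 2) : ℝ) : ℂ) * fh f ξ * e (inner ℝ x ξ))
        (ρ • η) := by
    funext η
    have h2 : inner ℝ (ρ • x) η = inner ℝ x (ρ • η) := by
      rw [real_inner_smul_left, real_inner_smul_right]
    have h3 : ‖ρ • η‖ ^ 2 / (ρ * R) ^ 2 = ‖η‖ ^ 2 / R ^ 2 := by
      rw [norm_smul, Real.norm_eq_abs, abs_of_pos hρ, mul_pow, mul_pow,
        mul_div_mul_left _ _ (by positivity)]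
    simp only [h2, h3]
    rw [fh_scale f hρ η, Complex.real_smul, Complex.real_smul]
    ring
  unfold SRm
  rw [h1, integral_smul, Measure.integral_comp_smul_of_nonneg volume
    (fun ξ : E n => ((brm δ (‖ξ‖ ^ 2 / (ρ * R) ^ 2) : ℝ) : ℂ) * fh f ξ * e (inner ℝ x ξ)) ρ
    (hR := hρ.le), smul_smul, mul_inv_cancel₀ (by positivity), one_smul]

end Pool.Agent.H487R3.BRA.TSRscale
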