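import Pool.Agent.H487R3.BRA.Stmts

/-!
# TaskScale: scaling of the kernel
-/

set_option autoImplicit false

open MeasureTheory Set

namespace Pool.Agent.H487R3.BRA.TScale

open Pool.Agent.H487R3.BRA

theorem ker_scale (n : ℕ) (ψ : ℝ → ℝ) (Λ R : ℝ) (hR : 0 < R) (x : E n) :
    ker n (pc ψ Λ R) x = ((R ^ n : ℝ) : ℂ) * ker n (pc ψ Λ 1) (R • x) := by
  have hRn : (0 : ℝ) < R ^ n := pow_pos hR n
  have h := Measure.integral_comp_smul (volume : Measure (E n))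
    (fun ξ : E n => ((pc ψ Λ R (‖ξ‖ ^ 2) : ℝ) : ℂ) * e (inner ℝ x ξ)) R
  have hfin : Module.finrank ℝ (E n) = n := by simp
  rw [hfin, abs_of_pos (inv_pos.2 hRn)] at h
  have h2 : (fun η : E n => ((pc ψ Λ R (‖R • η‖ ^ 2) : ℝ) : ℂ) * e (inner ℝ x (R • η))) =
      fun η : E n => ((pc ψ Λ 1 (‖η‖ ^ 2) : ℝ) : ℂ) * e (inner ℝ (R • x) η) := by
    funext η
    have e1 : pc ψ Λ R (‖R • η‖ ^ 2) = pc ψ Λ 1 (‖η‖ ^ 2) := by
      unfold pc
      have : ‖R • η‖ ^ 2 / R ^ 2 = ‖η‖ ^ 2 / 1 ^ 2 := by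
        rw [norm_smul, mul_pow, Real.norm_eq_abs, sq_abs]
        field_simp
      rw [this]
    have e2 : inner ℝ x (R • η) = inner ℝ (R • x) η := by
      rw [real_inner_smul_right, real_inner_smul_left]
    rw [e1, e2]
  rw [h2] at h
  unfold ker
  rw [h, Complex.real_smul, ← mul_assoc, ← Complex.ofReal_mul, mul_inv_cancel₀ hRn.ne']
  simp

theorem result : TaskScale := by
  intro n ψ Λ R hR
  have hRn : (0 : ℝ) < R ^ n := pow_pos hR n
  have hfin : Module.finrank ℝ (E n) = n := by simp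
  have h1 : ∀ x : E n, ‖ker n (pc ψ Λ R) x‖ₑ =
      ENNReal.ofReal (R ^ n) * ‖ker n (pc ψ Λ 1) (R • x)‖ₑ := by
    intro x
    rw [ker_scale n ψ Λ R hR x, enorm_mul]
    congr 1
    rw [← ofReal_norm_eq_enorm, Complex.norm_real, Real.norm_eq_abs, abs_of_pos hRn]
  simp_rw [h1]
  rw [lintegral_const_mul' _ _ ENNReal.ofReal_ne_top]
  have hme : MeasurableEmbedding (fun x : E n => R • x) :=
    (Homeomorph.smulOfNeZero R hR.ne').measurableEmbedding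
  have h2 : ∫⁻ x : E n, ‖ker n (pc ψ Λ 1) (R • x)‖ₑ =
      ∫⁻ y : E n, ‖ker n (pc ψ Λ 1) y‖ₑ ∂(Measure.map (fun x : E n => R • x) volume) :=
    (hme.lintegral_map (fun y : E n => ‖ker n (pc ψ Λ 1) y‖ₑ)).symm
  rw [h2, Measure.map_addHaar_smul volume hR.ne', lintegral_smul_measure, hfin,
    abs_of_pos (inv_pos.2 hRn), smul_eq_mul, ← mul_assoc, ← ENNReal.ofReal_mul hRn.le,
    mul_inv_cancel₀ hRn.ne', ENNReal.ofReal_one, one_mul]

end Pool.Agent.H487R3.BRA.TScale
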