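import Pool.Agent.H487R3.BRA.Stmts

set_option autoImplicit false

open MeasureTheory Set

namespace Pool.Agent.H487R3.BRA.TShell

open Pool.Agent.H487R3.BRA

theorem result : TaskShell := by
  intro n hn
  haveI : Nonempty (Fin n) := ⟨⟨0, hn⟩⟩
  have hV : volume (Metric.ball (0 : E n) 1) ≠ ⊤ := measure_ball_lt_top.ne
  set V : ENNReal := volume (Metric.ball (0 : E n) 1) with hVdef
  have hfin : Module.finrank ℝ (E n) = n := finrank_euclideanSpace_fin
  have hn' : (1 : ℝ) ≤ n := by exact_mod_cast hn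
  have hVr : 0 ≤ V.toReal := ENNReal.toReal_nonneg
  refine ⟨2 * n * V.toReal + 1, by positivity, fun Λ hΛ => ?_⟩
  have hΛ0 : 0 < Λ := by linarith
  have hball1 : volume (Metric.closedBall (0 : E n) 1) = ENNReal.ofReal V.toReal := by
    rw [Measure.addHaar_closedBall _ _ zero_le_one, one_pow, ENNReal.ofReal_one, one_mul,
      ENNReal.ofReal_toReal hV]
  have hsub1 : {ξ : E n | 1 - 2 / Λ ≤ ‖ξ‖ ^ 2 ∧ ‖ξ‖ ^ 2 ≤ 1} ⊆ Metric.closedBall (0 : E n) 1 := by
    rintro ξ ⟨_, h⟩
    rw [mem_closedBall_zero_iff]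
    nlinarith [norm_nonneg ξ]
  by_cases h2 : Λ < 2
  · refine (measure_mono hsub1).trans ?_
    rw [hball1]
    apply ENNReal.ofReal_le_ofReal
    rw [le_div_iff₀ hΛ0]
    nlinarith [mul_le_mul_of_nonneg_left h2.le hVr, mul_le_mul_of_nonneg_left hn' hVr]
  · push Not at h2
    have h0 : 0 ≤ 1 - 2 / Λ := by
      rw [sub_nonneg, div_le_one hΛ0]; exact h2
    set r := Real.sqrt (1 - 2 / Λ) with hr
    have hr0 : 0 ≤ r := Real.sqrt_nonneg _
    have hrsq : r ^ 2 = 1 - 2 / Λ := Real.sq_sqrt h0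
    have h2Λ : 0 ≤ 2 / Λ := by positivity
    have hr1 : r ≤ 1 := by nlinarith
    have hsub : {ξ : E n | 1 - 2 / Λ ≤ ‖ξ‖ ^ 2 ∧ ‖ξ‖ ^ 2 ≤ 1} ⊆
        Metric.closedBall (0 : E n) 1 \ Metric.ball (0 : E n) r := by
      intro ξ hξ
      refine ⟨hsub1 hξ, fun h => ?_⟩
      rw [mem_ball_zero_iff] at h
      have h3 := hξ.1
      rw [← hrsq] at h3
      nlinarith [norm_nonneg ξ]
    refine (measure_mono hsub).trans ?_
    rw [measure_diff (Metric.ball_subset_closedBall.trans (Metric.closedBall_subset_closedBall hr1))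
      measurableSet_ball.nullMeasurableSet measure_ball_lt_top.ne, hball1,
      Measure.addHaar_ball _ _ hr0, hfin, ← hVdef, ← ENNReal.ofReal_toReal hV,
      ENNReal.toReal_ofReal hVr, ← ENNReal.ofReal_mul (by positivity),
      ← ENNReal.ofReal_sub _ (by positivity)]
    apply ENNReal.ofReal_le_ofReal
    have hb : 1 - (n : ℝ) * (1 - r) ≤ r ^ n := by
      have h4 := one_add_mul_le_pow (show (-2 : ℝ) ≤ r - 1 by linarith) n
      have e : (1 + (r - 1)) = r := by ring
      rw [e] at h4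
      linarith
    have h5 : 1 - r ≤ 2 / Λ := by nlinarith
    have h6 : V.toReal - r ^ n * V.toReal ≤ V.toReal * (n * (2 / Λ)) := by
      have : (1 - r ^ n) ≤ n * (2 / Λ) := by
        have := mul_le_mul_of_nonneg_left h5 (show (0 : ℝ) ≤ n by positivity)
        linarith
      nlinarith
    refine h6.trans ?_
    rw [le_div_iff₀ hΛ0]
    have e : V.toReal * (n * (2 / Λ)) * Λ = 2 * n * V.toReal := by field_simp
    rw [e]; linarith

end Pool.Agent.H487R3.BRA.TShell
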