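import Pool.Agent.H487R3.BRA.Stmts2

set_option autoImplicit false

/-!
Scaling of the volume of thin shells to all radii.
-/

open MeasureTheory Set Filter Topology

namespace Pool.Agent.H487R3.BRA.TShellR

theorem result : TaskShell → TaskShellR := by
  intro hS n hn R hR
  obtain ⟨C, hC, hb⟩ := hS n hn
  set c : ℝ := |((R⁻¹) ^ Module.finrank ℝ (E n))⁻¹| with hc
  have hcpos : 0 < c := abs_pos.2 (by positivity)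
  refine ⟨c * C, mul_pos hcpos hC, fun Λ hΛ => ?_⟩
  have h1 : {ξ : E n | 1 - 2 / Λ ≤ ‖ξ‖ ^ 2 / R ^ 2 ∧ ‖ξ‖ ^ 2 / R ^ 2 ≤ 1} =
      (fun ξ : E n => R⁻¹ • ξ) ⁻¹' {ξ : E n | 1 - 2 / Λ ≤ ‖ξ‖ ^ 2 ∧ ‖ξ‖ ^ 2 ≤ 1} := by
    ext ξ
    have h2 : ‖R⁻¹ • ξ‖ ^ 2 = ‖ξ‖ ^ 2 / R ^ 2 := by
      rw [norm_smul, norm_inv, Real.norm_of_nonneg hR.le]
      field_simp
    simp only [mem_preimage, mem_ofPred_eq, h2]
  rw [h1, Measure.addHaar_preimage_smul _ (inv_ne_zero hR.ne')]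
  calc ENNReal.ofReal c * volume {ξ : E n | 1 - 2 / Λ ≤ ‖ξ‖ ^ 2 ∧ ‖ξ‖ ^ 2 ≤ 1}
      ≤ ENNReal.ofReal c * ENNReal.ofReal (C / Λ) := by gcongr; exact hb Λ hΛ
    _ = ENNReal.ofReal (c * C / Λ) := by
      rw [← ENNReal.ofReal_mul hcpos.le, mul_div_assoc]

end Pool.Agent.H487R3.BRA.TShellR
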