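import Pool.Agent.H487R3.BRA.Stmts

set_option autoImplicit false

/-!
Bochner-Riesz means of almost every radius: the pieces for `p < 2`.
-/

open MeasureTheory Set

namespace Pool.Agent.H487R3.BRA.TSmall

open Pool.Agent.H487R3.BRA

lemma e_cont : Continuous e := by
  unfold e
  fun_prop

lemma e_norm (x : ℝ) : ‖e x‖ = 1 := by
  unfold e
  exact Complex.norm_exp_ofReal_mul_I _

lemma integrable_char {n : ℕ} {f : E n → ℂ} (hf : Integrable f) (ξ : E n) :
    Integrable fun y : E n => e (-(inner ℝ y ξ)) * f y := by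
  refine hf.bdd_mul (c := 1) ?_ ?_
  · have : Continuous fun y : E n => e (-(inner ℝ y ξ)) := e_cont.comp (by fun_prop)
    exact this.aestronglyMeasurable
  · exact Filter.Eventually.of_forall fun y => (e_norm _).le

lemma fh_cont {n : ℕ} {f : E n → ℂ} (hf : Integrable f) : Continuous (fh f) := by
  unfold fh
  refine continuous_of_dominated (bound := fun y => ‖f y‖) ?_ ?_ hf.norm ?_
  · intro ξ
    exact (integrable_char hf ξ).aestronglyMeasurable
  · intro ξ
    refine Filter.Eventually.of_forall fun y => ?_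
    rw [norm_mul, e_norm, one_mul]
  · refine Filter.Eventually.of_forall fun y => ?_
    exact (e_cont.comp (by fun_prop)).mul continuous_const

lemma fh_add {n : ℕ} {f g : E n → ℂ} (hf : Integrable f) (hg : Integrable g) (ξ : E n) :
    fh (fun x => f x + g x) ξ = fh f ξ + fh g ξ := by
  unfold fh
  rw [← integral_add (integrable_char hf ξ) (integrable_char hg ξ)]
  congr 1
  funext y
  ring

lemma pc_cont {ψ : ℝ → ℝ} (hψ : Bump ψ) (Λ R : ℝ) : Continuous (pc ψ Λ R) := by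
  unfold pc
  exact hψ.1.continuous.comp (by fun_prop)

lemma pc_zero {ψ : ℝ → ℝ} (hψ : Bump ψ) {Λ R : ℝ} (hΛ : 1 ≤ Λ) (hR : 0 < R) (u : ℝ)
    (hu : R ^ 2 < u) : pc ψ Λ R u = 0 := by
  by_contra h
  have h1 := (hψ.2 _ h).1
  have h2 : 1 < u / R ^ 2 := by
    rw [lt_div_iff₀ (by positivity)]
    linarith
  have h3 : Λ * (1 - u / R ^ 2) < 0 := mul_neg_of_pos_of_neg (by linarith) (by linarith)
  linarith

lemma integrable_mult {n : ℕ} {f : E n → ℂ} (hf : Integrable f) {ψ : ℝ → ℝ} (hψ : Bump ψ)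
    {Λ R : ℝ} (hΛ : 1 ≤ Λ) (hR : 0 < R) (x : E n) :
    Integrable fun ξ : E n =>
      ((pc ψ Λ R (‖ξ‖ ^ 2) : ℝ) : ℂ) * fh f ξ * e (inner ℝ x ξ) := by
  have hcont : Continuous fun ξ : E n =>
      ((pc ψ Λ R (‖ξ‖ ^ 2) : ℝ) : ℂ) * fh f ξ * e (inner ℝ x ξ) := by
    refine ((Complex.continuous_ofReal.comp ((pc_cont hψ Λ R).comp (by fun_prop))).mul
      (fh_cont hf)).mul (e_cont.comp (by fun_prop))
  apply hcont.integrable_of_hasCompactSupport
  refine HasCompactSupport.intro (isCompact_closedBall (0 : E n) R) ?_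
  intro ξ hξ
  rw [Metric.mem_closedBall, dist_zero_right, not_le] at hξ
  have h1 : pc ψ Λ R (‖ξ‖ ^ 2) = 0 := by
    apply pc_zero hψ hΛ hR
    nlinarith [norm_nonneg ξ]
  rw [h1]
  simp

lemma TR_add {n : ℕ} {f g : E n → ℂ} (hf : Integrable f) (hg : Integrable g) {ψ : ℝ → ℝ}
    (hψ : Bump ψ) {Λ R : ℝ} (hΛ : 1 ≤ Λ) (hR : 0 < R) (x : E n) :
    TR n (pc ψ Λ R) (fun x => f x + g x) x = TR n (pc ψ Λ R) f x + TR n (pc ψ Λ R) g x := by
  unfold TR
  rw [← integral_add (integrable_mult hf hψ hΛ hR x) (integrable_mult hg hψ hΛ hR x)]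
  congr 1
  funext ξ
  rw [fh_add hf hg]
  ring

lemma nice_ind {n : ℕ} {f : E n → ℂ} (hf : Nice f) {s : Set (E n)} (hs : MeasurableSet s) :
    Nice (s.indicator f) := by
  obtain ⟨h1, h2, B, h3⟩ := hf
  refine ⟨h1.indicator hs, h2.indicator hs, |B|, fun x => ?_⟩
  by_cases hx : x ∈ s
  · rw [Set.indicator_of_mem hx]
    exact (h3 x).trans (le_abs_self B)
  · rw [Set.indicator_of_notMem hx, norm_zero]
    exact abs_nonneg B

theorem result : TaskL2 → TaskEnds → TaskMeas → TaskMarc12 → TaskSmall := by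
  intro hL2 hEnds hMeas hMarc n ψ r0 r1 M0 a p hn hψ hr0 hr1 hM0 ha0 ha1 hp1 hp2
  obtain ⟨C2, hC2, h2⟩ := hL2 n ψ r0 r1 M0 a hn hψ hr0 hr1 hM0 ha0 ha1
  obtain ⟨C1, hC1, h1⟩ := hEnds n ψ hn hψ
  obtain ⟨C3, hC3, h3⟩ := hMarc p hp1 hp2
  set K : ℝ := M0 * (r1 - r0) ^ a with hK
  have hK0 : 0 < K := mul_pos hM0 (Real.rpow_pos_of_pos (by linarith) _)
  refine ⟨C3 * (C1 * K) ^ (2 - p) * C2 ^ (p - 1), by positivity, ?_⟩
  intro ν hν Λ hΛ f hf
  have hΛ0 : 0 < Λ := by linarith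
  -- total mass
  have hmass : ν univ ≤ ENNReal.ofReal K := by
    have e1 : (univ : Set ℝ) = Icc r0 r1 ∪ (Icc r0 r1)ᶜ := (union_compl_self _).symm
    calc ν univ = ν (Icc r0 r1 ∪ (Icc r0 r1)ᶜ) := by rw [← e1]
      _ ≤ ν (Icc r0 r1) + ν (Icc r0 r1)ᶜ := measure_union_le _ _
      _ = ν (Icc r0 r1) := by rw [hν.1, add_zero]
      _ ≤ ENNReal.ofReal K := by
        have := hν.2 r0 (r1 - r0) (by linarith)
        rw [show r0 + (r1 - r0) = r1 by ring] at this
        exact this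
  have haeR : ∀ᵐ R ∂ν, 0 < R := by
    have h4 : ∀ᵐ R ∂ν, R ∈ Icc r0 r1 := by
      rw [ae_iff]
      exact hν.1
    filter_upwards [h4] with R hR
    exact lt_of_lt_of_le hr0 hR.1
  have hae : ∀ᵐ z ∂(ν.prod (volume : Measure (E n))), 0 < z.1 :=
    Measure.quasiMeasurePreserving_fst.ae haeR
  set M1 : ℝ := C1 * Λ ^ (((n : ℝ) - 1) / 2) * K with hM1
  set M2 : ℝ := C2 * Λ ^ (-a) with hM2
  have hM1p : 0 < M1 := by positivity
  have hM2p : 0 < M2 := by positivity
  have hnorm : ∀ w : ℂ, ENNReal.ofReal ‖w‖ = ‖w‖ₑ := fun w => ofReal_norm w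
  have hmeasF := hMeas n ψ Λ f hψ hf
  have key := h3 (volume : Measure (E n)) (ν.prod (volume : Measure (E n)))
    (fun z : ℝ × E n => ‖TR n (pc ψ Λ z.1) f z.2‖) (fun x => ‖f x‖) hmeasF.norm hf.1.norm
    (fun z => norm_nonneg _) (fun x => norm_nonneg _) M1 M2 hM1p hM2p (by
      intro t ht
      have hs1 : MeasurableSet {x : E n | t < ‖f x‖} := measurableSet_lt measurable_const hf.1.norm
      have hs2 : MeasurableSet {x : E n | ‖f x‖ ≤ t} := measurableSet_le hf.1.norm measurable_const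
      set f1 := {x : E n | t < ‖f x‖}.indicator f with hf1
      set f2 := {x : E n | ‖f x‖ ≤ t}.indicator f with hf2
      have hn1 : Nice f1 := nice_ind hf hs1
      have hn2 : Nice f2 := nice_ind hf hs2
      have hsum : f = fun x => f1 x + f2 x := by
        funext x
        rw [hf1, hf2]
        by_cases hx : t < ‖f x‖
        · rw [Set.indicator_of_mem (by exact hx), Set.indicator_of_notMem (by
            simp only [Set.mem_ofPred_eq, not_le]; exact hx), add_zero]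
        · rw [Set.indicator_of_notMem (by exact hx), Set.indicator_of_mem (by
            simp only [Set.mem_ofPred_eq]; exact not_lt.1 hx), zero_add]
      have hm1 := hMeas n ψ Λ f1 hψ hn1
      have hm2 := hMeas n ψ Λ f2 hψ hn2
      refine ⟨fun z => ‖TR n (pc ψ Λ z.1) f1 z.2‖ₑ, fun z => ‖TR n (pc ψ Λ z.1) f2 z.2‖ₑ,
        hm1.enorm, hm2.enorm, ?_, ?_, ?_⟩
      · filter_upwards [hae] with z hz
        rw [hnorm]
        conv_lhs => rw [hsum]
        rw [TR_add hn1.2.1 hn2.2.1 hψ hΛ hz]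
        exact enorm_add_le _ _
      · rw [lintegral_prod _ hm1.enorm.aemeasurable]
        have e1 : ∫⁻ x in {x | t < ‖f x‖}, ENNReal.ofReal ‖f x‖ ∂volume =
            ∫⁻ x : E n, ‖f1 x‖ₑ := by
          rw [← lintegral_indicator hs1]
          congr 1
          funext x
          rw [hf1]
          by_cases hx : x ∈ {x : E n | t < ‖f x‖}
          · rw [Set.indicator_of_mem hx, Set.indicator_of_mem hx, hnorm]
          · rw [Set.indicator_of_notMem hx, Set.indicator_of_notMem hx, enorm_zero]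
        rw [e1]
        calc ∫⁻ R, ∫⁻ x : E n, ‖TR n (pc ψ Λ R) f1 x‖ₑ ∂volume ∂ν ≤
            ∫⁻ _R, (ENNReal.ofReal (C1 * Λ ^ (((n : ℝ) - 1) / 2)) * ∫⁻ x : E n, ‖f1 x‖ₑ) ∂ν := by
              apply lintegral_mono_ae
              filter_upwards [haeR] with R hR
              exact (h1 Λ R hΛ hR f1 hn1.2.1).2
          _ = (ENNReal.ofReal (C1 * Λ ^ (((n : ℝ) - 1) / 2)) * ∫⁻ x : E n, ‖f1 x‖ₑ) * ν univ := by
              rw [lintegral_const]
          _ ≤ (ENNReal.ofReal (C1 * Λ ^ (((n : ℝ) - 1) / 2)) * ∫⁻ x : E n, ‖f1 x‖ₑ) *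
              ENNReal.ofReal K := by gcongr
          _ = ENNReal.ofReal M1 * ∫⁻ x : E n, ‖f1 x‖ₑ := by
              have e2 : ENNReal.ofReal M1 = ENNReal.ofReal (C1 * Λ ^ (((n : ℝ) - 1) / 2)) *
                  ENNReal.ofReal K := by
                rw [hM1]
                exact ENNReal.ofReal_mul (by positivity)
              rw [e2]
              ring
      · rw [lintegral_prod _ (hm2.enorm.pow_const _).aemeasurable]
        have e1 : ∫⁻ x in {x | ‖f x‖ ≤ t}, ENNReal.ofReal ‖f x‖ ^ (2 : ℝ) ∂volume =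
            ∫⁻ x : E n, ‖f2 x‖ₑ ^ (2 : ℝ) := by
          rw [← lintegral_indicator hs2]
          congr 1
          funext x
          rw [hf2]
          by_cases hx : x ∈ {x : E n | ‖f x‖ ≤ t}
          · rw [Set.indicator_of_mem hx, Set.indicator_of_mem hx, hnorm]
          · rw [Set.indicator_of_notMem hx, Set.indicator_of_notMem hx, enorm_zero,
              ENNReal.zero_rpow_of_pos (by norm_num)]
        rw [e1]
        exact h2 ν hν Λ hΛ f2 hn2)
  have hL : ∫⁻ z : ℝ × E n, ENNReal.ofReal ‖TR n (pc ψ Λ z.1) f z.2‖ ^ p ∂(ν.prod volume) =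
      ∫⁻ R, (∫⁻ x : E n, ‖TR n (pc ψ Λ R) f x‖ₑ ^ p) ∂ν := by
    simp only [hnorm]
    exact lintegral_prod _ (hmeasF.enorm.pow_const _).aemeasurable
  rw [hL] at key
  simp only [hnorm] at key
  refine key.trans (le_of_eq ?_)
  congr 2
  -- exponents
  have hp0 : 0 < p := by linarith
  have habs : |1 / 2 - 1 / p| = 1 / p - 1 / 2 := by
    rw [abs_of_neg]
    · ring
    · have : 1 / 2 < 1 / p := one_div_lt_one_div_of_lt hp0 hp2
      linarith
  have hexp : p * sx n a p = ((n : ℝ) - 1) / 2 * (2 - p) + (-a) * (p - 1) := by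
    unfold sx
    rw [habs]
    field_simp
    ring
  rw [hexp, Real.rpow_add hΛ0, hM1, hM2]
  rw [show C1 * Λ ^ (((n : ℝ) - 1) / 2) * K = (C1 * K) * Λ ^ (((n : ℝ) - 1) / 2) by ring]
  have eA : ((C1 * K) * Λ ^ (((n : ℝ) - 1) / 2)) ^ (2 - p) =
      (C1 * K) ^ (2 - p) * Λ ^ (((n : ℝ) - 1) / 2 * (2 - p)) := by
    rw [Real.mul_rpow (by positivity) (by positivity), ← Real.rpow_mul hΛ0.le]
  have eB : (C2 * Λ ^ (-a)) ^ (p - 1) = C2 ^ (p - 1) * Λ ^ ((-a) * (p - 1)) := by
    rw [Real.mul_rpow (by positivity) (by positivity), ← Real.rpow_mul hΛ0.le]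
  rw [eA, eB]
  ring

end Pool.Agent.H487R3.BRA.TSmall
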