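import Pool.Agent.H487R3.BRA.Stmts

set_option autoImplicit false

open MeasureTheory Set

namespace Pool.Agent.H487R3.BRA.TSum

open Pool.Agent.H487R3.BRA

theorem geo {x : ℝ} (hx : 0 < x) :
    ∑' j : ℕ, ENNReal.ofReal ((2 : ℝ) ^ (-(x * j))) = ENNReal.ofReal ((1 - (2 : ℝ) ^ (-x))⁻¹) := by
  have h0 : (0 : ℝ) < (2 : ℝ) ^ (-x) := Real.rpow_pos_of_pos (by norm_num) _
  have h1 : (2 : ℝ) ^ (-x) < 1 := Real.rpow_lt_one_of_one_lt_of_neg (by norm_num) (by linarith)
  have h2 : ∀ j : ℕ, ENNReal.ofReal ((2 : ℝ) ^ (-(x * j))) = (ENNReal.ofReal ((2 : ℝ) ^ (-x))) ^ j := by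
    intro j
    rw [← ENNReal.ofReal_pow h0.le, ← Real.rpow_natCast, ← Real.rpow_mul (by norm_num)]
    congr 2
    ring
  simp_rw [h2]
  rw [ENNReal.tsum_geometric, ENNReal.ofReal_inv_of_pos (by linarith), ENNReal.ofReal_sub _ h0.le,
    ENNReal.ofReal_one]

theorem holder {p q : ℝ} (hpq : p.HolderConjugate q) (b c : ℕ → ENNReal) :
    (∑' j, b j * c j) ^ p ≤ (∑' j, b j ^ q) ^ (p / q) * ∑' j, c j ^ p := by
  have hp : 0 < p := hpq.pos
  have h := ENNReal.lintegral_mul_le_Lp_mul_Lq Measure.count hpq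
    (f := c) (g := b) (measurable_of_countable c).aemeasurable
    (measurable_of_countable b).aemeasurable
  simp only [lintegral_count, Pi.mul_apply] at h
  have h2 : ∑' j, b j * c j = ∑' j, c j * b j := by
    congr 1
    ext j
    rw [mul_comm]
  rw [h2]
  calc (∑' j, c j * b j) ^ p
      ≤ ((∑' j, c j ^ p) ^ (1 / p) * (∑' j, b j ^ q) ^ (1 / q)) ^ p :=
        ENNReal.rpow_le_rpow h hp.le
    _ = (∑' j, c j ^ p) * (∑' j, b j ^ q) ^ (p / q) := by
        rw [ENNReal.mul_rpow_of_nonneg _ _ hp.le, ← ENNReal.rpow_mul, ← ENNReal.rpow_mul,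
          one_div_mul_cancel hp.ne', ENNReal.rpow_one]
        congr 2
        ring
    _ = _ := mul_comm _ _

theorem result : TaskSum := by
  intro p δ s C hp hs hC
  set η : ℝ := (δ - s) / 2 with hη
  have hη0 : 0 < η := by rw [hη]; linarith
  set q : ℝ := p.conjExponent with hq
  have hpq : p.HolderConjugate q := Real.HolderConjugate.conjExponent hp
  have hp0 : 0 < p := hpq.pos
  have hq0 : 0 < q := hpq.symm.pos
  set K : ℝ := (1 - (2 : ℝ) ^ (-(η * q)))⁻¹ with hK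
  set L : ℝ := (1 - (2 : ℝ) ^ (-(η * p)))⁻¹ with hL
  have hpos : ∀ x : ℝ, 0 < x → 0 < (1 - (2 : ℝ) ^ (-x))⁻¹ := by
    intro x hx
    have h1 : (2 : ℝ) ^ (-x) < 1 := Real.rpow_lt_one_of_one_lt_of_neg (by norm_num) (by linarith)
    exact inv_pos.2 (by linarith)
  have hK0 : 0 < K := hpos _ (mul_pos hη0 hq0)
  have hL0 : 0 < L := hpos _ (mul_pos hη0 hp0)
  refine ⟨K ^ (p / q) * (C * L), by positivity, ?_⟩
  intro Y _ ν F T A hT hF hTA
  have h2pos : ∀ x : ℝ, (0 : ℝ) < (2 : ℝ) ^ x := fun x => Real.rpow_pos_of_pos (by norm_num) _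
  -- pointwise
  have hpt : ∀ y, F y ≤ ∑' j : ℕ, ENNReal.ofReal ((2 : ℝ) ^ (-(δ * j))) * T j y →
      F y ^ p ≤ ENNReal.ofReal (K ^ (p / q)) *
        ∑' j : ℕ, ENNReal.ofReal ((2 : ℝ) ^ ((η - δ) * j * p)) * T j y ^ p := by
    intro y hy
    have h1 : ∑' j : ℕ, ENNReal.ofReal ((2 : ℝ) ^ (-(δ * j))) * T j y =
        ∑' j : ℕ, ENNReal.ofReal ((2 : ℝ) ^ (-(η * j))) *
          (ENNReal.ofReal ((2 : ℝ) ^ ((η - δ) * j)) * T j y) := by
      congr 1
      ext j
      rw [← mul_assoc, ← ENNReal.ofReal_mul (h2pos _).le, ← Real.rpow_add (by norm_num)]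
      congr 3
      ring
    calc F y ^ p ≤ (∑' j : ℕ, ENNReal.ofReal ((2 : ℝ) ^ (-(η * j))) *
          (ENNReal.ofReal ((2 : ℝ) ^ ((η - δ) * j)) * T j y)) ^ p :=
          ENNReal.rpow_le_rpow (hy.trans h1.le) hp0.le
      _ ≤ (∑' j : ℕ, ENNReal.ofReal ((2 : ℝ) ^ (-(η * j))) ^ q) ^ (p / q) *
          ∑' j : ℕ, (ENNReal.ofReal ((2 : ℝ) ^ ((η - δ) * j)) * T j y) ^ p := holder hpq _ _
      _ = _ := by
          have e1 : ∑' j : ℕ, ENNReal.ofReal ((2 : ℝ) ^ (-(η * j))) ^ q = ENNReal.ofReal K := by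
            rw [hK, ← geo (mul_pos hη0 hq0)]
            congr 1
            ext j
            rw [ENNReal.ofReal_rpow_of_pos (h2pos _), ← Real.rpow_mul (by norm_num)]
            congr 2
            ring
          rw [e1, ENNReal.ofReal_rpow_of_pos hK0]
          congr 2
          ext j
          rw [ENNReal.mul_rpow_of_nonneg _ _ hp0.le, ENNReal.ofReal_rpow_of_pos (h2pos _),
            ← Real.rpow_mul (by norm_num)]
  have hmeas : ∀ j : ℕ, Measurable fun y =>
      ENNReal.ofReal ((2 : ℝ) ^ ((η - δ) * j * p)) * T j y ^ p := fun j =>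
    ((hT j).pow_const p).const_mul _
  calc ∫⁻ y, F y ^ p ∂ν
      ≤ ∫⁻ y, ENNReal.ofReal (K ^ (p / q)) *
        ∑' j : ℕ, ENNReal.ofReal ((2 : ℝ) ^ ((η - δ) * j * p)) * T j y ^ p ∂ν :=
        lintegral_mono_ae (hF.mono hpt)
    _ = ENNReal.ofReal (K ^ (p / q)) *
        ∑' j : ℕ, ∫⁻ y, ENNReal.ofReal ((2 : ℝ) ^ ((η - δ) * j * p)) * T j y ^ p ∂ν := by
        rw [lintegral_const_mul _ (Measurable.tsum hmeas),
          lintegral_tsum fun j => (hmeas j).aemeasurable]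
    _ ≤ ENNReal.ofReal (K ^ (p / q)) *
        ∑' j : ℕ, ENNReal.ofReal C * ENNReal.ofReal ((2 : ℝ) ^ (-(η * p * j))) * A := by
        gcongr with j
        rw [lintegral_const_mul _ ((hT j).pow_const p)]
        calc ENNReal.ofReal ((2 : ℝ) ^ ((η - δ) * j * p)) * ∫⁻ y, T j y ^ p ∂ν
            ≤ ENNReal.ofReal ((2 : ℝ) ^ ((η - δ) * j * p)) *
              (ENNReal.ofReal (C * ((2 : ℝ) ^ j) ^ (p * s)) * A) := by
              gcongr
              exact hTA j
          _ = ENNReal.ofReal C * ENNReal.ofReal ((2 : ℝ) ^ (-(η * p * j))) * A := by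
              rw [← mul_assoc, ← ENNReal.ofReal_mul (h2pos _).le, ← ENNReal.ofReal_mul hC.le]
              congr 2
              have e3 : ((2 : ℝ) ^ j) ^ (p * s) = (2 : ℝ) ^ ((j : ℝ) * (p * s)) := by
                rw [← Real.rpow_natCast, ← Real.rpow_mul (by norm_num)]
              rw [e3]
              have e4 : (2 : ℝ) ^ (-(η * p * j)) =
                  (2 : ℝ) ^ ((η - δ) * j * p) * (2 : ℝ) ^ ((j : ℝ) * (p * s)) := by
                rw [← Real.rpow_add (by norm_num)]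
                congr 1
                rw [hη]
                ring
              rw [e4]
              ring
    _ = ENNReal.ofReal (K ^ (p / q) * (C * L)) * A := by
        rw [ENNReal.tsum_mul_right, ENNReal.tsum_mul_left, geo (mul_pos hη0 hp0), ← hL,
          ENNReal.ofReal_mul (by positivity), ENNReal.ofReal_mul hC.le]
        ring

end Pool.Agent.H487R3.BRA.TSum
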