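import Pool.Agent.H487R3.BRA.Stmts

/-! Task Weight of the project H487-BR (helper509). -/

set_option autoImplicit false

open MeasureTheory Set

namespace Pool.Agent.H487R3.BRA.TWeight

theorem result : TaskWeight := by
  intro n Λ hΛ
  set g : ℝ → ℝ := fun t => (1 + (t / Λ) ^ 2)⁻¹ with hg
  have hgc : Continuous g := by
    rw [hg]
    refine Continuous.inv₀ (by fun_prop) fun t => by positivity
  have hg0 : ∀ t, 0 ≤ g t := fun t => by rw [hg]; positivity
  have hgi : Integrable g := integrable_inv_one_add_sq.comp_div hΛ.ne'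
  have hgv : ∫ t, g t = Real.pi * Λ := by
    have h1 := Measure.integral_comp_div (fun t : ℝ => (1 + t ^ 2)⁻¹) Λ
    rw [integral_univ_inv_one_add_sq, abs_of_pos hΛ, smul_eq_mul, mul_comm] at h1
    exact h1
  have hI : Integrable (fun x : Fin n → ℝ => ∏ i, g (x i)) :=
    Integrable.fintype_prod (f := fun _ => g) fun _ => hgi
  have hv : ∫ x : Fin n → ℝ, ∏ i, g (x i) = (Real.pi * Λ) ^ n := by
    rw [integral_fintype_prod_volume_eq_prod (f := fun _ => g)]
    simp only [hgv, Finset.prod_const, Finset.card_univ, Fintype.card_fin]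
  have hmeas : Measurable fun x : Fin n → ℝ => ENNReal.ofReal (∏ i, g (x i)) := by
    refine Measurable.ennreal_ofReal (Continuous.measurable ?_)
    exact continuous_finsetProd _ fun i _ => hgc.comp (continuous_apply i)
  have h1 := (PiLp.volume_preserving_ofLp (Fin n)).lintegral_comp hmeas
  have h2 : ∫⁻ x : E n, ENNReal.ofReal (∏ i, (1 + (x i / Λ) ^ 2)⁻¹) =
      ∫⁻ x : Fin n → ℝ, ENNReal.ofReal (∏ i, g (x i)) := h1
  rw [h2, ← ofReal_integral_eq_lintegral_ofReal hI
    (Filter.Eventually.of_forall fun x => Finset.prod_nonneg fun i _ => hg0 _), hv]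

end Pool.Agent.H487R3.BRA.TWeight
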