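import Pool.Agent.H487R3.BRA.Main2
import Pool.Agent.H487R3.BRA.T_Shell
import Pool.Agent.H487R3.BRA.T_Planch
import Pool.Agent.H487R3.BRA.T_PlanchF
import Pool.Agent.H487R3.BRA.T_IBP
import Pool.Agent.H487R3.BRA.T_Ker2
import Pool.Agent.H487R3.BRA.T_Ker1
import Pool.Agent.H487R3.BRA.T_Weight
import Pool.Agent.H487R3.BRA.T_Conv
import Pool.Agent.H487R3.BRA.T_Scale
import Pool.Agent.H487R3.BRA.T_Ends
import Pool.Agent.H487R3.BRA.T_Rad
import Pool.Agent.H487R3.BRA.T_Meas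
import Pool.Agent.H487R3.BRA.T_L2
import Pool.Agent.H487R3.BRA.T_Marc12
import Pool.Agent.H487R3.BRA.T_Big
import Pool.Agent.H487R3.BRA.T_Small
import Pool.Agent.H487R3.BRA.T_Sum
import Pool.Agent.H487R3.BRA.T_SRscale
import Pool.Agent.H487R3.BRA.T_ShellR

set_option autoImplicit false

/-!
Bochner-Riesz means of almost every radius: final theorems.
-/

open MeasureTheory Set Filter Topology

namespace Pool.Agent.H487R3.BRA

theorem tL2 : TaskL2 := TL2.result TPlanch.result TPlanchF.result TRad.result TMeas.result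

theorem tKer1 : TaskKer1 :=
  TKer1.result TWeight.result (TKer2.result TShell.result TPlanch.result TIBP.result)

theorem tEnds : TaskEnds := TEnds.result tKer1 TConv.result TScale.result

theorem tBig : TaskBig := TBig.result tL2 tEnds TMeas.result marcInf

theorem tSmall : TaskSmall := TSmall.result tL2 tEnds TMeas.result TMarc12.result

theorem tShellR : TaskShellR := TShellR.result TShell.result

/-- averaged inequality, measures of dimension `a` -/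
theorem thmA (n : ℕ) (r0 r1 M0 a p δ : ℝ) (hn : 1 ≤ n) (h0 : 0 < r0)
    (h01 : r0 < r1) (hM : 0 < M0) (ha : 0 < a) (ha1 : a ≤ 1) (hp : 1 < p)
    (hδ2 : ((n : ℝ) - 1 + a) * |1 / 2 - 1 / p| - a / 2 < δ) :
    ∃ C : ℝ, 0 < C ∧ ∀ ν : Measure ℝ, Rad r0 r1 M0 a ν → ∀ f : E n → ℂ, Nice f →
      ∫⁻ R, (∫⁻ x : E n, ‖SRm n δ R f x‖ₑ ^ p) ∂ν ≤
        ENNReal.ofReal C * ∫⁻ x : E n, ‖f x‖ₑ ^ p :=
  main2 tL2 tBig tSmall TMeas.result TSum.result tShellR n r0 r1 M0 a p δ hn h0 h01 hM ha ha1 hp hδ2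

theorem lint_smul {n : ℕ} (g : E n → ENNReal) (ρ : ℝ) (hρ : 0 < ρ) :
    ∫⁻ x : E n, g (ρ • x) = ENNReal.ofReal ((ρ ^ n)⁻¹) * ∫⁻ x : E n, g x := by
  have hRn : (0 : ℝ) < ρ ^ n := pow_pos hρ n
  have hfin : Module.finrank ℝ (E n) = n := by simp
  have hme : MeasurableEmbedding (fun x : E n => ρ • x) :=
    (Homeomorph.smulOfNeZero ρ hρ.ne').measurableEmbedding
  rw [← hme.lintegral_map g, Measure.map_addHaar_smul volume hρ.ne', lintegral_smul_measure, hfin,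
    abs_of_pos (inv_pos.2 hRn), smul_eq_mul]

theorem nice_scale {n : ℕ} {f : E n → ℂ} (hf : Nice f) (ρ : ℝ) (hρ : 0 < ρ) :
    Nice fun y => f (ρ • y) := by
  obtain ⟨h1, h2, B, hB⟩ := hf
  exact ⟨h1.comp (measurable_const_smul ρ), h2.comp_smul hρ.ne', B, fun x => hB _⟩

/-- the inequality for all dyadic ranges of radii -/
theorem thmB (n : ℕ) (p δ : ℝ) (hn : 1 ≤ n) (hp : 1 < p)
    (hδ : (n : ℝ) * |1 / 2 - 1 / p| - 1 / 2 < δ) :
    ∃ C : ℝ, 0 < C ∧ ∀ ρ : ℝ, 0 < ρ → ∀ f : E n → ℂ, Nice f →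
      ∫⁻ R in Icc ρ (2 * ρ), (∫⁻ x : E n, ‖SRm n δ R f x‖ₑ ^ p) ≤
        ENNReal.ofReal (C * ρ) * ∫⁻ x : E n, ‖f x‖ₑ ^ p := by
  obtain ⟨C, hC, h⟩ := thmA n 1 2 1 1 p δ hn one_pos (by norm_num) one_pos one_pos le_rfl hp
    (by simpa using hδ)
  refine ⟨C, hC, fun ρ hρ f hf => ?_⟩
  have hν : Rad 1 2 1 1 ((volume : Measure ℝ).restrict (Icc 1 2)) := by
    refine ⟨?_, fun s t _ => ?_⟩
    · rw [Measure.restrict_apply measurableSet_Icc.compl]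
      simp
    · refine (Measure.restrict_apply_le _ _).trans ?_
      rw [Real.volume_Icc, Real.rpow_one]
      simp
  have key := h _ hν (fun y => f (ρ⁻¹ • y)) (nice_scale hf ρ⁻¹ (inv_pos.2 hρ))
  have hRn : (0 : ℝ) < ρ ^ n := pow_pos hρ n
  -- right side
  have e1 : ∫⁻ x : E n, ‖f (ρ⁻¹ • x)‖ₑ ^ p = ENNReal.ofReal (ρ ^ n) * ∫⁻ x : E n, ‖f x‖ₑ ^ p := by
    have := lint_smul (fun x : E n => ‖f x‖ₑ ^ p) ρ⁻¹ (inv_pos.2 hρ)
    rw [this]
    congr 2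
    rw [inv_pow, inv_inv]
  rw [e1] at key
  -- left side
  have e2 : ∫⁻ R in Icc ρ (2 * ρ), (∫⁻ x : E n, ‖SRm n δ R f x‖ₑ ^ p) =
      ENNReal.ofReal ρ * ∫⁻ R in Icc (1 : ℝ) 2, (∫⁻ x : E n, ‖SRm n δ (ρ * R) f x‖ₑ ^ p) := by
    have hme : MeasurableEmbedding (fun R : ℝ => ρ * R) :=
      (Homeomorph.mulLeft₀ ρ hρ.ne').measurableEmbedding
    have h3 : (volume : Measure ℝ) = ENNReal.ofReal ρ • Measure.map (fun R : ℝ => ρ * R) volume := by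
      have := Real.smul_map_volume_mul_left hρ.ne'
      rw [abs_of_pos hρ] at this
      exact this.symm
    have h4 : (fun R : ℝ => ρ * R) ⁻¹' (Icc ρ (2 * ρ)) = Icc 1 2 := by
      ext R
      simp only [mem_preimage, mem_Icc]
      constructor
      · rintro ⟨h5, h6⟩
        constructor <;> nlinarith
      · rintro ⟨h5, h6⟩
        constructor <;> nlinarith
    conv_lhs => rw [h3]
    rw [Measure.restrict_smul, lintegral_smul_measure, hme.restrict_map, h4, hme.lintegral_map,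
      smul_eq_mul]
  have e3 : ∀ R ∈ Icc (1 : ℝ) 2, ∫⁻ x : E n, ‖SRm n δ (ρ * R) f x‖ₑ ^ p =
      ENNReal.ofReal ((ρ ^ n)⁻¹) * ∫⁻ x : E n, ‖SRm n δ R (fun y => f (ρ⁻¹ • y)) x‖ₑ ^ p := by
    intro R hR
    have hR0 : 0 < R := lt_of_lt_of_le one_pos hR.1
    simp only [TSRscale.result n δ ρ R f _ hρ hR0]
    exact lint_smul (fun x : E n => ‖SRm n δ R (fun y => f (ρ⁻¹ • y)) x‖ₑ ^ p) ρ hρ
  rw [e2, setLIntegral_congr_fun measurableSet_Icc e3,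
    lintegral_const_mul' _ _ ENNReal.ofReal_ne_top]
  calc ENNReal.ofReal ρ * (ENNReal.ofReal ((ρ ^ n)⁻¹) *
        ∫⁻ R in Icc (1 : ℝ) 2, (∫⁻ x : E n, ‖SRm n δ R (fun y => f (ρ⁻¹ • y)) x‖ₑ ^ p))
      ≤ ENNReal.ofReal ρ * (ENNReal.ofReal ((ρ ^ n)⁻¹) *
        (ENNReal.ofReal C * (ENNReal.ofReal (ρ ^ n) * ∫⁻ x : E n, ‖f x‖ₑ ^ p))) := by
        gcongr
    _ = (ENNReal.ofReal ((ρ ^ n)⁻¹) * ENNReal.ofReal (ρ ^ n)) *
        ((ENNReal.ofReal C * ENNReal.ofReal ρ) * ∫⁻ x : E n, ‖f x‖ₑ ^ p) := by ring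
    _ = ENNReal.ofReal (C * ρ) * ∫⁻ x : E n, ‖f x‖ₑ ^ p := by
        rw [← ENNReal.ofReal_mul (inv_pos.2 hRn).le, inv_mul_cancel₀ hRn.ne', ENNReal.ofReal_one,
          one_mul, ← ENNReal.ofReal_mul hC.le]

end Pool.Agent.H487R3.BRA
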