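import Pool.Agent.H487R3.BRA.Stmts
import Pool.Agent.H438R2.RZ.M2
import Pool.Agent.H438R2.RZ.R7

set_option autoImplicit false

/-!
Bochner-Riesz means of almost every radius: the assembly.
-/

open MeasureTheory Set Filter Topology

namespace Pool.Agent.H487R3.BRA

/-- Bochner-Riesz mean of order `δ` and radius `R` -/
noncomputable def SR (n : ℕ) (δ R : ℝ) (f : E n → ℂ) (x : E n) : ℂ :=
  ∫ ξ : E n, (((max (1 - ‖ξ‖ ^ 2 / R ^ 2) 0) ^ δ : ℝ) : ℂ) * fh f ξ * e (inner ℝ x ξ)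

theorem norm_e (x : ℝ) : ‖e x‖ = 1 := by
  unfold e; exact Complex.norm_exp_ofReal_mul_I _

theorem e_cont : Continuous e := by
  unfold e; fun_prop

theorem fh_bdd {n : ℕ} (f : E n → ℂ) (ξ : E n) : ‖fh f ξ‖ ≤ ∫ y, ‖f y‖ := by
  refine (norm_integral_le_integral_norm _).trans (le_of_eq ?_)
  congr 1; funext y; rw [norm_mul, norm_e, one_mul]

theorem fh_cont {n : ℕ} (f : E n → ℂ) (hf : Integrable f) : Continuous (fh f) := by
  refine continuous_of_dominated (bound := fun y => ‖f y‖) ?_ ?_ hf.norm ?_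
  · intro ξ
    exact ((e_cont.comp (by fun_prop)).aestronglyMeasurable).mul hf.aestronglyMeasurable
  · intro ξ; exact Filter.Eventually.of_forall fun y => by rw [norm_mul, norm_e, one_mul]
  · refine Filter.Eventually.of_forall fun y => ?_
    exact (e_cont.comp (by fun_prop)).mul continuous_const

theorem bump_bdd {ψ : ℝ → ℝ} (h : Bump ψ) : ∃ M : ℝ, 0 ≤ M ∧ ∀ v, ‖ψ v‖ ≤ M := by
  obtain ⟨M, hM⟩ := (isCompact_Icc (a := (1 / 2 : ℝ)) (b := 2)).exists_bound_of_continuousOn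
    h.1.continuous.continuousOn
  refine ⟨max M 0, le_max_right _ _, fun v => ?_⟩
  by_cases hv : ψ v = 0
  · rw [hv]; simp
  · obtain ⟨h1, h2⟩ := h.2 v hv
    exact (hM v ⟨h1, h2⟩).trans (le_max_left _ _)

theorem piece_norm {n : ℕ} (ψ : ℝ → ℝ) (hψ : Bump ψ) (M : ℝ) (hM : ∀ v, ‖ψ v‖ ≤ M) (hM0 : 0 ≤ M)
    (f : E n → ℂ) (hf : Integrable f) (x : E n) (a : ℝ) (ha : 0 ≤ a) (t R : ℝ) (ht : 0 < t)
    (hR : 0 < R) :
    Integrable (fun ξ : E n => ((a * ψ (t * (1 - ‖ξ‖ ^ 2 / R ^ 2)) : ℝ) : ℂ) * fh f ξ *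
      e (inner ℝ x ξ)) ∧
    ∫ ξ : E n, ‖((a * ψ (t * (1 - ‖ξ‖ ^ 2 / R ^ 2)) : ℝ) : ℂ) * fh f ξ * e (inner ℝ x ξ)‖ ≤
      a * (M * (∫ y, ‖f y‖) * (volume : Measure (E n)).real (Metric.closedBall 0 R)) := by
  have h1 : ∀ ξ : E n, ‖((a * ψ (t * (1 - ‖ξ‖ ^ 2 / R ^ 2)) : ℝ) : ℂ) * fh f ξ * e (inner ℝ x ξ)‖ ≤
      (Metric.closedBall (0 : E n) R).indicator (fun _ => a * (M * (∫ y, ‖f y‖))) ξ := by
    intro ξ
    by_cases hξ : ξ ∈ Metric.closedBall (0 : E n) R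
    · rw [indicator_of_mem hξ, norm_mul, norm_mul, norm_e, mul_one, Complex.norm_real, norm_mul,
        Real.norm_of_nonneg ha, mul_assoc]
      have h2 := hM (t * (1 - ‖ξ‖ ^ 2 / R ^ 2))
      have h3 := fh_bdd f ξ
      gcongr
    · rw [indicator_of_notMem hξ]
      rw [mem_closedBall_zero_iff, not_le] at hξ
      have : ψ (t * (1 - ‖ξ‖ ^ 2 / R ^ 2)) = 0 := by
        by_contra hne
        have h4 := (hψ.2 _ hne).1
        have h5 : 1 < ‖ξ‖ ^ 2 / R ^ 2 := by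
          rw [one_lt_div (by positivity)]
          exact pow_lt_pow_left₀ hξ hR.le (by norm_num)
        nlinarith
      rw [this]; simp
  have hbi : Integrable ((Metric.closedBall (0 : E n) R).indicator
      (fun _ => a * (M * (∫ y, ‖f y‖)))) (volume : Measure (E n)) := by
    rw [integrable_indicator_iff Metric.isClosed_closedBall.measurableSet]
    exact integrableOn_const (measure_closedBall_lt_top.ne)
  have hmeas : AEStronglyMeasurable (fun ξ : E n =>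
      ((a * ψ (t * (1 - ‖ξ‖ ^ 2 / R ^ 2)) : ℝ) : ℂ) * fh f ξ * e (inner ℝ x ξ)) volume := by
    have hψc := hψ.1.continuous
    refine Continuous.aestronglyMeasurable ?_
    refine Continuous.mul (Continuous.mul ?_ (fh_cont f hf)) (e_cont.comp (by fun_prop))
    exact Complex.continuous_ofReal.comp (continuous_const.mul (hψc.comp (by fun_prop)))
  have hint : Integrable (fun ξ : E n => ((a * ψ (t * (1 - ‖ξ‖ ^ 2 / R ^ 2)) : ℝ) : ℂ) * fh f ξ *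
      e (inner ℝ x ξ)) := Integrable.mono' hbi hmeas (Filter.Eventually.of_forall h1)
  refine ⟨hint, ?_⟩
  refine (integral_mono hint.norm hbi h1).trans (le_of_eq ?_)
  rw [integral_indicator Metric.isClosed_closedBall.measurableSet, setIntegral_const, smul_eq_mul]
  ring

theorem hasSum_pieces {n : ℕ} (δ : ℝ) (hδ : 0 < δ) (ψ : ℝ → ℝ) (hψ : Bump ψ)
    (hd : ∀ u : ℝ, 0 ≤ u → HasSum (fun j : ℕ => (2 : ℝ) ^ (-(δ * j)) * ψ (2 ^ j * (1 - u)))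
      ((max (1 - u) 0) ^ δ)) (f : E n → ℂ) (hf : Integrable f) (R : ℝ) (hR : 0 < R) (x : E n) :
    HasSum (fun j : ℕ => (((2 : ℝ) ^ (-(δ * j)) : ℝ) : ℂ) * TR n (pc ψ (2 ^ j) R) f x)
      (SR n δ R f x) := by
  obtain ⟨M, hM0, hM⟩ := bump_bdd hψ
  have h2 : ∀ j : ℕ, 0 ≤ (2 : ℝ) ^ (-(δ * j)) := fun j => Real.rpow_nonneg (by norm_num) _
  have hp := fun j : ℕ => piece_norm ψ hψ M hM hM0 f hf x ((2 : ℝ) ^ (-(δ * j))) (h2 j) (2 ^ j) R
    (by positivity) hR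
  have hgeo : Summable fun j : ℕ => (2 : ℝ) ^ (-(δ * j)) := by
    have : (fun j : ℕ => (2 : ℝ) ^ (-(δ * j))) = fun j : ℕ => ((2 : ℝ) ^ (-δ)) ^ j := by
      funext j
      rw [← Real.rpow_natCast, ← Real.rpow_mul (by norm_num)]; congr 1; ring
    rw [this]
    exact summable_geometric_of_lt_one (Real.rpow_nonneg (by norm_num) _)
      (Real.rpow_lt_one_of_one_lt_of_neg (by norm_num) (by linarith))
  have hs := hasSum_integral_of_summable_integral_norm (μ := (volume : Measure (E n)))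
    (F := fun (j : ℕ) (ξ : E n) => (((2 : ℝ) ^ (-(δ * j)) * ψ (2 ^ j * (1 - ‖ξ‖ ^ 2 / R ^ 2)) : ℝ) : ℂ) *
      fh f ξ * e (inner ℝ x ξ)) (fun j => (hp j).1)
    (Summable.of_nonneg_of_le (fun j => integral_nonneg fun ξ => norm_nonneg _) (fun j => (hp j).2)
      (hgeo.mul_right _))
  have e1 : (∫ ξ : E n, ∑' j : ℕ, (((2 : ℝ) ^ (-(δ * j)) * ψ (2 ^ j * (1 - ‖ξ‖ ^ 2 / R ^ 2)) : ℝ) : ℂ) *
      fh f ξ * e (inner ℝ x ξ)) = SR n δ R f x := by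
    unfold SR
    congr 1; funext ξ
    have h := hd (‖ξ‖ ^ 2 / R ^ 2) (by positivity)
    have h3 := ((Complex.hasSum_ofReal.mpr h).mul_right (fh f ξ)).mul_right (e (inner ℝ x ξ))
    exact h3.tsum_eq
  rw [e1] at hs
  have e2 : (fun j : ℕ => (((2 : ℝ) ^ (-(δ * j)) : ℝ) : ℂ) *
      TR n (pc ψ (2 ^ j) R) f x) = fun j : ℕ => ∫ ξ : E n,
      (((2 : ℝ) ^ (-(δ * j)) * ψ (2 ^ j * (1 - ‖ξ‖ ^ 2 / R ^ 2)) : ℝ) : ℂ) * fh f ξ * e (inner ℝ x ξ) := by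
    funext j
    unfold TR pc
    rw [← integral_const_mul]
    congr 1; funext ξ
    push_cast; ring
  rw [e2]
  exact hs

/-- all pieces -/
theorem pieces (hL2 : TaskL2) (hBig : TaskBig) (hSmall : TaskSmall) (n : ℕ) (ψ : ℝ → ℝ)
    (r0 r1 M0 a p : ℝ) (hn : 1 ≤ n) (hψ : Bump ψ) (h0 : 0 < r0) (h01 : r0 < r1) (hM : 0 < M0)
    (ha : 0 < a) (ha1 : a ≤ 1) (hp : 1 < p) : ∃ C : ℝ, 0 < C ∧ ∀ ν : Measure ℝ, Rad r0 r1 M0 a ν →
    ∀ Λ : ℝ, 1 ≤ Λ → ∀ f : E n → ℂ, Nice f →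
      ∫⁻ R, (∫⁻ x : E n, ‖TR n (pc ψ Λ R) f x‖ₑ ^ p) ∂ν ≤
        ENNReal.ofReal (C * Λ ^ (p * sx n a p)) * ∫⁻ x : E n, ‖f x‖ₑ ^ p := by
  rcases lt_trichotomy p 2 with h2 | h2 | h2
  · exact hSmall n ψ r0 r1 M0 a p hn hψ h0 h01 hM ha ha1 hp h2
  · subst h2
    obtain ⟨C, hC, h⟩ := hL2 n ψ r0 r1 M0 a hn hψ h0 h01 hM ha ha1
    refine ⟨C, hC, fun ν hν Λ hΛ f hf => ?_⟩
    have e1 : (2 : ℝ) * sx n a 2 = -a := by
      unfold sx
      norm_num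
      ring
    rw [e1]
    exact h ν hν Λ hΛ f hf
  · exact hBig n ψ r0 r1 M0 a p hn hψ h0 h01 hM ha ha1 h2

theorem main (hL2 : TaskL2) (hBig : TaskBig) (hSmall : TaskSmall) (hMeas : TaskMeas)
    (hSum : TaskSum) (n : ℕ) (r0 r1 M0 a p δ : ℝ) (hn : 1 ≤ n) (h0 : 0 < r0) (h01 : r0 < r1)
    (hM : 0 < M0) (ha : 0 < a) (ha1 : a ≤ 1) (hp : 1 < p) (hδ : 0 < δ)
    (hδ2 : ((n : ℝ) - 1 + a) * |1 / 2 - 1 / p| - a / 2 < δ) :
    ∃ C : ℝ, 0 < C ∧ ∀ ν : Measure ℝ, Rad r0 r1 M0 a ν → ∀ f : E n → ℂ, Nice f →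
      ∫⁻ R, (∫⁻ x : E n, ‖SR n δ R f x‖ₑ ^ p) ∂ν ≤
        ENNReal.ofReal C * ∫⁻ x : E n, ‖f x‖ₑ ^ p := by
  obtain ⟨ψ, hψ', hd⟩ := Pool.Agent.H438R2.RZ.decomp δ hδ
  have hψ : Bump ψ := hψ'
  obtain ⟨C, hC, hpc⟩ := pieces hL2 hBig hSmall n ψ r0 r1 M0 a p hn hψ h0 h01 hM ha ha1 hp
  obtain ⟨C', hC', hS⟩ := hSum p δ (sx n a p) C hp hδ2 hC
  refine ⟨C', hC', fun ν hν f hf => ?_⟩
  have hνfin : IsFiniteMeasure ν := by
    refine ⟨?_⟩
    have h1 : ν univ ≤ ν (Icc r0 r1) + ν (Icc r0 r1)ᶜ := by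
      rw [← union_compl_self (Icc r0 r1)]
      exact measure_union_le _ _
    rw [hν.1, add_zero] at h1
    have h2 := hν.2 r0 (r1 - r0) (by linarith)
    rw [add_sub_cancel] at h2
    exact (h1.trans h2).trans_lt ENNReal.ofReal_lt_top
  have hR : ∀ᵐ R ∂ν, 0 < R := by
    have : ∀ᵐ R ∂ν, R ∈ Icc r0 r1 := by
      rw [ae_iff]
      exact hν.1
    filter_upwards [this] with R hR
    exact h0.trans_le hR.1
  let T : ℕ → ℝ × E n → ENNReal := fun j z => ‖TR n (pc ψ (2 ^ j) z.1) f z.2‖ₑ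
  have hT : ∀ j, Measurable (T j) := fun j => (hMeas n ψ (2 ^ j) f hψ hf).enorm
  let G : ℝ × E n → ENNReal := fun z => ∑' j : ℕ, ENNReal.ofReal ((2 : ℝ) ^ (-(δ * j))) * T j z
  have hG : Measurable G := Measurable.ennreal_tsum fun j => (hT j).const_mul _
  have key := hS (ν.prod (volume : Measure (E n))) G T (∫⁻ x : E n, ‖f x‖ₑ ^ p) hT
    (Filter.Eventually.of_forall fun z => le_rfl) (by
      intro j
      rw [lintegral_prod _ ((hT j).pow_const p).aemeasurable]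
      exact hpc ν hν (2 ^ j) (one_le_pow₀ (by norm_num)) f hf)
  rw [lintegral_prod _ (hG.pow_const p).aemeasurable] at key
  refine le_trans (lintegral_mono_ae ?_) key
  filter_upwards [hR] with R hR
  refine lintegral_mono fun x => ?_
  refine ENNReal.rpow_le_rpow ?_ (by linarith)
  have hs := hasSum_pieces δ hδ ψ hψ hd f hf.2.1 R hR x
  rw [← hs.tsum_eq]
  refine (enorm_tsum_le_tsum_enorm).trans (le_of_eq ?_)
  congr 1
  funext j
  rw [enorm_mul]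
  congr 1
  rw [← ofReal_norm, Complex.norm_real, Real.norm_of_nonneg (Real.rpow_nonneg (by norm_num) _)]

theorem marcInf : MarcInf := fun p0 p h1 h2 => Pool.Agent.H438R2.RZ.marcInf p0 p h1 h2

end Pool.Agent.H487R3.BRA
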