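import Pool.Agent.H487R3.BRA.Stmts2
import Pool.Agent.H487R3.BRA.Main

set_option autoImplicit false

/-!
Bochner-Riesz means of almost every radius, all orders: the assembly.
-/

open MeasureTheory Set Filter Topology

namespace Pool.Agent.H487R3.BRA

theorem decomp (δ : ℝ) : ∃ ψ : ℝ → ℝ, Bump ψ ∧ ∀ u : ℝ, 0 ≤ u →
    HasSum (fun j : ℕ => (2 : ℝ) ^ (-(δ * j)) * ψ (2 ^ j * (1 - u))) (brm δ u) := by
  open Pool.Agent.H438R2.RZ.R7aux in
  refine ⟨psi δ, psi_bump δ, fun u hu => ?_⟩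
  by_cases hw : 1 - u ≤ 0
  · have h0 : ∀ j : ℕ, (2 : ℝ) ^ (-(δ * j)) * Pool.Agent.H438R2.RZ.R7aux.psi δ (2 ^ j * (1 - u)) = 0 := by
      intro j
      have : (2 : ℝ) ^ j * (1 - u) ≤ 0 := mul_nonpos_of_nonneg_of_nonpos (by positivity) hw
      unfold Pool.Agent.H438R2.RZ.R7aux.psi
      rw [Pool.Agent.H438R2.RZ.R7aux.bet_low (by linarith), mul_zero, mul_zero]
    have hb : brm δ u = 0 := by
      unfold brm
      rw [if_neg (by linarith)]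
    rw [hb]
    simp only [h0]
    exact hasSum_zero
  · push Not at hw
    have hb : brm δ u = (1 - u) ^ δ := by
      unfold brm
      rw [if_pos (by linarith)]
    rw [hb]
    simp only [Pool.Agent.H438R2.RZ.R7aux.term δ (1 - u) hw]
    obtain ⟨J, hJ⟩ := pow_unbounded_of_one_lt (2 / (1 - u)) (by norm_num : (1 : ℝ) < 2)
    have hbig : ∀ j, J ≤ j → 2 ≤ (2 : ℝ) ^ j * (1 - u) := by
      intro j hj
      have h1 : (2 : ℝ) ^ J ≤ 2 ^ j := pow_le_pow_right₀ (by norm_num) hj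
      rw [div_lt_iff₀ hw] at hJ
      nlinarith
    have hs : ∑ j ∈ Finset.range J, (1 - u) ^ δ * Pool.Agent.H438R2.RZ.R7aux.bet (2 ^ j * (1 - u)) =
        (1 - u) ^ δ := by
      rw [← Finset.mul_sum, Pool.Agent.H438R2.RZ.R7aux.sum_bet,
        Pool.Agent.H438R2.RZ.R7aux.h_one (hbig J le_rfl),
        Pool.Agent.H438R2.RZ.R7aux.h_zero (by linarith), sub_zero, mul_one]
    have hz : ∀ j ∉ Finset.range J,
        (1 - u) ^ δ * Pool.Agent.H438R2.RZ.R7aux.bet (2 ^ j * (1 - u)) = 0 := by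
      intro j hj
      have hj' : J ≤ j := by simpa using hj
      rw [Pool.Agent.H438R2.RZ.R7aux.bet_high (hbig j hj'), mul_zero]
    have this : HasSum (fun j : ℕ => (1 - u) ^ δ * Pool.Agent.H438R2.RZ.R7aux.bet (2 ^ j * (1 - u)))
        (∑ j ∈ Finset.range J, (1 - u) ^ δ * Pool.Agent.H438R2.RZ.R7aux.bet (2 ^ j * (1 - u))) :=
      hasSum_sum_of_ne_finset_zero hz
    rwa [hs] at this

theorem piece_norm2 {n : ℕ} (ψ : ℝ → ℝ) (hψ : Bump ψ) (M : ℝ) (hM : ∀ v, ‖ψ v‖ ≤ M) (hM0 : 0 ≤ M)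
    (f : E n → ℂ) (hf : Integrable f) (x : E n) (a : ℝ) (ha : 0 ≤ a) (t R : ℝ) (ht : 1 ≤ t)
    (hR : 0 < R) (V : ℝ) (hV : 0 ≤ V)
    (hvol : volume {ξ : E n | 1 - 2 / t ≤ ‖ξ‖ ^ 2 / R ^ 2 ∧ ‖ξ‖ ^ 2 / R ^ 2 ≤ 1} ≤ ENNReal.ofReal V) :
    Integrable (fun ξ : E n => ((a * ψ (t * (1 - ‖ξ‖ ^ 2 / R ^ 2)) : ℝ) : ℂ) * fh f ξ *
      e (inner ℝ x ξ)) ∧
    ∫ ξ : E n, ‖((a * ψ (t * (1 - ‖ξ‖ ^ 2 / R ^ 2)) : ℝ) : ℂ) * fh f ξ * e (inner ℝ x ξ)‖ ≤
      a * (M * (∫ y, ‖f y‖) * V) := by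
  set Sh : Set (E n) := {ξ : E n | 1 - 2 / t ≤ ‖ξ‖ ^ 2 / R ^ 2 ∧ ‖ξ‖ ^ 2 / R ^ 2 ≤ 1} with hSh
  have hShm : MeasurableSet Sh := by
    have h1 : Measurable fun ξ : E n => ‖ξ‖ ^ 2 / R ^ 2 := by fun_prop
    exact (measurableSet_le measurable_const h1).inter (measurableSet_le h1 measurable_const)
  have h1 : ∀ ξ : E n, ‖((a * ψ (t * (1 - ‖ξ‖ ^ 2 / R ^ 2)) : ℝ) : ℂ) * fh f ξ * e (inner ℝ x ξ)‖ ≤
      Sh.indicator (fun _ => a * (M * (∫ y, ‖f y‖))) ξ := by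
    intro ξ
    by_cases hξ : ξ ∈ Sh
    · rw [indicator_of_mem hξ, norm_mul, norm_mul, norm_e, mul_one, Complex.norm_real, norm_mul,
        Real.norm_of_nonneg ha, mul_assoc]
      have h2 := hM (t * (1 - ‖ξ‖ ^ 2 / R ^ 2))
      have h3 := fh_bdd f ξ
      gcongr
    · rw [indicator_of_notMem hξ]
      have : ψ (t * (1 - ‖ξ‖ ^ 2 / R ^ 2)) = 0 := by
        by_contra hne
        obtain ⟨h4, h5⟩ := hψ.2 _ hne
        apply hξ
        have ht0 : 0 < t := by linarith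
        constructor
        · have : 1 - ‖ξ‖ ^ 2 / R ^ 2 ≤ 2 / t := by
            rw [le_div_iff₀ ht0]; linarith
          linarith
        · by_contra hc
          push Not at hc
          nlinarith
      rw [this]; simp
  have hfin : volume Sh ≠ ⊤ := (hvol.trans_lt ENNReal.ofReal_lt_top).ne
  have hbi : Integrable (Sh.indicator
      (fun _ => a * (M * (∫ y, ‖f y‖)))) (volume : Measure (E n)) := by
    rw [integrable_indicator_iff hShm]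
    exact integrableOn_const hfin
  have hmeas : AEStronglyMeasurable (fun ξ : E n =>
      ((a * ψ (t * (1 - ‖ξ‖ ^ 2 / R ^ 2)) : ℝ) : ℂ) * fh f ξ * e (inner ℝ x ξ)) volume := by
    have hψc := hψ.1.continuous
    refine Continuous.aestronglyMeasurable ?_
    refine Continuous.mul (Continuous.mul ?_ (fh_cont f hf)) (e_cont.comp (by fun_prop))
    exact Complex.continuous_ofReal.comp (continuous_const.mul (hψc.comp (by fun_prop)))
  have hint : Integrable (fun ξ : E n => ((a * ψ (t * (1 - ‖ξ‖ ^ 2 / R ^ 2)) : ℝ) : ℂ) * fh f ξ *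
      e (inner ℝ x ξ)) := Integrable.mono' hbi hmeas (Filter.Eventually.of_forall h1)
  refine ⟨hint, ?_⟩
  refine (integral_mono hint.norm hbi h1).trans ?_
  rw [integral_indicator hShm, setIntegral_const, smul_eq_mul]
  have h6 : (volume : Measure (E n)).real Sh ≤ V := by
    rw [Measure.real]
    exact ENNReal.toReal_le_of_le_ofReal hV hvol
  have h7 : 0 ≤ ∫ y, ‖f y‖ := integral_nonneg fun _ => norm_nonneg _
  calc (volume : Measure (E n)).real Sh * (a * (M * ∫ y, ‖f y‖)) ≤ V * (a * (M * ∫ y, ‖f y‖)) := by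
        gcongr
    _ = _ := by ring

theorem hasSum_pieces2 {n : ℕ} (hn : 1 ≤ n) (hShell : TaskShellR) (δ : ℝ) (hδ : -1 < δ) (ψ : ℝ → ℝ)
    (hψ : Bump ψ)
    (hd : ∀ u : ℝ, 0 ≤ u → HasSum (fun j : ℕ => (2 : ℝ) ^ (-(δ * j)) * ψ (2 ^ j * (1 - u)))
      (brm δ u)) (f : E n → ℂ) (hf : Integrable f) (R : ℝ) (hR : 0 < R) (x : E n) :
    HasSum (fun j : ℕ => (((2 : ℝ) ^ (-(δ * j)) : ℝ) : ℂ) * TR n (pc ψ (2 ^ j) R) f x)
      (SRm n δ R f x) := by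
  obtain ⟨M, hM0, hM⟩ := bump_bdd hψ
  obtain ⟨C, hC, hvol⟩ := hShell n hn R hR
  have h2 : ∀ j : ℕ, 0 ≤ (2 : ℝ) ^ (-(δ * j)) := fun j => Real.rpow_nonneg (by norm_num) _
  have hp := fun j : ℕ => piece_norm2 ψ hψ M hM hM0 f hf x ((2 : ℝ) ^ (-(δ * j))) (h2 j) (2 ^ j) R
    (one_le_pow₀ (by norm_num)) hR (C / 2 ^ j) (by positivity) (hvol _ (one_le_pow₀ (by norm_num)))
  have hgeo : Summable fun j : ℕ => (2 : ℝ) ^ (-(δ * j)) * (M * (∫ y, ‖f y‖) * (C / 2 ^ j)) := by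
    have : (fun j : ℕ => (2 : ℝ) ^ (-(δ * j)) * (M * (∫ y, ‖f y‖) * (C / 2 ^ j))) =
        fun j : ℕ => (M * (∫ y, ‖f y‖) * C) * ((2 : ℝ) ^ (-δ - 1)) ^ j := by
      funext j
      rw [← Real.rpow_natCast 2 j, ← Real.rpow_natCast _ j, ← Real.rpow_mul (by norm_num)]
      have h3 : (2 : ℝ) ^ ((-δ - 1) * (j : ℝ)) = (2 : ℝ) ^ (-(δ * j)) / (2 : ℝ) ^ (j : ℝ) := by
        rw [← Real.rpow_sub (by norm_num)]
        congr 1; ring
      rw [h3]
      ring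
    rw [this]
    exact (summable_geometric_of_lt_one (Real.rpow_nonneg (by norm_num) _)
      (Real.rpow_lt_one_of_one_lt_of_neg (by norm_num) (by linarith))).mul_left _
  have hs := hasSum_integral_of_summable_integral_norm (μ := (volume : Measure (E n)))
    (F := fun (j : ℕ) (ξ : E n) => (((2 : ℝ) ^ (-(δ * j)) * ψ (2 ^ j * (1 - ‖ξ‖ ^ 2 / R ^ 2)) : ℝ) : ℂ) *
      fh f ξ * e (inner ℝ x ξ)) (fun j => (hp j).1)
    (Summable.of_nonneg_of_le (fun j => integral_nonneg fun ξ => norm_nonneg _) (fun j => (hp j).2)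
      hgeo)
  have e1 : (∫ ξ : E n, ∑' j : ℕ, (((2 : ℝ) ^ (-(δ * j)) * ψ (2 ^ j * (1 - ‖ξ‖ ^ 2 / R ^ 2)) : ℝ) : ℂ) *
      fh f ξ * e (inner ℝ x ξ)) = SRm n δ R f x := by
    unfold SRm
    congr 1; funext ξ
    have h := hd (‖ξ‖ ^ 2 / R ^ 2) (by positivity)
    have h3 := ((Complex.hasSum_ofReal.mpr h).mul_right (fh f ξ)).mul_right (e (inner ℝ x ξ))
    exact h3.tsum_eq
  rw [e1] at hs
  have e2 : (fun j : ℕ => (((2 : ℝ) ^ (-(δ * j)) : ℝ) : ℂ) *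
      TR n (pc ψ (2 ^ j) R) f x) = fun j : ℕ => ∫ ξ : E n,
      (((2 : ℝ) ^ (-(δ * j)) * ψ (2 ^ j * (1 - ‖ξ‖ ^ 2 / R ^ 2)) : ℝ) : ℂ) * fh f ξ * e (inner ℝ x ξ) := by
    funext j
    unfold TR pc
    rw [← integral_const_mul]
    congr 1; funext ξ
    push_cast; ring
  rw [e2]
  exact hs

/-- The averaged inequality for all orders `δ` above the critical one. -/
theorem main2 (hL2 : TaskL2) (hBig : TaskBig) (hSmall : TaskSmall) (hMeas : TaskMeas)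
    (hSum : TaskSum) (hShell : TaskShellR) (n : ℕ) (r0 r1 M0 a p δ : ℝ) (hn : 1 ≤ n) (h0 : 0 < r0)
    (h01 : r0 < r1) (hM : 0 < M0) (ha : 0 < a) (ha1 : a ≤ 1) (hp : 1 < p)
    (hδ2 : ((n : ℝ) - 1 + a) * |1 / 2 - 1 / p| - a / 2 < δ) :
    ∃ C : ℝ, 0 < C ∧ ∀ ν : Measure ℝ, Rad r0 r1 M0 a ν → ∀ f : E n → ℂ, Nice f →
      ∫⁻ R, (∫⁻ x : E n, ‖SRm n δ R f x‖ₑ ^ p) ∂ν ≤
        ENNReal.ofReal C * ∫⁻ x : E n, ‖f x‖ₑ ^ p := by
  have hδ1 : -1 < δ := by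
    have h1 : 0 ≤ ((n : ℝ) - 1 + a) * |1 / 2 - 1 / p| := by
      apply mul_nonneg _ (abs_nonneg _)
      have : (1 : ℝ) ≤ n := by exact_mod_cast hn
      linarith
    linarith
  obtain ⟨ψ, hψ, hd⟩ := decomp δ
  obtain ⟨C, hC, hpc⟩ := pieces hL2 hBig hSmall n ψ r0 r1 M0 a p hn hψ h0 h01 hM ha ha1 hp
  obtain ⟨C', hC', hS⟩ := hSum p δ (sx n a p) C hp hδ2 hC
  refine ⟨C', hC', fun ν hν f hf => ?_⟩
  have hνfin : IsFiniteMeasure ν := by
    refine ⟨?_⟩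
    have h1 : ν univ ≤ ν (Icc r0 r1) + ν (Icc r0 r1)ᶜ := by
      rw [← union_compl_self (Icc r0 r1)]
      exact measure_union_le _ _
    rw [hν.1, add_zero] at h1
    have h2 := hν.2 r0 (r1 - r0) (by linarith)
    rw [add_sub_cancel] at h2
    exact (h1.trans h2).trans_lt ENNReal.ofReal_lt_top
  have hR : ∀ᵐ R ∂ν, 0 < R := by
    have : ∀ᵐ R ∂ν, R ∈ Icc r0 r1 := by
      rw [ae_iff]
      exact hν.1
    filter_upwards [this] with R hR
    exact h0.trans_le hR.1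
  let T : ℕ → ℝ × E n → ENNReal := fun j z => ‖TR n (pc ψ (2 ^ j) z.1) f z.2‖ₑ
  have hT : ∀ j, Measurable (T j) := fun j => (hMeas n ψ (2 ^ j) f hψ hf).enorm
  let G : ℝ × E n → ENNReal := fun z => ∑' j : ℕ, ENNReal.ofReal ((2 : ℝ) ^ (-(δ * j))) * T j z
  have hG : Measurable G := Measurable.tsum fun j => (hT j).const_mul _
  have key := hS (ν.prod (volume : Measure (E n))) G T (∫⁻ x : E n, ‖f x‖ₑ ^ p) hT
    (Filter.Eventually.of_forall fun z => le_rfl) (by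
      intro j
      rw [lintegral_prod _ ((hT j).pow_const p).aemeasurable]
      exact hpc ν hν (2 ^ j) (one_le_pow₀ (by norm_num)) f hf)
  rw [lintegral_prod _ (hG.pow_const p).aemeasurable] at key
  refine le_trans (lintegral_mono_ae ?_) key
  filter_upwards [hR] with R hR
  refine lintegral_mono fun x => ?_
  refine ENNReal.rpow_le_rpow ?_ (by linarith)
  have hs := hasSum_pieces2 hn hShell δ hδ1 ψ hψ hd f hf.2.1 R hR x
  rw [← hs.tsum_eq]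
  refine (enorm_tsum_le_tsum_enorm).trans (le_of_eq ?_)
  congr 1
  funext j
  rw [enorm_mul]
  congr 1
  rw [← ofReal_norm, Complex.norm_real, Real.norm_of_nonneg (Real.rpow_nonneg (by norm_num) _)]

end Pool.Agent.H487R3.BRA
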