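import Pool.Agent.H487R3.BRA.Stmts2

/-!
Density of band limited functions (task Band of H487-BR).
-/

set_option autoImplicit false

namespace Pool.Agent.H487R3.BRA.TBand

open MeasureTheory Set Filter Topology Pool.Agent.H487R3.BRA
open scoped FourierTransform ENNReal SchwartzMap ContDiff

theorem fh_eq {n : ℕ} (f : E n → ℂ) : fh f = 𝓕 f := by
  funext ξ
  rw [Real.fourier_eq']
  unfold fh e
  apply integral_congr_ae
  filter_upwards with v
  rw [smul_eq_mul]
  congr 2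
  push_cast
  ring

theorem inv_eq {n : ℕ} (f : E n → ℂ) (x : E n) :
    𝓕⁻ f x = ∫ ξ : E n, f ξ * e (inner ℝ x ξ) := by
  rw [Real.fourierInv_eq']
  unfold e
  apply integral_congr_ae
  filter_upwards with v
  rw [smul_eq_mul, mul_comm, real_inner_comm]

/-- cutoff -/
noncomputable def chi (n : ℕ) : ContDiffBump (0 : E n) := ⟨1, 2, one_pos, one_lt_two⟩

/-- scaled complementary cutoff -/
noncomputable def phi (n : ℕ) (N : ℝ) (x : E n) : ℝ := 1 - chi n (N⁻¹ • x)

theorem phi_smooth (n : ℕ) (N : ℝ) : ContDiff ℝ ∞ (phi n N) := by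
  unfold phi
  exact contDiff_const.sub ((chi n).contDiff.comp (contDiff_const_smul _))

theorem base_bound (n i : ℕ) : ∃ A : ℝ, 0 ≤ A ∧ ∀ x : E n,
    ‖iteratedFDeriv ℝ i (fun y : E n => 1 - chi n y) x‖ ≤ A := by
  have h0 : ContDiff ℝ ∞ (fun y : E n => (chi n y : ℝ)) := (chi n).contDiff
  have hc : Continuous (iteratedFDeriv ℝ i (fun y : E n => (chi n y : ℝ))) :=
    h0.continuous_iteratedFDeriv (mod_cast le_top)
  have hs : HasCompactSupport (iteratedFDeriv ℝ i (fun y : E n => (chi n y : ℝ))) :=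
    (chi n).hasCompactSupport.iteratedFDeriv i
  obtain ⟨C, hC⟩ := hc.bounded_above_of_compact_support hs
  refine ⟨1 + |C|, by positivity, fun x => ?_⟩
  have h1 : iteratedFDeriv ℝ i (fun y : E n => 1 - chi n y) x =
      iteratedFDeriv ℝ i (fun _ : E n => (1 : ℝ)) x -
        iteratedFDeriv ℝ i (fun y : E n => (chi n y : ℝ)) x := by
    have := iteratedFDeriv_sub_apply (𝕜 := ℝ) (i := i) (x := x) (f := fun _ : E n => (1 : ℝ))
      (g := fun y : E n => (chi n y : ℝ)) contDiff_const.contDiffAt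
      (h0.of_le (mod_cast le_top)).contDiffAt
    exact this
  rw [h1]
  refine (norm_sub_le _ _).trans (add_le_add ?_ ((hC x).trans (le_abs_self C)))
  rcases Nat.eq_zero_or_pos i with rfl | hi
  · simp
  · rw [iteratedFDeriv_const_of_ne (by omega)]
    simp

theorem phi_bound (n i : ℕ) : ∃ A : ℝ, 0 ≤ A ∧ ∀ N : ℝ, 1 ≤ N → ∀ x : E n,
    ‖iteratedFDeriv ℝ i (phi n N) x‖ ≤ A := by
  obtain ⟨A, hA, h⟩ := base_bound n i
  refine ⟨A, hA, fun N hN x => ?_⟩
  have hN0 : 0 < N := by linarith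
  set g : E n →L[ℝ] E n := N⁻¹ • ContinuousLinearMap.id ℝ (E n) with hg
  have h1 : phi n N = (fun y : E n => 1 - chi n y) ∘ g := by
    funext y
    simp [phi, hg]
  have h0 : ContDiff ℝ ∞ (fun y : E n => 1 - (chi n y : ℝ)) := contDiff_const.sub (chi n).contDiff
  rw [h1, g.iteratedFDeriv_comp_right h0 x (mod_cast le_top)]
  refine (ContinuousMultilinearMap.norm_compContinuousLinearMap_le _ _).trans ?_
  have hgn : ‖g‖ ≤ 1 := by
    rw [hg, norm_smul]
    have : ‖N⁻¹‖ ≤ 1 := by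
      rw [Real.norm_of_nonneg (by positivity)]
      exact inv_le_one_of_one_le₀ hN
    have h3 : ‖ContinuousLinearMap.id ℝ (E n)‖ ≤ 1 := ContinuousLinearMap.norm_id_le
    calc ‖N⁻¹‖ * ‖ContinuousLinearMap.id ℝ (E n)‖ ≤ 1 * 1 :=
          mul_le_mul this h3 (norm_nonneg _) (by norm_num)
      _ = 1 := by norm_num
  have hp : ∏ _j : Fin i, ‖g‖ ≤ 1 := Finset.prod_le_one (fun _ _ => norm_nonneg _) (fun _ _ => hgn)
  calc _ ≤ A * 1 := mul_le_mul (h _) hp (Finset.prod_nonneg fun _ _ => norm_nonneg _) hA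
    _ = A := mul_one A

theorem phi_zero (n : ℕ) {N : ℝ} (hN : 1 ≤ N) {x : E n} (hx : ‖x‖ < N) :
    phi n N =ᶠ[𝓝 x] fun _ => (0 : ℝ) := by
  have hN0 : 0 < N := by linarith
  have : ∀ᶠ y in 𝓝 x, ‖y‖ < N := continuous_norm.continuousAt.eventually_lt continuousAt_const hx
  filter_upwards [this] with y hy
  unfold phi
  rw [(chi n).one_of_mem_closedBall, sub_self]
  rw [mem_closedBall_zero_iff, norm_smul, Real.norm_of_nonneg (by positivity)]
  show N⁻¹ * ‖y‖ ≤ 1
  rw [inv_mul_le_iff₀ hN0]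
  linarith

theorem key (n : ℕ) (v : 𝓢(E n, ℂ)) (k m : ℕ) : ∃ C : ℝ, 0 ≤ C ∧ ∀ N : ℝ, 1 ≤ N → ∀ x : E n,
    ‖x‖ ^ k * ‖iteratedFDeriv ℝ m (fun y => phi n N y • v y) x‖ ≤ C / N := by
  choose A hA hAb using fun i => phi_bound n i
  refine ⟨∑ i ∈ Finset.range (m + 1), (m.choose i : ℝ) * A i *
    SchwartzMap.seminorm ℝ (k + 1) (m - i) v, ?_, ?_⟩
  · exact Finset.sum_nonneg fun i _ => mul_nonneg (mul_nonneg (by positivity) (hA i))
      (apply_nonneg _ _)
  intro N hN x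
  have hN0 : 0 < N := by linarith
  rcases lt_or_ge ‖x‖ N with hx | hx
  · have h1 : (fun y => phi n N y • v y) =ᶠ[𝓝 x] fun _ => (0 : ℂ) := by
      filter_upwards [phi_zero n hN hx] with y hy
      rw [hy, zero_smul]
    have h2 : iteratedFDeriv ℝ m (fun y => phi n N y • v y) x = 0 := by
      rw [(EventuallyEq.iteratedFDeriv ℝ h1 m).eq_of_nhds]
      rw [iteratedFDeriv_fun_zero]
      rfl
    rw [h2, norm_zero, mul_zero]
    refine div_nonneg ?_ hN0.le
    exact Finset.sum_nonneg fun i _ => mul_nonneg (mul_nonneg (by positivity) (hA i))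
      (apply_nonneg _ _)
  · have h1 := norm_iteratedFDeriv_smul_le (𝕜 := ℝ) (N := ∞) (phi_smooth n N) (v.smooth ⊤) x
      (n := m) (mod_cast le_top)
    have h2 : ‖x‖ ^ k ≤ ‖x‖ ^ (k + 1) / N := by
      rw [le_div_iff₀ hN0, pow_succ]
      exact mul_le_mul_of_nonneg_left hx (by positivity)
    calc ‖x‖ ^ k * ‖iteratedFDeriv ℝ m (fun y => phi n N y • v y) x‖
        ≤ (‖x‖ ^ (k + 1) / N) * ∑ i ∈ Finset.range (m + 1), (m.choose i : ℝ) *
          ‖iteratedFDeriv ℝ i (phi n N) x‖ * ‖iteratedFDeriv ℝ (m - i) v x‖ :=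
          mul_le_mul h2 h1 (norm_nonneg _) (by positivity)
      _ = (∑ i ∈ Finset.range (m + 1), (m.choose i : ℝ) *
          ‖iteratedFDeriv ℝ i (phi n N) x‖ * (‖x‖ ^ (k + 1) * ‖iteratedFDeriv ℝ (m - i) v x‖)) / N := by
          rw [Finset.mul_sum, Finset.sum_div]
          refine Finset.sum_congr rfl fun i _ => ?_
          ring
      _ ≤ _ := by
          refine div_le_div_of_nonneg_right (Finset.sum_le_sum fun i _ => ?_) hN0.le
          have h3 := SchwartzMap.le_seminorm ℝ (k + 1) (m - i) v x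
          refine mul_le_mul (mul_le_mul_of_nonneg_left (hAb i N hN x) (by positivity)) h3
            (by positivity) (mul_nonneg (by positivity) (hA i))

/-- cut off Schwartz function -/
theorem cut_hcs (n : ℕ) (v : 𝓢(E n, ℂ)) (N : ℝ) (hN : 0 < N) :
    HasCompactSupport (fun y : E n => (chi n (N⁻¹ • y) : ℝ) • v y) := by
  refine HasCompactSupport.intro (isCompact_closedBall (0 : E n) (2 * N)) fun x hx => ?_
  have h1 : 2 * N < ‖x‖ := by
    rw [mem_closedBall_zero_iff, not_le] at hx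
    exact hx
  have h2 : (chi n (N⁻¹ • x) : ℝ) = 0 := by
    refine (chi n).zero_of_le_dist ?_
    rw [dist_zero_right, norm_smul, Real.norm_of_nonneg (by positivity)]
    show 2 ≤ N⁻¹ * ‖x‖
    rw [← div_eq_inv_mul, le_div_iff₀ hN]
    exact h1.le
  rw [h2, zero_smul]

theorem cut_smooth (n : ℕ) (v : 𝓢(E n, ℂ)) (N : ℝ) :
    ContDiff ℝ ∞ (fun y : E n => (chi n (N⁻¹ • y) : ℝ) • v y) :=
  ((chi n).contDiff.comp (contDiff_const_smul _)).smul (v.smooth ⊤)

noncomputable def cut (n : ℕ) (v : 𝓢(E n, ℂ)) (N : ℕ) : 𝓢(E n, ℂ) :=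
  (cut_hcs n v ((N : ℝ) + 1) (by positivity)).toSchwartzMap (cut_smooth n v _)

theorem cut_tendsto (n : ℕ) (v : 𝓢(E n, ℂ)) :
    Tendsto (fun N : ℕ => cut n v N) atTop (𝓝 v) := by
  rw [(schwartz_withSeminorms ℝ (E n) ℂ).tendsto_nhds_atTop]
  rintro ⟨k, m⟩ ε hε
  obtain ⟨C, hC, hk⟩ := key n v k m
  obtain ⟨N0, hN0⟩ := exists_nat_gt (C / ε)
  refine ⟨N0, fun N hN => ?_⟩
  have hNR : (N0 : ℝ) ≤ N := by exact_mod_cast hN
  have h1 : SchwartzMap.seminorm ℝ k m (cut n v N - v) ≤ C / ((N : ℝ) + 1) := by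
    refine SchwartzMap.seminorm_le_bound ℝ k m _ (by positivity) fun x => ?_
    have h2 : ((cut n v N - v : 𝓢(E n, ℂ)) : E n → ℂ) =
        -(fun y => phi n ((N : ℝ) + 1) y • v y) := by
      funext y
      show (chi n (((N : ℝ) + 1)⁻¹ • y) : ℝ) • v y - v y = -(phi n ((N : ℝ) + 1) y • v y)
      unfold phi
      rw [sub_smul, one_smul]
      ring
    rw [h2, iteratedFDeriv_neg, Pi.neg_apply, norm_neg]
    exact hk _ (by linarith [(Nat.cast_nonneg N : (0 : ℝ) ≤ N)]) x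
  refine lt_of_le_of_lt h1 ?_
  rw [div_lt_iff₀ (by positivity)]
  rw [div_lt_iff₀ hε] at hN0
  nlinarith

theorem nice_memLp {n : ℕ} {f : E n → ℂ} (hf : Nice f) {p : ℝ} (hp : 1 < p) :
    MemLp f (ENNReal.ofReal p) := by
  obtain ⟨h1, h2, B, hB⟩ := hf
  have hp0 : 0 < p := by linarith
  have hB0 : 0 ≤ B := (norm_nonneg _).trans (hB 0)
  have e1 : ENNReal.ofReal p ≠ 0 := by simpa using hp0
  have e2 : (ENNReal.ofReal p).toReal = p := ENNReal.toReal_ofReal hp0.le
  rw [← integrable_norm_rpow_iff h1.aestronglyMeasurable e1 ENNReal.ofReal_ne_top, e2]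
  refine Integrable.mono' (g := fun x => B ^ (p - 1) * ‖f x‖) (h2.norm.const_mul _)
    (h1.norm.pow_const p).aestronglyMeasurable ?_
  filter_upwards with x
  rw [Real.norm_of_nonneg (by positivity)]
  rcases (norm_nonneg (f x)).eq_or_lt with h0 | h0
  · rw [← h0, Real.zero_rpow hp0.ne', mul_zero]
  · have : ‖f x‖ ^ p = ‖f x‖ ^ (p - 1) * ‖f x‖ := by
      rw [← Real.rpow_add_one h0.ne']
      congr 1
      ring
    rw [this]
    refine mul_le_mul_of_nonneg_right ?_ h0.le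
    exact Real.rpow_le_rpow h0.le (hB x) (by linarith)

theorem result : TaskBand := by
  intro n p hp f hf ε hε
  have hp0 : 0 < p := by linarith
  have : Fact (1 ≤ ENNReal.ofReal p) := ⟨by
    rw [← ENNReal.ofReal_one]
    exact ENNReal.ofReal_le_ofReal hp.le⟩
  have hL := nice_memLp hf hp
  set δ : ℝ := ε ^ p⁻¹ with hδ
  have hδ0 : 0 < δ := Real.rpow_pos_of_pos hε _
  obtain ⟨u, hu⟩ := (SchwartzMap.denseRange_toLpCLM (E := E n) (F := ℂ)
    (p := ENNReal.ofReal p) (μ := volume) ENNReal.ofReal_ne_top).exists_dist_lt hL.toLp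
    (half_pos hδ0)
  -- continuity of inverse Fourier transform into Lp
  have hcont : Continuous fun w : 𝓢(E n, ℂ) => (𝓕⁻ w).toLp (ENNReal.ofReal p) volume :=
    SchwartzMap.continuous_toLp.comp (ContinuousFourierInv.continuous_fourierInv)
  have ht := (hcont.tendsto (𝓕 u)).comp (cut_tendsto n (𝓕 u))
  rw [FourierTransform.fourierInv_fourier_eq] at ht
  obtain ⟨N, hN⟩ := (ht.eventually (Metric.ball_mem_nhds _ (half_pos hδ0))).exists
  set w : 𝓢(E n, ℂ) := cut n (𝓕 u) N with hw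
  set g : 𝓢(E n, ℂ) := 𝓕⁻ w with hg
  have hfg : fh (g : E n → ℂ) = w := by
    rw [fh_eq, ← SchwartzMap.fourier_coe, hg, FourierTransform.fourier_fourierInv_eq]
  refine ⟨g, ⟨g.continuous.measurable, g.integrable, _, SchwartzMap.norm_le_seminorm ℝ g⟩,
    ?_, ?_, ?_⟩
  · have hcs : HasCompactSupport (w : E n → ℂ) := cut_hcs n (𝓕 u) ((N : ℝ) + 1) (by positivity)
    obtain ⟨B0, hB0⟩ := hcs.isCompact.isBounded.subset_closedBall (0 : E n)
    refine ⟨B0, fun ξ hξ => ?_⟩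
    rw [hfg]
    by_contra hne
    have := hB0 (subset_tsupport _ (Function.mem_support.2 hne))
    rw [mem_closedBall_zero_iff] at this
    linarith
  · intro x
    rw [hfg, ← inv_eq, ← SchwartzMap.fourierInv_coe]
  · have hd : dist (hL.toLp : Lp ℂ (ENNReal.ofReal p) (volume : Measure (E n)))
        (g.toLp (ENNReal.ofReal p) volume) < δ := by
      have h1 : dist (g.toLp (ENNReal.ofReal p) volume) (u.toLp (ENNReal.ofReal p) volume) < δ / 2 :=
        hN
      have h2 : dist (hL.toLp : Lp ℂ (ENNReal.ofReal p) (volume : Measure (E n)))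
        (u.toLp (ENNReal.ofReal p) volume) < δ / 2 := hu
      have h3 := dist_triangle_right (hL.toLp : Lp ℂ (ENNReal.ofReal p) (volume : Measure (E n)))
        (g.toLp (ENNReal.ofReal p) volume) (u.toLp (ENNReal.ofReal p) volume)
      linarith
    have hgL : MemLp (g : E n → ℂ) (ENNReal.ofReal p) := g.memLp _
    have h4 : dist (hL.toLp : Lp ℂ (ENNReal.ofReal p) (volume : Measure (E n)))
        (g.toLp (ENNReal.ofReal p) volume) =
        (eLpNorm (f - (g : E n → ℂ)) (ENNReal.ofReal p) volume).toReal := by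
      rw [Lp.dist_def]
      congr 1
      refine eLpNorm_congr_ae ?_
      exact hL.coeFn_toLp.sub (g.coeFn_toLp _ _)
    have h5 : eLpNorm (f - (g : E n → ℂ)) (ENNReal.ofReal p) volume ≤ ENNReal.ofReal δ := by
      rw [h4] at hd
      rw [← ENNReal.ofReal_toReal (hL.sub hgL).eLpNorm_ne_top]
      exact ENNReal.ofReal_le_ofReal hd.le
    have e1 : ENNReal.ofReal p ≠ 0 := by simpa using hp0
    have e2 : (ENNReal.ofReal p).toReal = p := ENNReal.toReal_ofReal hp0.le
    rw [eLpNorm_eq_lintegral_rpow_enorm_toReal e1 ENNReal.ofReal_ne_top, e2] at h5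
    have h6 := ENNReal.rpow_le_rpow h5 hp0.le
    rw [← ENNReal.rpow_mul, one_div, inv_mul_cancel₀ hp0.ne', ENNReal.rpow_one,
      ENNReal.ofReal_rpow_of_pos hδ0, hδ, ← Real.rpow_mul hε.le, inv_mul_cancel₀ hp0.ne',
      Real.rpow_one] at h6
    exact h6

end Pool.Agent.H487R3.BRA.TBand
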