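import Pool.Agent.H487R3.BRA.Stmts

set_option autoImplicit false

open MeasureTheory Set

namespace Pool.Agent.H487R3.BRA.TMeas

theorem e_meas : Measurable e := by
  have : Continuous e := by
    unfold e
    fun_prop
  exact this.measurable

theorem fh_meas {n : ℕ} (f : E n → ℂ) (hf : Measurable f) : Measurable (fh f) := by
  have h : StronglyMeasurable (fun ξ : E n => ∫ y : E n, e (-(inner ℝ y ξ)) * f y) := by
    apply StronglyMeasurable.integral_prod_right (f := fun (ξ y : E n) => e (-(inner ℝ y ξ)) * f y)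
    apply Measurable.stronglyMeasurable
    have h1 : Measurable (fun z : E n × E n => e (-(inner ℝ z.2 z.1))) :=
      e_meas.comp (by fun_prop)
    exact h1.mul (hf.comp measurable_snd)
  exact h.measurable

theorem result : TaskMeas := by
  intro n ψ Λ f hψ hf
  have hψm : Measurable ψ := hψ.1.continuous.measurable
  have h : StronglyMeasurable (fun z : ℝ × E n => ∫ ξ : E n,
      ((pc ψ Λ z.1 (‖ξ‖ ^ 2) : ℝ) : ℂ) * fh f ξ * e (inner ℝ z.2 ξ)) := by
    apply StronglyMeasurable.integral_prod_right (f := fun (z : ℝ × E n) (ξ : E n) =>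
      ((pc ψ Λ z.1 (‖ξ‖ ^ 2) : ℝ) : ℂ) * fh f ξ * e (inner ℝ z.2 ξ))
    apply Measurable.stronglyMeasurable
    have h1 : Measurable (fun w : (ℝ × E n) × E n => ψ (Λ * (1 - ‖w.2‖ ^ 2 / w.1.1 ^ 2))) :=
      hψm.comp (by fun_prop)
    have h2 : Measurable (fun w : (ℝ × E n) × E n => fh f w.2) :=
      (fh_meas f hf.1).comp measurable_snd
    have h3 : Measurable (fun w : (ℝ × E n) × E n => e (inner ℝ w.1.2 w.2)) :=
      e_meas.comp (by fun_prop)
    exact ((Complex.measurable_ofReal.comp h1).mul h2).mul h3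
  exact h.measurable

end Pool.Agent.H487R3.BRA.TMeas
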